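import Pool.Agent.Lib.MP_fe131b_co.F5.X12
import Pool.Agent.Lib.MP_fe131b_co.F4.Cross14

/-!
Matchings between the two sides of a set that avoid two given ones.
-/

set_option autoImplicit false

namespace Pool.Agent.Lib.MP_fe131b_co.F5

open Pool.Agent.Lib.MP_fe131b_co.F4 Finset Function

/-- a matching between the set and its complement -/
def Crs {V : Type} (A : Finset V) (M : V → V) : Prop := ∀ v, M v ∈ A ↔ v ∉ A

/-- labels are completed by matchings between the sides, avoiding two given ones -/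
def Cross2 (m : ℕ) : Prop := ∀ (V : Type) [Fintype V] [DecidableEq V] (A : Finset V),
  A.card = m → Aᶜ.card = m → ∀ G1 G2 L : V → V, PM G1 → PM G2 → PM L → Crs A G1 → Crs A G2 →
  ∃ M : V → V, PM M ∧ Crs A M ∧ (∀ v, M v ≠ G1 v) ∧ (∀ v, M v ≠ G2 v) ∧ Connected L M

theorem R12_1_spec : ∀ x y : Fin 12, x ≠ y → adj R12_1 x y = false →
    (((y : ℕ) < 6 ↔ ¬ (x : ℕ) < 6) ∧ (y : ℕ) ≠ x + 6 ∧ (x : ℕ) ≠ y + 6) := by
  decide +kernel

theorem cross2_six : Cross2 6 := by
  intro V _ _ A hA hB G1 G2 L hG1 hG2 hL hx1 hx2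
  have hV : Fintype.card V = 12 := by
    have := Finset.card_add_card_compl A
    omega
  have hg : ∀ v ∈ A, G1 v ∉ A := fun v hv h => (hx1 v).1 h hv
  have hinj : ∀ v w, G1 v = G1 w → v = w := fun v w h => by rw [← hG1.1 v, h, hG1.1 w]
  let a : Fin 6 ≃ A := (Fintype.equivFinOfCardEq (by rw [Fintype.card_coe]; exact hA)).symm
  let e0 : Fin 12 → V := fun j => if h : (j : ℕ) < 6 then (a ⟨j, h⟩ : V)
    else G1 (a ⟨(j : ℕ) - 6, by have := j.2; omega⟩ : V)
  have e1 : ∀ (j : Fin 12) (h : (j : ℕ) < 6), e0 j = (a ⟨j, h⟩ : V) := by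
    intro j h; simp only [e0]; rw [dif_pos h]
  have e2 : ∀ (j : Fin 12) (h : ¬ (j : ℕ) < 6), e0 j =
      G1 (a ⟨(j : ℕ) - 6, by have := j.2; omega⟩ : V) := by
    intro j h; simp only [e0]; rw [dif_neg h]
  have e3 : ∀ j : Fin 12, e0 j ∈ A ↔ (j : ℕ) < 6 := by
    intro j
    by_cases h : (j : ℕ) < 6
    · rw [e1 j h]
      exact ⟨fun _ => h, fun _ => (a ⟨j, h⟩).2⟩
    · rw [e2 j h]
      exact ⟨fun h' => absurd h' (hg _ (a _).2), fun h' => absurd h' h⟩
  have hinj0 : Injective e0 := by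
    intro i j hij
    have h3 := e3 i
    rw [hij, e3 j] at h3
    by_cases h : (i : ℕ) < 6
    · have h' := h3.2 h
      rw [e1 i h, e1 j h'] at hij
      have h4 := a.injective (Subtype.ext hij)
      have h5 : (i : ℕ) = j := congrArg (fun t : Fin 6 => (t : ℕ)) h4
      exact Fin.ext h5
    · have h' : ¬ (j : ℕ) < 6 := fun h'' => h (h3.1 h'')
      rw [e2 i h, e2 j h'] at hij
      have h4 := a.injective (Subtype.ext (hinj _ _ hij))
      have h5 : (i : ℕ) - 6 = (j : ℕ) - 6 := congrArg (fun t : Fin 6 => (t : ℕ)) h4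
      apply Fin.ext
      omega
  have hbij : Bijective e0 :=
    (Fintype.bijective_iff_injective_and_card e0).2 ⟨hinj0, by rw [hV]; simp⟩
  let e : Fin 12 ≃ V := Equiv.ofBijective e0 hbij
  have he : ∀ j, e j = e0 j := fun j => rfl
  have hG1e : ∀ (i j : Fin 12), (j : ℕ) = i + 6 → G1 (e i) = e j := by
    intro i j hj
    have h1 : (i : ℕ) < 6 := by have := j.2; omega
    have h2 : ¬ (j : ℕ) < 6 := by omega
    rw [he, he, e1 i h1, e2 j h2]
    have h3 : (⟨(j : ℕ) - 6, by have := j.2; omega⟩ : Fin 6) = ⟨i, h1⟩ := Fin.ext (by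
      show (j : ℕ) - 6 = i
      omega)
    rw [h3]
  obtain ⟨M, m1, m2, m3, m4⟩ := cross2_12 (fun v => e.symm (G2 (e v)))
    (fun v => e.symm (L (e v))) (PM_conj e.symm hG2) (by
      intro x hx h
      have h1 : e x ∈ A := (e3 x).2 hx
      have h2 : G2 (e x) ∈ A := by
        have h3 := (e3 (e.symm (G2 (e x)))).2 h
        rw [← he, Equiv.apply_symm_apply] at h3
        exact h3
      exact (hx2 _).1 h2 h1) (PM_conj e.symm hL)
  have m5 : ∀ x, ((M x : ℕ) < 6 ↔ ¬ (x : ℕ) < 6) ∧ (M x : ℕ) ≠ x + 6 ∧ (x : ℕ) ≠ M x + 6 :=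
    fun x => R12_1_spec x (M x) (fun h => m1.2 x h.symm) (m2 x)
  refine ⟨fun v => e (M (e.symm v)), PM_conj e m1, ?_, ?_, ?_, ?_⟩
  · intro v
    obtain ⟨j, rfl⟩ := e.surjective v
    show e (M (e.symm (e j))) ∈ A ↔ e j ∉ A
    rw [he (M _), e3, Equiv.symm_apply_apply, (m5 j).1, he, e3]
  · intro v h
    obtain ⟨j, rfl⟩ := e.surjective v
    have h : e (M (e.symm (e j))) = G1 (e j) := h
    rw [Equiv.symm_apply_apply] at h
    by_cases hj : (j : ℕ) < 6
    · have h1 := hG1e j ⟨(j : ℕ) + 6, by omega⟩ rfl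
      rw [h1] at h
      exact (m5 j).2.1 (congrArg (fun t : Fin 12 => (t : ℕ)) (e.injective h))
    · have h1 := hG1e ⟨(j : ℕ) - 6, by have := j.2; omega⟩ j (by
        show (j : ℕ) = (j : ℕ) - 6 + 6
        omega)
      have h2 : G1 (e j) = e ⟨(j : ℕ) - 6, by have := j.2; omega⟩ := by
        rw [← h1, hG1.1]
      rw [h2] at h
      have h3 := congrArg (fun t : Fin 12 => (t : ℕ)) (e.injective h)
      simp only at h3
      exact (m5 j).2.2 (by omega)
  · intro v h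
    obtain ⟨j, rfl⟩ := e.surjective v
    have h : e (M (e.symm (e j))) = G2 (e j) := h
    rw [Equiv.symm_apply_apply] at h
    apply m3 j
    show M j = e.symm (G2 (e j))
    rw [← h, Equiv.symm_apply_apply]
  · have h4 := connected_conj e m4
    have e5 : (fun w => e ((fun w => e.symm (L (e w))) (e.symm w))) = L := by
      funext w; simp
    rw [e5] at h4
    exact h4

/-- removing two points from a matching between the sides -/
theorem shrink {V : Type} [DecidableEq V] {A : Finset V} {G : V → V} (hG : PM G)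
    (hx : Crs A G) {a b : V} (ha : a ∈ A) (hb : b ∉ A) (hGab : G a ≠ b) :
    ∃ G' : {v // decide (v ≠ a ∧ v ≠ b) = true} → {v // decide (v ≠ a ∧ v ≠ b) = true},
      PM G' ∧ (∀ v, (G' v).1 ∈ A ↔ v.1 ∉ A) ∧
      ∀ v, G v.1 ≠ a → G v.1 ≠ b → (G' v).1 = G v.1 := by
  have hφ : ∀ v : V, decide (v ≠ a ∧ v ≠ b) = true ↔ v ≠ a ∧ v ≠ b :=
    fun v => decide_eq_true_iff
  have hab : a ≠ b := fun h => hb (h ▸ ha)
  have hGba : G b ≠ a := fun h => hGab (by rw [← h, hG.1])
  have hinj : ∀ v w, G v = G w → v = w := fun v w h => by rw [← hG.1 v, h, hG.1 w]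
  let g : V → V := fun v => if G v = b then G a else if G v = a then G b else G v
  have g1 : ∀ v, G v = b → g v = G a := fun v h => by simp only [g]; rw [if_pos h]
  have g2 : ∀ v, G v = a → g v = G b := fun v h => by
    simp only [g]; rw [if_neg (by rw [h]; exact hab), if_pos h]
  have g3 : ∀ v, G v ≠ a → G v ≠ b → g v = G v := fun v h h' => by
    simp only [g]; rw [if_neg h', if_neg h]
  have gW : ∀ v, v ≠ a ∧ v ≠ b → g v ≠ a ∧ g v ≠ b := by
    intro v hv
    by_cases h1 : G v = b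
    · rw [g1 v h1]; exact ⟨hG.2 a, hGab⟩
    · by_cases h2 : G v = a
      · rw [g2 v h2]; exact ⟨hGba, hG.2 b⟩
      · rw [g3 v h2 h1]; exact ⟨h2, h1⟩
  refine ⟨fun v => ⟨g v.1, (hφ _).2 (gW _ ((hφ _).1 v.2))⟩, ⟨?_, ?_⟩, ?_, ?_⟩
  · intro v
    apply Subtype.ext
    show g (g v.1) = v.1
    have hv := (hφ _).1 v.2
    by_cases h1 : G v.1 = b
    · rw [g1 _ h1, g2 _ (hG.1 a)]
      exact (congrArg G h1).symm.trans (hG.1 v.1)
    · by_cases h2 : G v.1 = a
      · rw [g2 _ h2, g1 _ (hG.1 b)]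
        exact (congrArg G h2).symm.trans (hG.1 v.1)
      · rw [g3 _ h2 h1, g3 _ (by rw [hG.1]; exact hv.1) (by rw [hG.1]; exact hv.2), hG.1]
  · intro v h
    have h : g v.1 = v.1 := congrArg Subtype.val h
    have hv := (hφ _).1 v.2
    by_cases h1 : G v.1 = b
    · rw [g1 _ h1] at h
      apply hab
      have h4 := congrArg G h
      rw [hG.1, h1] at h4
      exact h4
    · by_cases h2 : G v.1 = a
      · rw [g2 _ h2] at h
        apply hab
        have h4 := congrArg G h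
        rw [hG.1, h2] at h4
        exact h4.symm
      · rw [g3 _ h2 h1] at h
        exact hG.2 _ h
  · intro v
    show g v.1 ∈ A ↔ v.1 ∉ A
    by_cases h1 : G v.1 = b
    · rw [g1 _ h1]
      have h3 := hx v.1
      rw [h1] at h3
      have h4 := hx a
      have h5 : v.1 ∈ A := by
        by_contra h; exact hb (h3.2 h)
      exact ⟨fun h => absurd ha (h4.1 h), fun h => absurd h5 h⟩
    · by_cases h2 : G v.1 = a
      · rw [g2 _ h2]
        have h3 := hx v.1
        rw [h2] at h3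
        have h4 := hx b
        exact ⟨fun _ => h3.1 ha, fun _ => h4.2 hb⟩
      · rw [g3 _ h2 h1]
        exact hx v.1
  · intro v h1 h2
    exact g3 _ h1 h2

theorem cross2_succ {m : ℕ} (hm : 3 ≤ m) (ih : Cross2 m) : Cross2 (m + 1) := by
  intro V _ _ A hA hB G1 G2 L hG1 hG2 hL hx1 hx2
  obtain ⟨a, ha⟩ : A.Nonempty := by rw [← Finset.card_pos]; omega
  obtain ⟨b, hb, hb'⟩ : ∃ b ∈ Aᶜ, b ∉ ({G1 a, G2 a, L a} : Finset V) :=
    Finset.exists_mem_notMem_of_card_lt_card (lt_of_le_of_lt Finset.card_le_three (by omega))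
  rw [Finset.mem_compl] at hb
  simp only [Finset.mem_insert, Finset.mem_singleton, not_or] at hb'
  obtain ⟨b1, b2, b3⟩ := hb'
  have hab : a ≠ b := fun h => hb (h ▸ ha)
  obtain ⟨L', hL', hc⟩ := contract hL hab (Ne.symm b3)
  obtain ⟨G1', p1, p2, p3⟩ := shrink hG1 hx1 ha hb (Ne.symm b1)
  obtain ⟨G2', q1, q2, q3⟩ := shrink hG2 hx2 ha hb (Ne.symm b2)
  have hφ : ∀ v : V, decide (v ≠ a ∧ v ≠ b) = true ↔ v ≠ a ∧ v ≠ b :=
    fun v => decide_eq_true_iff
  let A' : Finset {v // decide (v ≠ a ∧ v ≠ b) = true} := Finset.univ.filter (fun v => v.1 ∈ A)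
  have hA' : ∀ v, v ∈ A' ↔ v.1 ∈ A := by
    intro v; simp only [A', Finset.mem_filter, Finset.mem_univ, true_and]
  have k1 : A'.card = m := by
    have e : A'.map ⟨Subtype.val, Subtype.val_injective⟩ = A.erase a := by
      ext v
      rw [Finset.mem_map, Finset.mem_erase]
      constructor
      · rintro ⟨x, hx, rfl⟩
        have h1 := (hφ _).1 x.2
        exact ⟨h1.1, (hA' x).1 hx⟩
      · rintro ⟨h1, h2⟩
        exact ⟨⟨v, (hφ v).2 ⟨h1, fun h => hb (h ▸ h2)⟩⟩, (hA' _).2 h2, rfl⟩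
    have e2 := congrArg Finset.card e
    rw [Finset.card_map, Finset.card_erase_of_mem ha, hA] at e2
    exact e2
  have k2 : A'ᶜ.card = m := by
    have e : A'ᶜ.map ⟨Subtype.val, Subtype.val_injective⟩ = Aᶜ.erase b := by
      ext v
      rw [Finset.mem_map, Finset.mem_erase, Finset.mem_compl]
      constructor
      · rintro ⟨x, hx, rfl⟩
        rw [Finset.mem_compl, hA'] at hx
        exact ⟨((hφ _).1 x.2).2, hx⟩
      · rintro ⟨h1, h2⟩
        refine ⟨⟨v, (hφ v).2 ⟨?_, h1⟩⟩, ?_, rfl⟩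
        · rintro rfl; exact h2 ha
        · rw [Finset.mem_compl, hA']; exact h2
    have e2 := congrArg Finset.card e
    rw [Finset.card_map, Finset.card_erase_of_mem (Finset.mem_compl.2 hb), hB] at e2
    exact e2
  obtain ⟨M', m1, m2, m3, m4, m5⟩ := ih _ A' k1 k2 G1' G2' L' p1 q1 hL'
    (fun v => by rw [hA', hA']; exact p2 v) (fun v => by rw [hA', hA']; exact q2 v)
  obtain ⟨M, n1, n2, n3, n4⟩ := hc M' m1 m5
  have nb : M b = a := by rw [← n2, n1.1]
  have avoid : ∀ (G : V → V) (G' : {v // decide (v ≠ a ∧ v ≠ b) = true} →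
      {v // decide (v ≠ a ∧ v ≠ b) = true}), PM G → G a ≠ b →
      (∀ v, G v.1 ≠ a → G v.1 ≠ b → (G' v).1 = G v.1) → (∀ v, M' v ≠ G' v) →
      ∀ v, M v ≠ G v := by
    intro G G' hG hGab h1 h2 v h
    by_cases hva : v = a
    · rw [hva, n2] at h; exact hGab h.symm
    · by_cases hvb : v = b
      · rw [hvb, nb] at h
        apply hGab
        rw [h, hG.1]
      · have h3 := n3 ⟨v, (hφ v).2 ⟨hva, hvb⟩⟩
        have h4 := (hφ _).1 (M' ⟨v, (hφ v).2 ⟨hva, hvb⟩⟩).2
        rw [← h3] at h4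
        simp only at h4
        rw [h] at h4
        have h5 := h1 ⟨v, (hφ v).2 ⟨hva, hvb⟩⟩ h4.1 h4.2
        apply h2 ⟨v, (hφ v).2 ⟨hva, hvb⟩⟩
        apply Subtype.ext
        rw [← h3, h5]
        exact h
  refine ⟨M, n1, ?_, avoid G1 G1' hG1 (Ne.symm b1) p3 m3, avoid G2 G2' hG2 (Ne.symm b2) q3 m4,
    n4⟩
  intro v
  by_cases hva : v = a
  · rw [hva, n2]
    exact ⟨fun h => absurd h hb, fun h => absurd ha h⟩
  · by_cases hvb : v = b
    · rw [hvb, nb]
      exact ⟨fun _ => hb, fun _ => ha⟩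
    · have h1 := n3 ⟨v, (hφ v).2 ⟨hva, hvb⟩⟩
      have h2 := m2 ⟨v, (hφ v).2 ⟨hva, hvb⟩⟩
      rw [hA', hA', ← h1] at h2
      exact h2

theorem cross2_seven : Cross2 7 := cross2_succ (by norm_num) cross2_six

theorem cross2_eight : Cross2 8 := cross2_succ (by norm_num) cross2_seven

/-- a matching between the sides with prescribed pairs -/
theorem exists_crs {V : Type} [Fintype V] [DecidableEq V] {k : ℕ} (A : Finset V)
    (hA : A.card = Aᶜ.card) (x y : Fin k → V) (hx : Injective x) (hy : Injective y)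
    (hxA : ∀ i, x i ∈ A) (hyA : ∀ i, y i ∉ A) :
    ∃ G : V → V, PM G ∧ Crs A G ∧ ∀ i, G (x i) = y i := by
  classical
  let f : A → V := fun v => if h : ∃ i, x i = v.1 then y h.choose else v.1
  have hf : ∀ i, f ⟨x i, hxA i⟩ = y i := by
    intro i
    have h : ∃ j, x j = x i := ⟨i, rfl⟩
    show (if h : ∃ j, x j = x i then y h.choose else x i) = y i
    rw [dif_pos h, hx h.choose_spec]
  let s : Finset A := Finset.univ.image (fun i => ⟨x i, hxA i⟩)
  obtain ⟨g, hg⟩ := Finset.exists_equiv_extend_of_card_eq (α := A) (t := Aᶜ)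
    (by rw [Fintype.card_coe]; exact hA) (s := s) (f := f) (by
      intro w hw
      obtain ⟨v, hv, rfl⟩ := Finset.mem_image.1 hw
      obtain ⟨i, -, rfl⟩ := Finset.mem_image.1 hv
      rw [hf, Finset.mem_compl]
      exact hyA i) (by
      intro v hv w hw h
      obtain ⟨i, -, rfl⟩ := Finset.mem_image.1 (Finset.mem_coe.1 hv)
      obtain ⟨j, -, rfl⟩ := Finset.mem_image.1 (Finset.mem_coe.1 hw)
      rw [hf, hf] at h
      rw [hy h])
  let G : V → V := fun v => if h : v ∈ A then (g ⟨v, h⟩ : V)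
    else (g.symm ⟨v, Finset.mem_compl.2 h⟩ : V)
  have G1 : ∀ v (h : v ∈ A), G v = (g ⟨v, h⟩ : V) := fun v h => by
    simp only [G]; rw [dif_pos h]
  have G2 : ∀ v (h : v ∉ A), G v = (g.symm ⟨v, Finset.mem_compl.2 h⟩ : V) := fun v h => by
    simp only [G]; rw [dif_neg h]
  have G3 : ∀ v, v ∈ A → G v ∉ A := fun v h => by
    rw [G1 v h]; exact Finset.mem_compl.1 (g ⟨v, h⟩).2
  have G4 : ∀ v, v ∉ A → G v ∈ A := fun v h => by
    rw [G2 v h]; exact (g.symm ⟨v, Finset.mem_compl.2 h⟩).2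
  refine ⟨G, ⟨?_, ?_⟩, ?_, ?_⟩
  · intro v
    by_cases h : v ∈ A
    · rw [G2 _ (G3 v h)]
      have e : (⟨G v, Finset.mem_compl.2 (G3 v h)⟩ : (Aᶜ : Finset V)) = g ⟨v, h⟩ :=
        Subtype.ext (G1 v h)
      rw [e, Equiv.symm_apply_apply]
    · rw [G1 _ (G4 v h)]
      have e : (⟨G v, G4 v h⟩ : A) = g.symm ⟨v, Finset.mem_compl.2 h⟩ :=
        Subtype.ext (G2 v h)
      rw [e, Equiv.apply_symm_apply]
  · intro v h
    by_cases hv : v ∈ A
    · exact G3 v hv (by rw [h]; exact hv)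
    · exact hv (by rw [← h]; exact G4 v hv)
  · intro v
    by_cases hv : v ∈ A
    · exact ⟨fun h => absurd h (G3 v hv), fun h => absurd hv h⟩
    · exact ⟨fun _ => hv, fun _ => G4 v hv⟩
  · intro i
    rw [G1 _ (hxA i)]
    have h1 := hg ⟨x i, hxA i⟩ (Finset.mem_image.2 ⟨i, Finset.mem_univ _, rfl⟩)
    rw [h1, hf]

end Pool.Agent.Lib.MP_fe131b_co.F5
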