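import Pool.Agent.Lib.MP_fe131b_co.F4.Split

/-!
Gluing: the two sides of a set are completed with one additional point each; the two additional
points are paired by every label and are suppressed afterwards.
-/

set_option autoImplicit false

namespace Pool.Agent.Lib.MP_fe131b_co.F5

open Pool.Agent.Lib.MP_fe131b_co.F4 Finset Function

theorem glue {V : Type} [Fintype V] [DecidableEq V] {k : ℕ} (A : Finset V)
    (L : Fin k → V → V) (hL : ∀ i, PM (L i)) (h1 : SV (A.card + 1) k)
    (h2 : SV (Aᶜ.card + 1) k) (e1 : Even (A.card + 1)) (e2 : Even (Aᶜ.card + 1)) :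
    ∃ (M : Fin k → V → V) (x y : Fin k → V), (∀ i, PM (M i)) ∧ Disj M ∧
      (∀ i, Connected (L i) (M i)) ∧ Injective x ∧ Injective y ∧ (∀ i, x i ∈ A) ∧
      (∀ i, y i ∉ A) ∧ (∀ i, M i (x i) = y i) ∧
      ∀ i v, v ≠ x i → v ≠ y i → (M i v ∈ A ↔ v ∈ A) := by
  classical
  let α : Fin k → V ⊕ Bool → V ⊕ Bool := fun i => Sum.elim (fun v => Sum.inl (L i v))
    (fun c => Sum.inr (!c))
  have hα : ∀ i, PM (α i) := by
    intro i
    constructor
    · rintro (v | c)
      · show Sum.inl (L i (L i v)) = _
        rw [(hL i).1]
      · show Sum.inr (!(!c)) = _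
        rw [Bool.not_not]
    · rintro (v | c) h
      · exact (hL i).2 v (Sum.inl.inj h)
      · have : (!c) = c := Sum.inr.inj h
        cases c <;> simp at this
  let A' : Finset (V ⊕ Bool) := insert (Sum.inr true) (A.map ⟨Sum.inl, Sum.inl_injective⟩)
  have hA1 : ∀ v, Sum.inl v ∈ A' ↔ v ∈ A := by
    intro v
    simp [A']
  have hA2 : Sum.inr true ∈ A' := by simp [A']
  have hA3 : Sum.inr false ∉ A' := by simp [A']
  have c1 : A'.card = A.card + 1 := by
    rw [Finset.card_insert_of_notMem (by simp), Finset.card_map]
  have c2 : A'ᶜ.card = Aᶜ.card + 1 := by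
    rw [Finset.card_compl, c1, Finset.card_compl, Fintype.card_sum, Fintype.card_bool]
    have := Finset.card_le_univ A
    omega
  obtain ⟨τ, t1, t2, t3, t4⟩ := split A' α hα (by rw [c1]; exact h1) (by rw [c2]; exact h2)
    (by rw [c1]; exact e1) (by rw [c2]; exact e2) (fun i => ⟨Sum.inr true, hA2, hA3⟩)
  have hx : ∀ i, ∃ x, x ∈ A ∧ τ i (Sum.inr true) = Sum.inl x := by
    intro i
    have h3 := (t4 i (Sum.inr true)).2 hA2
    rcases h : τ i (Sum.inr true) with x | c
    · rw [h] at h3
      exact ⟨x, (hA1 x).1 h3, rfl⟩
    · cases c with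
      | true => exact absurd h ((t1 i).2 _)
      | false => rw [h] at h3; exact absurd h3 hA3
  have hy : ∀ i, ∃ y, y ∉ A ∧ τ i (Sum.inr false) = Sum.inl y := by
    intro i
    have h3 : τ i (Sum.inr false) ∉ A' := fun h => hA3 ((t4 i (Sum.inr false)).1 h)
    rcases h : τ i (Sum.inr false) with y | c
    · rw [h] at h3
      exact ⟨y, fun h' => h3 ((hA1 y).2 h'), rfl⟩
    · cases c with
      | false => exact absurd h ((t1 i).2 _)
      | true => rw [h] at h3; exact absurd hA2 h3
  choose x hxA hx using hx
  choose y hyA hy using hy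
  have hx' : ∀ i, τ i (Sum.inl (x i)) = Sum.inr true := fun i => by rw [← hx, (t1 i).1]
  have hy' : ∀ i, τ i (Sum.inl (y i)) = Sum.inr false := fun i => by rw [← hy, (t1 i).1]
  have hxv : ∀ i v, τ i (Sum.inl v) = Sum.inr true → v = x i := by
    intro i v h
    have h3 := (t1 i).1 (Sum.inl v)
    rw [h, hx] at h3
    exact (Sum.inl.inj h3).symm
  have hyv : ∀ i v, τ i (Sum.inl v) = Sum.inr false → v = y i := by
    intro i v h
    have h3 := (t1 i).1 (Sum.inl v)
    rw [h, hy] at h3
    exact (Sum.inl.inj h3).symm
  have hxy : ∀ i j, x i ≠ y j := fun i j h => hyA j (h ▸ hxA i)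
  let M : Fin k → V → V := fun i v => Sum.elim id (fun c => if c = true then y i else x i)
    (τ i (Sum.inl v))
  have m1 : ∀ i v w, τ i (Sum.inl v) = Sum.inl w → M i v = w := by
    intro i v w h
    simp only [M, h, Sum.elim_inl, id]
  have m2 : ∀ i, M i (x i) = y i := by
    intro i
    simp only [M, hx' i, Sum.elim_inr, if_pos]
  have m3 : ∀ i, M i (y i) = x i := by
    intro i
    simp only [M, hy' i, Sum.elim_inr, Bool.false_eq_true, if_false]
  have cases3 : ∀ i v, v = x i ∨ v = y i ∨ ∃ w, τ i (Sum.inl v) = Sum.inl w := by
    intro i v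
    rcases h : τ i (Sum.inl v) with w | c
    · exact Or.inr (Or.inr ⟨w, rfl⟩)
    · cases c with
      | true => exact Or.inl (hxv i v h)
      | false => exact Or.inr (Or.inl (hyv i v h))
  have side : ∀ i v w, τ i (Sum.inl v) = Sum.inl w → (w ∈ A ↔ v ∈ A) := by
    intro i v w h
    have h3 := t4 i (Sum.inl v)
    rw [h, hA1, hA1] at h3
    exact h3
  have hpm : ∀ i, PM (M i) := by
    intro i
    constructor
    · intro v
      rcases cases3 i v with rfl | rfl | ⟨w, hw⟩
      · rw [m2, m3]
      · rw [m3, m2]
      · rw [m1 i v w hw]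
        refine m1 i w v ?_
        rw [← hw, (t1 i).1]
    · intro v h
      rcases cases3 i v with rfl | rfl | ⟨w, hw⟩
      · rw [m2] at h; exact hxy i i h.symm
      · rw [m3] at h; exact hxy i i h
      · rw [m1 i v w hw] at h
        rw [h] at hw
        exact (t1 i).2 _ hw
  refine ⟨M, x, y, hpm, ?_, ?_, ?_, ?_, hxA, hyA, m2, ?_⟩
  · intro i j hij v h
    rcases cases3 i v with hv | hv | ⟨w, hw⟩
    · rcases cases3 j v with hv' | hv' | ⟨w', hw'⟩
      · apply t2 i j hij (Sum.inr true)
        rw [hx, hx, ← hv, ← hv']
      · exact hxy i j (hv ▸ hv')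
      · rw [m1 j v w' hw', hv, m2] at h
        have h3 := side j v w' hw'
        apply hyA i
        rw [h, h3, hv]
        exact hxA i
    · rcases cases3 j v with hv' | hv' | ⟨w', hw'⟩
      · exact hxy j i (hv' ▸ hv)
      · apply t2 i j hij (Sum.inr false)
        rw [hy, hy, ← hv, ← hv']
      · rw [m1 j v w' hw', hv, m3] at h
        have h3 := side j v w' hw'
        apply hyA i
        rw [← hv, ← h3, ← h]
        exact hxA i
    · rcases cases3 j v with hv' | hv' | ⟨w', hw'⟩
      · rw [m1 i v w hw, hv', m2] at h
        have h3 := side i v w hw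
        apply hyA j
        rw [← h, h3, hv']
        exact hxA j
      · rw [m1 i v w hw, hv', m3] at h
        have h3 := side i v w hw
        apply hyA j
        rw [← hv', ← h3, h]
        exact hxA j
      · apply t2 i j hij (Sum.inl v)
        rw [hw, hw', ← m1 i v w hw, ← m1 j v w' hw', h]
  · intro i
    have key : ∀ h h', (rel (α i) (τ i)).r h h' →
        (rel (L i) (M i)).r (Sum.elim id (fun c => if c = true then x i else y i) h)
          (Sum.elim id (fun c => if c = true then x i else y i) h') := by
      intro h h' hh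
      refine rel_le_of (Setoid.comap (Sum.elim id (fun c => if c = true then x i else y i))
        (rel (L i) (M i))) ?_ ?_ hh
      · rintro (v | c)
        · exact rel_L _ _ v
        · cases c with
          | true =>
            show (rel (L i) (M i)).r (x i) (y i)
            rw [← m2 i]
            exact rel_M _ _ _
          | false =>
            show (rel (L i) (M i)).r (y i) (x i)
            rw [← m3 i]
            exact rel_M _ _ _
      · rintro (v | c)
        · rcases cases3 i v with hv | hv | ⟨w, hw⟩
          · show (rel (L i) (M i)).r v (Sum.elim id (fun c => if c = true then x i else y i)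
              (τ i (Sum.inl v)))
            rw [hv, hx' i]
            exact rel_refl _ _ _
          · show (rel (L i) (M i)).r v (Sum.elim id (fun c => if c = true then x i else y i)
              (τ i (Sum.inl v)))
            rw [hv, hy' i]
            exact rel_refl _ _ _
          · show (rel (L i) (M i)).r v (Sum.elim id (fun c => if c = true then x i else y i)
              (τ i (Sum.inl v)))
            rw [hw]
            show (rel (L i) (M i)).r v w
            rw [← m1 i v w hw]
            exact rel_M _ _ _
        · cases c with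
          | true =>
            show (rel (L i) (M i)).r (x i) (Sum.elim id (fun c => if c = true then x i else y i)
              (τ i (Sum.inr true)))
            rw [hx i]
            exact rel_refl _ _ _
          | false =>
            show (rel (L i) (M i)).r (y i) (Sum.elim id (fun c => if c = true then x i else y i)
              (τ i (Sum.inr false)))
            rw [hy i]
            exact rel_refl _ _ _
    intro v w
    exact key _ _ (t3 i (Sum.inl v) (Sum.inl w))
  · intro i j h
    by_contra hij
    apply t2 i j hij (Sum.inr true)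
    rw [hx, hx, h]
  · intro i j h
    by_contra hij
    apply t2 i j hij (Sum.inr false)
    rw [hy, hy, h]
  · intro i v hvx hvy
    rcases cases3 i v with hv | hv | ⟨w, hw⟩
    · exact absurd hv hvx
    · exact absurd hv hvy
    · rw [m1 i v w hw]
      exact side i v w hw

end Pool.Agent.Lib.MP_fe131b_co.F5
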