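import Pool.Agent.Lib.MP_fe131b_co.F5.D12

/-!
Twelve points: covers of the labels.
-/

set_option autoImplicit false

namespace Pool.Agent.Lib.MP_fe131b_co.F5

open Pool.Agent.Lib.MP_fe131b_co.F4 Finset Function

theorem cov5 : covH 12 10395 E12 (cand5.map fun e => e.1.m) = true := by decide +kernel

theorem cov6 : covH 12 10395 E12 (cand6.map fun e => e.1.m) = true := by decide +kernel

theorem ok5 : (cand5.all fun e => okCandR 12 R12_0 e.2 e.1) = true := by decide +kernel

theorem ok6 : (cand6.all fun e => okCandR 12 R12_1 e.2 e.1) = true := by decide +kernel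

end Pool.Agent.Lib.MP_fe131b_co.F5
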