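import Pool.Agent.Lib.MP_fe131b_co.F5.D12

/-!
Twelve points: kernel checks.
-/

set_option autoImplicit false

namespace Pool.Agent.Lib.MP_fe131b_co.F5

open Pool.Agent.Lib.MP_fe131b_co.F4 Finset Function

theorem o12b_0 : chkO 10395 T12b S12b 0 945 = true := by
  decide +kernel

theorem o12b_1 : chkO 10395 T12b S12b 945 945 = true := by
  decide +kernel

theorem o12b_2 : chkO 10395 T12b S12b 1890 945 = true := by
  decide +kernel

theorem o12b_3 : chkO 10395 T12b S12b 2835 945 = true := by
  decide +kernel

theorem o12b_4 : chkO 10395 T12b S12b 3780 945 = true := by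
  decide +kernel

theorem o12b_5 : chkO 10395 T12b S12b 4725 945 = true := by
  decide +kernel

end Pool.Agent.Lib.MP_fe131b_co.F5
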