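import Pool.Agent.Lib.MP_fe131b_co.F5.D12

/-!
Twelve points: kernel checks.
-/

set_option autoImplicit false

namespace Pool.Agent.Lib.MP_fe131b_co.F5

open Pool.Agent.Lib.MP_fe131b_co.F4 Finset Function

theorem o12b_6 : chkO 10395 T12b S12b 5670 945 = true := by
  decide +kernel

theorem o12b_7 : chkO 10395 T12b S12b 6615 945 = true := by
  decide +kernel

theorem o12b_8 : chkO 10395 T12b S12b 7560 945 = true := by
  decide +kernel

theorem o12b_9 : chkO 10395 T12b S12b 8505 945 = true := by
  decide +kernel

theorem o12b_10 : chkO 10395 T12b S12b 9450 945 = true := by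
  decide +kernel

end Pool.Agent.Lib.MP_fe131b_co.F5
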