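import Pool.Agent.Lib.MP_fe131b_co.F5.D12

/-!
Twelve points: kernel checks.
-/

set_option autoImplicit false

namespace Pool.Agent.Lib.MP_fe131b_co.F5

open Pool.Agent.Lib.MP_fe131b_co.F4 Finset Function

theorem r12b_0 : (allN 14 fun k => rowH 12 10395 E12 PC12b 48 T12b (Nat.add 0 k)) = true := by
  decide +kernel

theorem r12b_14 : (allN 14 fun k => rowH 12 10395 E12 PC12b 48 T12b (Nat.add 14 k)) = true := by
  decide +kernel

theorem r12b_28 : (allN 14 fun k => rowH 12 10395 E12 PC12b 48 T12b (Nat.add 28 k)) = true := by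
  decide +kernel

theorem r12b_42 : (allN 11 fun k => rowH 12 10395 E12 PC12b 48 T12b (Nat.add 42 k)) = true := by
  decide +kernel

theorem r12b : ∀ i < 53, rowH 12 10395 E12 PC12b 48 T12b i = true := by
  intro i hi
  by_cases c0 : i < 14
  · have h := (allN_iff _ _).1 r12b_0 (i - 0) (by omega)
    have e : Nat.add 0 (i - 0) = i := Nat.add_sub_cancel' (by omega)
    rw [e] at h
    exact h
  by_cases c14 : i < 28
  · have h := (allN_iff _ _).1 r12b_14 (i - 14) (by omega)
    have e : Nat.add 14 (i - 14) = i := Nat.add_sub_cancel' (by omega)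
    rw [e] at h
    exact h
  by_cases c28 : i < 42
  · have h := (allN_iff _ _).1 r12b_28 (i - 28) (by omega)
    have e : Nat.add 28 (i - 28) = i := Nat.add_sub_cancel' (by omega)
    rw [e] at h
    exact h
  by_cases c42 : i < 53
  · have h := (allN_iff _ _).1 r12b_42 (i - 42) (by omega)
    have e : Nat.add 42 (i - 42) = i := Nat.add_sub_cancel' (by omega)
    rw [e] at h
    exact h
  omega

end Pool.Agent.Lib.MP_fe131b_co.F5
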