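import Pool.Agent.Lib.MP_fe131b_co.F5.L12
import Pool.Agent.Lib.MP_fe131b_co.F5.C12
import Pool.Agent.Lib.MP_fe131b_co.F5.R12a
import Pool.Agent.Lib.MP_fe131b_co.F5.R12b
import Pool.Agent.Lib.MP_fe131b_co.F5.O12a0
import Pool.Agent.Lib.MP_fe131b_co.F5.O12a1
import Pool.Agent.Lib.MP_fe131b_co.F5.O12b0
import Pool.Agent.Lib.MP_fe131b_co.F5.O12b1

/-!
Twelve points: four labels are completed between the halves.
-/

set_option autoImplicit false

namespace Pool.Agent.Lib.MP_fe131b_co.F5

open Pool.Agent.Lib.MP_fe131b_co.F4 Finset Function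

theorem cv12a : ∀ x < 10395, ∀ y < 10395, ∃ s ∈ S12a, ∃ j ∈ s.2,
    (row T12a 10395 s.1).testBit x = true ∧ (row T12a 10395 j).testBit y = true := by
  intro x hx y hy
  by_cases c0 : x < 945
  · exact chkO_sound o12a_0 (by omega) (by omega) hy
  by_cases c1 : x < 1890
  · exact chkO_sound o12a_1 (by omega) (by omega) hy
  by_cases c2 : x < 2835
  · exact chkO_sound o12a_2 (by omega) (by omega) hy
  by_cases c3 : x < 3780
  · exact chkO_sound o12a_3 (by omega) (by omega) hy
  by_cases c4 : x < 4725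
  · exact chkO_sound o12a_4 (by omega) (by omega) hy
  by_cases c5 : x < 5670
  · exact chkO_sound o12a_5 (by omega) (by omega) hy
  by_cases c6 : x < 6615
  · exact chkO_sound o12a_6 (by omega) (by omega) hy
  by_cases c7 : x < 7560
  · exact chkO_sound o12a_7 (by omega) (by omega) hy
  by_cases c8 : x < 8505
  · exact chkO_sound o12a_8 (by omega) (by omega) hy
  by_cases c9 : x < 9450
  · exact chkO_sound o12a_9 (by omega) (by omega) hy
  by_cases c10 : x < 10395
  · exact chkO_sound o12a_10 (by omega) (by omega) hy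
  omega

theorem two12a (L : Fin 2 → Fin 12 → Fin 12) (hL : ∀ i, PM (L i)) : SolR 12 R12_2a L :=
  pairR (Lab := fun i L => LabE 12 E12 i L) (fun M hM => lab12 M hM)
    (fun i hi => rowH_sound (by norm_num) (r12a i hi)) (by decide +kernel) cv12a L hL

theorem cv12b : ∀ x < 10395, ∀ y < 10395, ∃ s ∈ S12b, ∃ j ∈ s.2,
    (row T12b 10395 s.1).testBit x = true ∧ (row T12b 10395 j).testBit y = true := by
  intro x hx y hy
  by_cases c0 : x < 945
  · exact chkO_sound o12b_0 (by omega) (by omega) hy
  by_cases c1 : x < 1890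
  · exact chkO_sound o12b_1 (by omega) (by omega) hy
  by_cases c2 : x < 2835
  · exact chkO_sound o12b_2 (by omega) (by omega) hy
  by_cases c3 : x < 3780
  · exact chkO_sound o12b_3 (by omega) (by omega) hy
  by_cases c4 : x < 4725
  · exact chkO_sound o12b_4 (by omega) (by omega) hy
  by_cases c5 : x < 5670
  · exact chkO_sound o12b_5 (by omega) (by omega) hy
  by_cases c6 : x < 6615
  · exact chkO_sound o12b_6 (by omega) (by omega) hy
  by_cases c7 : x < 7560
  · exact chkO_sound o12b_7 (by omega) (by omega) hy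
  by_cases c8 : x < 8505
  · exact chkO_sound o12b_8 (by omega) (by omega) hy
  by_cases c9 : x < 9450
  · exact chkO_sound o12b_9 (by omega) (by omega) hy
  by_cases c10 : x < 10395
  · exact chkO_sound o12b_10 (by omega) (by omega) hy
  omega

theorem two12b (L : Fin 2 → Fin 12 → Fin 12) (hL : ∀ i, PM (L i)) : SolR 12 R12_2b L :=
  pairR (Lab := fun i L => LabE 12 E12 i L) (fun M hM => lab12 M hM)
    (fun i hi => rowH_sound (by norm_num) (r12b i hi)) (by decide +kernel) cv12b L hL

theorem three12 (L : Fin 3 → Fin 12 → Fin 12) (hL : ∀ i, PM (L i)) : SolR 12 R12_1 L := by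
  refine stepR (cands := cand6) ok6 ?_ ?_ L hL
  · intro L hL
    obtain ⟨i, hi, h1⟩ := lab12 L hL
    obtain ⟨m, hm, h2⟩ := covH_sound (by norm_num) cov6 L hi h1
    obtain ⟨e, he, rfl⟩ := List.mem_map.1 hm
    exact ⟨e, he, h2⟩
  · have h : ∀ e ∈ cand6, e.2 = R12_2a ∨ e.2 = R12_2b := by
      intro e he
      simp only [cand6, List.mem_cons, List.not_mem_nil, or_false] at he
      rcases he with rfl | rfl | rfl | rfl | rfl | rfl | rfl | rfl | rfl | rfl | rfl | rfl | rfl | rfl | rfl | rfl | rfl | rfl <;> first | exact Or.inl rfl | exact Or.inr rfl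
    intro e he L hL
    rcases h e he with h1 | h1
    · rw [h1]; exact two12a L hL
    · rw [h1]; exact two12b L hL

/-- four labels are completed by matchings between the halves -/
theorem four12 (L : Fin 4 → Fin 12 → Fin 12) (hL : ∀ i, PM (L i)) : SolR 12 R12_0 L := by
  refine stepR (cands := cand5) ok5 ?_ ?_ L hL
  · intro L hL
    obtain ⟨i, hi, h1⟩ := lab12 L hL
    obtain ⟨m, hm, h2⟩ := covH_sound (by norm_num) cov5 L hi h1
    obtain ⟨e, he, rfl⟩ := List.mem_map.1 hm
    exact ⟨e, he, h2⟩
  · have h : ∀ e ∈ cand5, e.2 = R12_1 := by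
      intro e he
      simp only [cand5, List.mem_cons, List.not_mem_nil, or_false] at he
      rcases he with rfl | rfl | rfl | rfl | rfl | rfl | rfl | rfl | rfl | rfl | rfl | rfl | rfl | rfl | rfl | rfl <;> rfl
    intro e he L hL
    rw [h e he]
    exact three12 L hL

end Pool.Agent.Lib.MP_fe131b_co.F5
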