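import Pool.Agent.Lib.MP_fe131b_co.F5.S10
import Pool.Agent.Lib.MP_fe131b_co.F5.S12
import Pool.Agent.Lib.MP_fe131b_co.F5.Cross2
import Pool.Agent.Lib.MP_fe131b_co.F5.Glue
import Pool.Agent.Lib.MP_fe131b_co.F4.All

/-!
The single-vertex property with eight labels for every even degree at least ten.
-/

set_option autoImplicit false

namespace Pool.Agent.Lib.MP_fe131b_co.F5

open Pool.Agent.Lib.MP_fe131b_co.F4 Finset Function

theorem combine {V : Type} {a b : ℕ} (L : Fin (a + b) → V → V) (M : Fin a → V → V)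
    (N : Fin b → V → V) (hM : ∀ i, PM (M i)) (hN : ∀ i, PM (N i)) (dM : Disj M) (dN : Disj N)
    (dMN : ∀ i j v, M i v ≠ N j v) (cM : ∀ i, Connected (L (Fin.castAdd b i)) (M i))
    (cN : ∀ j, Connected (L (Fin.natAdd a j)) (N j)) : Sol L := by
  refine sol_of_equiv L finSumFinEquiv (Sum.elim M N) ?_ ?_ ?_
  · rintro (i | i)
    · exact hM i
    · exact hN i
  · rintro (i | i) (j | j) hij v
    · exact dM i j (fun h => hij (by rw [h])) v
    · exact dMN i j v
    · exact fun h => dMN j i v h.symm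
    · exact dN i j (fun h => hij (by rw [h])) v
  · rintro (i | i)
    · rw [finSumFinEquiv_apply_left]
      exact cM i
    · rw [finSumFinEquiv_apply_right]
      exact cN i

theorem exists_enum {V : Type} [Fintype V] [DecidableEq V] (A : Finset V) (hA : A.card = 6)
    (hB : Aᶜ.card = 6) : ∃ e : Fin 12 ≃ V, ∀ j, e j ∈ A ↔ (j : ℕ) < 6 := by
  have hV : Fintype.card V = 12 := by
    have := Finset.card_add_card_compl A
    omega
  let a : Fin 6 ≃ A := (Fintype.equivFinOfCardEq (by rw [Fintype.card_coe]; exact hA)).symm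
  let b : Fin 6 ≃ (Aᶜ : Finset V) :=
    (Fintype.equivFinOfCardEq (by rw [Fintype.card_coe]; exact hB)).symm
  let e0 : Fin 12 → V := fun j => if h : (j : ℕ) < 6 then (a ⟨j, h⟩ : V)
    else (b ⟨(j : ℕ) - 6, by have := j.2; omega⟩ : V)
  have e1 : ∀ (j : Fin 12) (h : (j : ℕ) < 6), e0 j = (a ⟨j, h⟩ : V) := by
    intro j h; simp only [e0]; rw [dif_pos h]
  have e2 : ∀ (j : Fin 12) (h : ¬ (j : ℕ) < 6), e0 j =
      (b ⟨(j : ℕ) - 6, by have := j.2; omega⟩ : V) := by
    intro j h; simp only [e0]; rw [dif_neg h]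
  have e3 : ∀ j : Fin 12, e0 j ∈ A ↔ (j : ℕ) < 6 := by
    intro j
    by_cases h : (j : ℕ) < 6
    · rw [e1 j h]
      exact ⟨fun _ => h, fun _ => (a ⟨j, h⟩).2⟩
    · rw [e2 j h]
      exact ⟨fun h' => absurd h' (Finset.mem_compl.1 (b _).2), fun h' => absurd h' h⟩
  have hinj0 : Injective e0 := by
    intro i j hij
    have h3 := e3 i
    rw [hij, e3 j] at h3
    by_cases h : (i : ℕ) < 6
    · have h' := h3.2 h
      rw [e1 i h, e1 j h'] at hij
      have h4 := a.injective (Subtype.ext hij)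
      have h5 : (i : ℕ) = j := congrArg (fun t : Fin 6 => (t : ℕ)) h4
      exact Fin.ext h5
    · have h' : ¬ (j : ℕ) < 6 := fun h'' => h (h3.1 h'')
      rw [e2 i h, e2 j h'] at hij
      have h4 := b.injective (Subtype.ext hij)
      have h5 : (i : ℕ) - 6 = (j : ℕ) - 6 := congrArg (fun t : Fin 6 => (t : ℕ)) h4
      apply Fin.ext
      omega
  have hbij : Bijective e0 :=
    (Fintype.bijective_iff_injective_and_card e0).2 ⟨hinj0, by rw [hV]; simp⟩
  exact ⟨Equiv.ofBijective e0 hbij, e3⟩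

theorem R12_0_spec : ∀ x y : Fin 12, x ≠ y → adj R12_0 x y = false →
    ((y : ℕ) < 6 ↔ ¬ (x : ℕ) < 6) := by
  decide +kernel

/-- four labels are completed by matchings between two sides with six points each -/
theorem cross4 {V : Type} [Fintype V] [DecidableEq V] (A : Finset V) (hA : A.card = 6)
    (hB : Aᶜ.card = 6) (L : Fin 4 → V → V) (hL : ∀ i, PM (L i)) :
    ∃ N : Fin 4 → V → V, (∀ i, PM (N i)) ∧ Disj N ∧ (∀ i, Connected (L i) (N i)) ∧
      ∀ i, Crs A (N i) := by
  obtain ⟨e, he⟩ := exists_enum A hA hB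
  obtain ⟨M, m1, m2, m3, m4⟩ := four12 (fun i w => e.symm (L i (e w)))
    (fun i => PM_conj e.symm (hL i))
  refine ⟨fun i v => e (M i (e.symm v)), fun i => PM_conj e (m1 i), ?_, ?_, ?_⟩
  · intro i j hij v hv
    exact m2 i j hij (e.symm v) (e.injective hv)
  · intro i
    have h4 := connected_conj e (m3 i)
    have e5 : (fun w => e ((fun w => e.symm (L i (e w))) (e.symm w))) = L i := by
      funext w; simp
    rw [e5] at h4
    exact h4
  · intro i v
    obtain ⟨j, rfl⟩ := e.surjective v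
    show e (M i (e.symm (e j))) ∈ A ↔ e j ∉ A
    rw [Equiv.symm_apply_apply, he, he]
    exact R12_0_spec j (M i j) (fun h => (m1 i).2 j h.symm) (m4 i j)

theorem SV12 : SV 12 8 := by
  classical
  intro V _ L hV hL
  obtain ⟨A, hA, hx⟩ := exists_set (fun i : Fin 4 => L (Fin.castAdd 4 i))
    (fun i => hL _) 6 (by norm_num) (by omega)
  have hB : Aᶜ.card = 6 := by rw [Finset.card_compl]; omega
  obtain ⟨τ, t1, t2, t3, t4⟩ := split A (fun i : Fin 4 => L (Fin.castAdd 4 i))
    (fun i => hL _) (by rw [hA]; exact SV6) (by rw [hB]; exact SV6) (by rw [hA]; decide)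
    (by rw [hB]; decide) hx
  obtain ⟨N, n1, n2, n3, n4⟩ := cross4 A hA hB (fun i : Fin 4 => L (Fin.natAdd 4 i))
    (fun i => hL _)
  refine combine (a := 4) (b := 4) L τ N t1 n1 t2 n2 ?_ t3 n3
  intro i j v h
  have h1 := t4 i v
  rw [h, n4 j v] at h1
  exact iff_not_self h1.symm

/-- two labels are completed between the sides, avoiding a given matching -/
theorem two_more {V : Type} [Fintype V] [DecidableEq V] {m : ℕ} (hc : Cross2 m) (A : Finset V)
    (hA : A.card = m) (hB : Aᶜ.card = m) (G : V → V) (hG : PM G) (hx : Crs A G)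
    (L : Fin 2 → V → V) (hL : ∀ i, PM (L i)) :
    ∃ N : Fin 2 → V → V, (∀ i, PM (N i)) ∧ Disj N ∧ (∀ i, Connected (L i) (N i)) ∧
      (∀ i, Crs A (N i)) ∧ ∀ i v, N i v ≠ G v := by
  obtain ⟨N0, a1, a2, a3, -, a5⟩ := hc V A hA hB G G (L 0) hG hG (hL 0) hx hx
  obtain ⟨N1, b1, b2, b3, b4, b5⟩ := hc V A hA hB G N0 (L 1) hG a1 (hL 1) hx a2
  refine ⟨![N0, N1], ?_, ?_, ?_, ?_, ?_⟩
  · intro i
    fin_cases i
    · exact a1
    · exact b1
  · intro i j hij v
    fin_cases i <;> fin_cases j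
    · exact absurd rfl hij
    · exact fun h => b4 v h.symm
    · exact b4 v
    · exact absurd rfl hij
  · intro i
    fin_cases i
    · exact a5
    · exact b5
  · intro i
    fin_cases i
    · exact a2
    · exact b2
  · intro i
    fin_cases i
    · exact a3
    · exact b3

theorem SV14 : SV 14 8 := by
  classical
  intro V _ L hV hL
  obtain ⟨A, -, hA⟩ := Finset.exists_subset_card_eq (s := (Finset.univ : Finset V)) (n := 7)
    (by rw [Finset.card_univ]; omega)
  have hB : Aᶜ.card = 7 := by rw [Finset.card_compl]; omega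
  obtain ⟨M, x, y, m1, m2, m3, m4, m5, m6, m7, m8, m9⟩ :=
    glue A (fun i : Fin 6 => L (Fin.castAdd 2 i)) (fun i => hL _) (by rw [hA]; exact SV8)
      (by rw [hB]; exact SV8) (by rw [hA]; decide) (by rw [hB]; decide)
  obtain ⟨G, g1, g2, g3⟩ := exists_crs A (by rw [hA, hB]) x y m4 m5 m6 m7
  obtain ⟨N, n1, n2, n3, n4, n5⟩ := two_more cross2_seven A hA hB G g1 g2
    (fun i : Fin 2 => L (Fin.natAdd 6 i)) (fun i => hL _)
  refine combine (a := 6) (b := 2) L M N m1 n1 m2 n2 ?_ m3 n3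
  intro i j v h
  by_cases h1 : v = x i
  · rw [h1, m8] at h
    apply n5 j (x i)
    rw [← h, g3]
  · by_cases h2 : v = y i
    · have h3 : M i (y i) = x i := by rw [← m8, (m1 i).1]
      have h4 : G (y i) = x i := by rw [← g3, g1.1]
      rw [h2, h3] at h
      apply n5 j (y i)
      rw [← h, h4]
    · have h3 := m9 i v h1 h2
      rw [h, n4 j v] at h3
      exact iff_not_self h3.symm

theorem SV16 : SV 16 8 := by
  classical
  intro V _ L hV hL
  obtain ⟨A, hA, hx⟩ := exists_set (fun i : Fin 6 => L (Fin.castAdd 2 i))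
    (fun i => hL _) 8 (by norm_num) (by omega)
  have hB : Aᶜ.card = 8 := by rw [Finset.card_compl]; omega
  obtain ⟨τ, t1, t2, t3, t4⟩ := split A (fun i : Fin 6 => L (Fin.castAdd 2 i))
    (fun i => hL _) (by rw [hA]; exact SV8) (by rw [hB]; exact SV8) (by rw [hA]; decide)
    (by rw [hB]; decide) hx
  obtain ⟨G, g1, g2, -⟩ := exists_crs (k := 0) A (by rw [hA, hB]) (fun i => i.elim0)
    (fun i => i.elim0) (fun i => i.elim0) (fun i => i.elim0) (fun i => i.elim0)
    (fun i => i.elim0)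
  obtain ⟨N, n1, n2, n3, n4, -⟩ := two_more cross2_eight A hA hB G g1 g2
    (fun i : Fin 2 => L (Fin.natAdd 6 i)) (fun i => hL _)
  refine combine (a := 6) (b := 2) L τ N t1 n1 t2 n2 ?_ t3 n3
  intro i j v h
  have h1 := t4 i v
  rw [h, n4 j v] at h1
  exact iff_not_self h1.symm

theorem SV18 : SV 18 8 := by
  classical
  intro V _ L hV hL
  obtain ⟨A, -, hA⟩ := Finset.exists_subset_card_eq (s := (Finset.univ : Finset V)) (n := 9)
    (by rw [Finset.card_univ]; omega)
  have hB : Aᶜ.card = 9 := by rw [Finset.card_compl]; omega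
  obtain ⟨M, x, y, m1, m2, m3, -⟩ :=
    glue A L hL (by rw [hA]; exact SV10) (by rw [hB]; exact SV10) (by rw [hA]; decide)
      (by rw [hB]; decide)
  exact ⟨M, m1, m2, m3⟩

theorem SV_eight (n : ℕ) (hn : Even n) (h10 : 10 ≤ n) : SV n 8 := by
  induction n using Nat.strong_induction_on with
  | _ n ih =>
    obtain ⟨m, rfl⟩ := hn
    by_cases h1 : m < 10
    · have h2 : m = 5 ∨ m = 6 ∨ m = 7 ∨ m = 8 ∨ m = 9 := by omega
      rcases h2 with rfl | rfl | rfl | rfl | rfl
      · exact SV10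
      · exact SV12
      · exact SV14
      · exact SV16
      · exact SV18
    · have e : m + m = 10 + (m - 5 + (m - 5)) := by omega
      have h3 : SV (m - 5 + (m - 5)) 8 := ih _ (by omega) ⟨m - 5, rfl⟩ (by omega)
      rw [e]
      exact SV_add SV10 h3 (by decide) ⟨m - 5, rfl⟩ (by norm_num) (by omega)

end Pool.Agent.Lib.MP_fe131b_co.F5
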