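import Pool.Agent.Lib.MP_fe131b_co.F5.DX

/-!
Twelve points, two forbidden matchings between the halves: kernel checks.
-/

set_option autoImplicit false

namespace Pool.Agent.Lib.MP_fe131b_co.F5

open Pool.Agent.Lib.MP_fe131b_co.F4 Finset Function

theorem covX0 : covH 12 10395 E12 X12_0 = true := by decide +kernel

theorem okX0 : (X12_0.all fun m => and (okPM 12 m) (free 12 R12_2a m)) = true := by decide +kernel

theorem covX1 : covH 12 10395 E12 X12_1 = true := by decide +kernel

theorem okX1 : (X12_1.all fun m => and (okPM 12 m) (free 12 R12_2b m)) = true := by decide +kernel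

theorem covX2 : covH 12 10395 E12 X12_2 = true := by decide +kernel

theorem okX2 : (X12_2.all fun m => and (okPM 12 m) (free 12 R12_3a m)) = true := by decide +kernel

end Pool.Agent.Lib.MP_fe131b_co.F5
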