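import Pool.Agent.Lib.MP_fe131b_co.F5.DX

/-!
Twelve points, two forbidden matchings between the halves: kernel checks.
-/

set_option autoImplicit false

namespace Pool.Agent.Lib.MP_fe131b_co.F5

open Pool.Agent.Lib.MP_fe131b_co.F4 Finset Function

theorem covX3 : covH 12 10395 E12 X12_3 = true := by decide +kernel

theorem okX3 : (X12_3.all fun m => and (okPM 12 m) (free 12 R12_3b m)) = true := by decide +kernel

theorem covX4 : covH 12 10395 E12 X12_4 = true := by decide +kernel

theorem okX4 : (X12_4.all fun m => and (okPM 12 m) (free 12 R12_3c m)) = true := by decide +kernel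

theorem covX5 : covH 12 10395 E12 X12_5 = true := by decide +kernel

theorem okX5 : (X12_5.all fun m => and (okPM 12 m) (free 12 R12_3d m)) = true := by decide +kernel

end Pool.Agent.Lib.MP_fe131b_co.F5
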