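import Pool.Agent.Lib.MP_fe131b_co.F5.StepG

/-!
Cheaper kernel checks: the matchings of an entry are disjoint, and a list is contained in a
packed table.
-/

set_option autoImplicit false

namespace Pool.Agent.Lib.MP_fe131b_co.F5

open Pool.Agent.Lib.MP_fe131b_co.F4

/-- all entries of a list -/
def allR {α : Type} (p : α → Bool) (l : List α) : Bool :=
  List.rec (motive := fun _ => Bool) true (fun a _ ih => and (p a) ih) l

theorem allR_iff {α : Type} (p : α → Bool) (l : List α) :
    allR p l = true ↔ ∀ x ∈ l, p x = true := by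
  induction l with
  | nil => simp [allR]
  | cons a l ih =>
    have e : allR p (a :: l) = and (p a) (allR p l) := rfl
    rw [e, Bool.and_eq_true, ih]
    simp

/-- the head and the tail of a list -/
def hd (l : List ℕ) (k : ℕ → List ℕ → Bool) : Bool :=
  List.rec (motive := fun _ => Bool) false (fun a l _ => k a l) l

theorem hd_iff {l : List ℕ} {k : ℕ → List ℕ → Bool} (h : hd l k = true) :
    ∃ a l', l = a :: l' ∧ k a l' = true := by
  cases l with
  | nil => exact absurd h (by simp [hd])
  | cons a l => exact ⟨a, l, rfl, h⟩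

/-- the list is contained in the packed table -/
def subGo (CW CT W IX : ℕ) (cs : List ℕ) : ℕ → Bool :=
  List.rec (motive := fun _ => ℕ → Bool) (fun _ => true)
    (fun c _ ih i => and (force (row IX 10 i) fun j => and (Nat.blt j W) (Nat.beq (row CT CW j) c))
      (force (Nat.succ i) ih)) cs

theorem subGo_sound (CW CT W IX : ℕ) : ∀ (cs : List ℕ) (i : ℕ), subGo CW CT W IX cs i = true →
    ∀ c ∈ cs, ∃ j < W, row CT CW j = c := by
  intro cs
  induction cs with
  | nil => intro i _ c hc; simp at hc
  | cons a cs ih =>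
    intro i h c hc
    have e : subGo CW CT W IX (a :: cs) i =
      and (force (row IX 10 i) fun j => and (Nat.blt j W) (Nat.beq (row CT CW j) a))
        (force (i + 1) (subGo CW CT W IX cs)) := rfl
    rw [e, force_eq, force_eq, Bool.and_eq_true, Bool.and_eq_true] at h
    rcases List.mem_cons.1 hc with rfl | hc
    · exact ⟨_, blt_lt h.1.1, Nat.eq_of_beq_eq_true h.1.2⟩
    · exact ih _ h.2 c hc

/-- the table of the pairs of the matchings -/
def okOH (n s OW OH CW PC : ℕ) : Bool :=
  allN s fun j => force (row OH OW j) fun m => force (row PC CW j) fun c =>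
    allN n fun x => tb m (Nat.add (Nat.mul 16 x) (pt c x))

theorem okOH_sound {n s OW OH CW PC : ℕ} (h : okOH n s OW OH CW PC = true) {i j : ℕ}
    (hi : i < s) (hj : j < s) (hij : Nat.land (row OH OW i) (row OH OW j) = 0) :
    dj n (row PC CW i) (row PC CW j) = true := by
  unfold okOH at h
  rw [allN_iff] at h
  have h1 := h i hi
  have h2 := h j hj
  rw [force_eq, force_eq, allN_iff] at h1 h2
  unfold dj
  rw [allN_iff]
  intro x hx
  cases hb : Nat.beq (pt (row PC CW i) x) (pt (row PC CW j) x) with
  | false => rfl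
  | true =>
    exfalso
    have h3 := Nat.eq_of_beq_eq_true hb
    have h4 := h1 x hx
    have h5 := h2 x hx
    rw [tb_eq] at h4 h5
    rw [← h3] at h5
    have e : row OH OW i &&& row OH OW j = 0 := hij
    have h6 : (row OH OW i &&& row OH OW j).testBit
        (Nat.add (Nat.mul 16 x) (pt (row PC CW i) x)) = true := by
      rw [Nat.testBit_and, h4, h5]; rfl
    rw [e] at h6
    simp at h6

/-- the matchings of an entry are disjoint and the last one is for the representative -/
def chkF (s W OW OH T r : ℕ) (es : List (ℕ × List (List ℕ))) : Bool :=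
  allR (fun e => and (Nat.blt e.1 s) (force (row OH OW e.1) fun A => allR (fun l =>
    hd l fun b l => force (row OH OW b) fun B => and (and (Nat.blt b s) (Nat.beq (Nat.land A B) 0))
      (force (Nat.lor A B) fun U => hd l fun c l => force (row OH OW c) fun C =>
        and (and (Nat.blt c s) (Nat.beq (Nat.land U C) 0)) (force (Nat.lor U C) fun V =>
          hd l fun d l => force (row OH OW d) fun D =>
            and (and (Nat.blt d s) (Nat.beq (Nat.land V D) 0)) (force (Nat.lor V D) fun X =>
              hd l fun g _ => and (and (Nat.blt g s) (Nat.beq (Nat.land X (row OH OW g)) 0))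
                (tb (row T W g) r))))) e.2)) es

theorem land_lor_zero {a b c : ℕ} (h : Nat.land (Nat.lor a b) c = 0) :
    Nat.land a c = 0 ∧ Nat.land b c = 0 := by
  have e : (a ||| b) &&& c = 0 := h
  have key : ∀ i, ((a ||| b) &&& c).testBit i = false := by
    intro i; rw [e]; simp
  constructor
  · show a &&& c = 0
    apply Nat.eq_of_testBit_eq
    intro i
    have := key i
    rw [Nat.testBit_and, Nat.testBit_or] at this
    rw [Nat.testBit_and, Nat.zero_testBit]
    cases ha : a.testBit i <;> cases hc : c.testBit i <;> simp_all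
  · show b &&& c = 0
    apply Nat.eq_of_testBit_eq
    intro i
    have := key i
    rw [Nat.testBit_and, Nat.testBit_or] at this
    rw [Nat.testBit_and, Nat.zero_testBit]
    cases ha : b.testBit i <;> cases hc : c.testBit i <;> simp_all

theorem chk5_of_chkF {n s W OW OH CW PC T r : ℕ} (ho : okOH n s OW OH CW PC = true)
    {es : List (ℕ × List (List ℕ))} (h : chkF s W OW OH T r es = true) :
    chk5 n s W CW PC T r (qsOf es) = true := by
  unfold chk5
  rw [List.all_eq_true]
  intro q hq
  obtain ⟨e, he, hq⟩ := List.mem_flatMap.1 hq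
  obtain ⟨l, hl, rfl⟩ := List.mem_map.1 hq
  unfold chkF at h
  rw [allR_iff] at h
  have h1 := h e he
  rw [Bool.and_eq_true, force_eq, allR_iff] at h1
  obtain ⟨ha, h2⟩ := h1
  obtain ⟨b, l1, rfl, h3⟩ := hd_iff (h2 l hl)
  rw [force_eq, force_eq, Bool.and_eq_true, Bool.and_eq_true] at h3
  obtain ⟨⟨hb, hab⟩, h4⟩ := h3
  obtain ⟨c, l2, rfl, h5⟩ := hd_iff h4
  rw [force_eq, force_eq, Bool.and_eq_true, Bool.and_eq_true] at h5
  obtain ⟨⟨hc, habc⟩, h6⟩ := h5
  obtain ⟨d, l3, rfl, h7⟩ := hd_iff h6
  rw [force_eq, force_eq, Bool.and_eq_true, Bool.and_eq_true] at h7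
  obtain ⟨⟨hd', habcd⟩, h8⟩ := h7
  obtain ⟨g, l4, rfl, h9⟩ := hd_iff h8
  rw [Bool.and_eq_true, Bool.and_eq_true] at h9
  obtain ⟨⟨hg, habcdg⟩, ht⟩ := h9
  have e1 := Nat.eq_of_beq_eq_true hab
  obtain ⟨e2, e3⟩ := land_lor_zero (Nat.eq_of_beq_eq_true habc)
  obtain ⟨e4', e6⟩ := land_lor_zero (Nat.eq_of_beq_eq_true habcd)
  obtain ⟨e4, e5⟩ := land_lor_zero e4'
  obtain ⟨e7', e10⟩ := land_lor_zero (Nat.eq_of_beq_eq_true habcdg)
  obtain ⟨e7'', e9⟩ := land_lor_zero e7'
  obtain ⟨e7, e8⟩ := land_lor_zero e7''
  have ia := blt_lt ha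
  have ib := blt_lt hb
  have ic := blt_lt hc
  have id' := blt_lt hd'
  have ig := blt_lt hg
  rw [Bool.and_eq_true, Bool.and_eq_true]
  refine ⟨?_, ?_, ?_⟩
  · rw [allN_iff]
    intro k hk
    have : k = 0 ∨ k = 1 ∨ k = 2 ∨ k = 3 ∨ k = 4 := by omega
    rcases this with rfl | rfl | rfl | rfl | rfl
    · exact ha
    · exact hb
    · exact hc
    · exact hd'
    · exact hg
  · exact ht
  · rw [allN_iff]
    intro k hk
    rw [force_eq, allN_iff]
    intro j hj
    rw [force_eq]
    have : k = 0 ∨ k = 1 ∨ k = 2 ∨ k = 3 ∨ k = 4 := by omega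
    rcases this with rfl | rfl | rfl | rfl | rfl
    · omega
    · have : j = 0 := by omega
      subst this
      exact dj_symm (okOH_sound ho ia ib e1)
    · have : j = 0 ∨ j = 1 := by omega
      rcases this with rfl | rfl
      · exact dj_symm (okOH_sound ho ia ic e2)
      · exact dj_symm (okOH_sound ho ib ic e3)
    · have : j = 0 ∨ j = 1 ∨ j = 2 := by omega
      rcases this with rfl | rfl | rfl
      · exact dj_symm (okOH_sound ho ia id' e4)
      · exact dj_symm (okOH_sound ho ib id' e5)
      · exact dj_symm (okOH_sound ho ic id' e6)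
    · have : j = 0 ∨ j = 1 ∨ j = 2 ∨ j = 3 := by omega
      rcases this with rfl | rfl | rfl | rfl
      · exact dj_symm (okOH_sound ho ia ig e7)
      · exact dj_symm (okOH_sound ho ib ig e8)
      · exact dj_symm (okOH_sound ho ic ig e9)
      · exact dj_symm (okOH_sound ho id' ig e10)

end Pool.Agent.Lib.MP_fe131b_co.F5
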