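import Pool.Agent.Lib.MP_fe131b_co.F4.Eng5

/-!
The covering check for three further labels, with the masks of pairs as big numbers.
-/

set_option autoImplicit false

namespace Pool.Agent.Lib.MP_fe131b_co.F5

open Pool.Agent.Lib.MP_fe131b_co.F4

/-- the sum of `2 ^ (s * t)` over `t < k` -/
def geo (s k : ℕ) : ℕ :=
  Nat.div (Nat.pred (Nat.pow 2 (Nat.mul s k))) (Nat.pred (Nat.pow 2 s))

theorem geo_eq {s : ℕ} (hs : 0 < s) (k : ℕ) : geo s k = ∑ t ∈ Finset.range k, (2 ^ s) ^ t := by
  have h2 : 2 ≤ 2 ^ s := by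
    calc 2 = 2 ^ 1 := rfl
      _ ≤ 2 ^ s := Nat.pow_le_pow_right (by norm_num) hs
  rw [Nat.geomSum_eq h2, ← pow_mul]
  rfl

theorem geo_succ {s : ℕ} (hs : 0 < s) (k : ℕ) : geo s (k + 1) = 2 ^ s * geo s k + 1 := by
  rw [geo_eq hs, geo_eq hs, Finset.sum_range_succ', Finset.mul_sum, pow_zero]
  congr 1
  refine Finset.sum_congr rfl fun t _ => ?_
  rw [pow_succ, mul_comm]

theorem geo_zero {s : ℕ} (hs : 0 < s) : geo s 0 = 0 := by
  rw [geo_eq hs]; simp

theorem testBit_one_lt {s i : ℕ} (h : (1 : ℕ).testBit i = true) (_hi : i < s) : i = 0 := by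
  cases i with
  | zero => rfl
  | succ i => rw [Nat.testBit_succ] at h; simp at h

theorem geo_testBit {s : ℕ} (hs : 0 < s) : ∀ (k i : ℕ), (geo s k).testBit i = true →
    ∃ t < k, i = s * t := by
  intro k
  induction k with
  | zero => intro i h; rw [geo_zero hs] at h; simp at h
  | succ k ih =>
    intro i h
    have h1 : (1 : ℕ) < 2 ^ s := Nat.one_lt_two_pow (by omega)
    rw [geo_succ hs, Nat.testBit_two_pow_mul_add _ h1] at h
    by_cases hi : i < s
    · rw [if_pos hi] at h
      have := testBit_one_lt h hi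
      exact ⟨0, by omega, by omega⟩
    · rw [if_neg hi] at h
      obtain ⟨t, ht, he⟩ := ih _ h
      refine ⟨t + 1, by omega, ?_⟩
      rw [Nat.mul_succ]
      omega

theorem mul_geo_testBit {w b : ℕ} (hw : 0 < w) (hb : b < 2 ^ w) : ∀ (k t y : ℕ), y < w →
    (b * geo w k).testBit (w * t + y) = true → b.testBit y = true := by
  intro k
  induction k with
  | zero => intro t y _ h; rw [geo_zero hw] at h; simp at h
  | succ k ih =>
    intro t y hy h
    have e : b * geo w (k + 1) = 2 ^ w * (b * geo w k) + b := by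
      rw [geo_succ hw]; ring
    rw [e, Nat.testBit_two_pow_mul_add _ hb] at h
    cases t with
    | zero =>
      rw [if_pos (by omega), Nat.mul_zero, Nat.zero_add] at h
      exact h
    | succ t =>
      rw [if_neg (by rw [Nat.mul_succ]; omega)] at h
      have e2 : w * (t + 1) + y - w = w * t + y := by rw [Nat.mul_succ]; omega
      rw [e2] at h
      exact ih t y hy h

/-- the bits of `b`, spread to distance `w + 1` -/
def sprM (w b : ℕ) : ℕ := Nat.land (Nat.mul b (geo w w)) (geo (Nat.succ w) w)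

theorem sprM_testBit {w b : ℕ} (hw : 0 < w) (hb : b < 2 ^ w) {i : ℕ}
    (h : (sprM w b).testBit i = true) : ∃ t < w, i = (w + 1) * t ∧ b.testBit t = true := by
  have e : sprM w b = (b * geo w w) &&& geo (w + 1) w := rfl
  rw [e, Nat.testBit_and, Bool.and_eq_true] at h
  obtain ⟨t, ht, rfl⟩ := geo_testBit (Nat.succ_pos w) w i h.2
  refine ⟨t, ht, rfl, ?_⟩
  have e2 : (w + 1) * t = w * t + t := by ring
  rw [e2] at h
  exact mul_geo_testBit hw hb w t t ht h.1

/-- a number whose bits are at the multiples of `s`; the product with a smaller number -/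
theorem spread_mul {s g : ℕ} (hs : 0 < s) (hg : g < 2 ^ s) : ∀ (k S : ℕ), S < 2 ^ (s * k) →
    (∀ i, S.testBit i = true → ∃ t, i = s * t) →
    ∀ y z, z < s → (S * g).testBit (s * y + z) = true →
      S.testBit (s * y) = true ∧ g.testBit z = true := by
  intro k
  induction k with
  | zero =>
    intro S hS _ y z _ h
    have : S = 0 := by simpa using hS
    rw [this] at h
    simp at h
  | succ k ih =>
    intro S hS hbits y z hz h
    have hS' : S = 2 ^ s * (S / 2 ^ s) + S % 2 ^ s := (Nat.div_add_mod S (2 ^ s)).symm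
    have hmod : S % 2 ^ s = 0 ∨ S % 2 ^ s = 1 := by
      by_cases h0 : S % 2 ^ s = 0
      · exact Or.inl h0
      · right
        apply Nat.eq_of_testBit_eq
        intro i
        have h1 : ∀ i, (S % 2 ^ s).testBit i = true → i = 0 := by
          intro i hi
          rw [Nat.testBit_mod_two_pow, Bool.and_eq_true] at hi
          obtain ⟨t, rfl⟩ := hbits i hi.2
          have h2 : s * t < s := of_decide_eq_true hi.1
          have h3 : t = 0 := by
            by_contra h4
            have : s * 1 ≤ s * t := Nat.mul_le_mul_left _ (by omega)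
            omega
          rw [h3, Nat.mul_zero]
        obtain ⟨j, hj⟩ := Nat.exists_testBit_of_ne_zero h0
        have hj0 := h1 j hj
        rw [hj0] at hj
        cases i with
        | zero => rw [hj]; rfl
        | succ i =>
          have e1 : (1 : ℕ).testBit (i + 1) = false := by
            rw [Nat.testBit_succ]; simp
          rw [e1]
          cases hb : (S % 2 ^ s).testBit (i + 1) with
          | false => rfl
          | true => exact absurd (h1 _ hb) (by omega)
    have hlt : S % 2 ^ s * g < 2 ^ s := by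
      rcases hmod with h0 | h0 <;> rw [h0]
      · rw [Nat.zero_mul]; positivity
      · rw [Nat.one_mul]; exact hg
    have e : S * g = 2 ^ s * (S / 2 ^ s * g) + S % 2 ^ s * g := by
      conv_lhs => rw [hS']
      ring
    rw [e, Nat.testBit_two_pow_mul_add _ hlt] at h
    cases y with
    | zero =>
      rw [if_pos (by omega), Nat.mul_zero, Nat.zero_add] at h
      rw [Nat.mul_zero]
      rcases hmod with h0 | h0
      · rw [h0, Nat.zero_mul] at h; simp at h
      · rw [h0, Nat.one_mul] at h
        refine ⟨?_, h⟩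
        have h1 : (S % 2 ^ s).testBit 0 = true := by rw [h0]; rfl
        rw [Nat.testBit_mod_two_pow, Bool.and_eq_true] at h1
        exact h1.2
    | succ y =>
      rw [if_neg (by rw [Nat.mul_succ]; omega)] at h
      have e2 : s * (y + 1) + z - s = s * y + z := by rw [Nat.mul_succ]; omega
      rw [e2] at h
      have h3 := ih (S / 2 ^ s) (by
          rw [Nat.div_lt_iff_lt_mul (by positivity)]
          calc S < 2 ^ (s * (k + 1)) := hS
            _ = 2 ^ (s * k) * 2 ^ s := by rw [← pow_add]; ring_nf) (by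
          intro i hi
          rw [Nat.testBit_div_two_pow] at hi
          obtain ⟨t, ht⟩ := hbits _ hi
          cases t with
          | zero => exact ⟨0, by omega⟩
          | succ t =>
            refine ⟨t, ?_⟩
            rw [Nat.mul_succ] at ht
            omega) y z hz h
      refine ⟨?_, h3.2⟩
      have h4 := h3.1
      rw [Nat.testBit_div_two_pow] at h4
      rw [Nat.mul_succ]
      exact h4

theorem sprM_lt (w b : ℕ) : sprM w b < 2 ^ ((w + 1) * (w + 1)) := by
  have e : sprM w b = (b * geo w w) &&& geo (w + 1) w := rfl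
  rw [e]
  refine lt_of_le_of_lt Nat.and_le_right ?_
  rw [geo_eq (Nat.succ_pos w)]
  calc ∑ t ∈ Finset.range w, (2 ^ (w + 1)) ^ t < (2 ^ (w + 1)) ^ w :=
        Nat.geomSum_lt (by
          calc 2 = 2 ^ 1 := rfl
            _ ≤ 2 ^ (w + 1) := Nat.pow_le_pow_right (by norm_num) (by omega)) (fun k hk =>
          Finset.mem_range.1 hk)
    _ = 2 ^ ((w + 1) * w) := by rw [← pow_mul]
    _ ≤ 2 ^ ((w + 1) * (w + 1)) := Nat.pow_le_pow_right (by norm_num)
        (Nat.mul_le_mul_left _ (by omega))

theorem sprM_mul {w b g : ℕ} (hw : 0 < w) (hb : b < 2 ^ w) (hg : g < 2 ^ (w + 1)) {y z : ℕ}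
    (hz : z < w + 1) (h : (sprM w b * g).testBit ((w + 1) * y + z) = true) :
    b.testBit y = true ∧ g.testBit z = true := by
  have h1 := spread_mul (Nat.succ_pos w) hg (w + 1) (sprM w b) (sprM_lt w b) (by
    intro i hi
    obtain ⟨t, -, rfl, -⟩ := sprM_testBit hw hb hi
    exact ⟨t, rfl⟩) y z hz h
  refine ⟨?_, h1.2⟩
  obtain ⟨t, -, h2, h3⟩ := sprM_testBit hw hb h1.1
  have h4 : y = t := Nat.eq_of_mul_eq_mul_left (Nat.succ_pos w) h2
  rw [h4]
  exact h3

/-- add the four entries of a quadruple of masks -/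
def addM {β : Type} (w : ℕ) (A B C D : ℕ) (Q : List (ℕ × ℕ)) (k : List (ℕ × ℕ) → β) : β :=
  force (sprM w A) fun SA => force (sprM w B) fun SB => force (sprM w C) fun SC =>
  force (sprM w D) fun SD =>
  k ((A, pair3 SB SC SD B C D) :: (B, pair3 SA SC SD A C D) ::
    (C, pair3 SA SB SD A B D) :: (D, pair3 SA SB SC A B C) :: Q)

/-- all entries of a list of quadruples of rows; the masks are cut below `u` -/
def allM {β : Type} (W u w T : ℕ) (qs : List (List ℕ)) :
    List (ℕ × ℕ) → (List (ℕ × ℕ) → β) → β :=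
  List.rec (motive := fun _ => List (ℕ × ℕ) → (List (ℕ × ℕ) → β) → β) (fun Q k => k Q)
    (fun q _ ih Q k =>
      force (Nat.shiftRight (row T W (q.getD 0 0)) u) fun A =>
      force (Nat.shiftRight (row T W (q.getD 1 0)) u) fun B =>
      force (Nat.shiftRight (row T W (q.getD 2 0)) u) fun C =>
      force (Nat.shiftRight (row T W (q.getD 3 0)) u) fun D =>
      addM w A B C D Q fun Q' => ih Q' k) qs

/-- the union of the second entries with first entry `A` -/
def orE (A : ℕ) (Q : List (ℕ × ℕ)) : ℕ :=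
  List.rec (motive := fun _ => ℕ) 0
    (fun e _ ih => cond (Nat.beq e.1 A) (Nat.lor e.2 ih) ih) Q

/-- the union of the second entries whose first entry contains `x` -/
def orR (x : ℕ) (Q : List (ℕ × ℕ)) (base : ℕ) : ℕ :=
  List.rec (motive := fun _ => ℕ) base
    (fun e _ ih => cond (tb e.1 x) (Nat.lor e.2 ih) ih) Q

/-- merge the entries with equal first entry -/
def mrg {β : Type} (W u T : ℕ) (Q : List (ℕ × ℕ)) (ps : List ℕ) :
    List (ℕ × ℕ) → (List (ℕ × ℕ) → β) → β :=
  List.rec (motive := fun _ => List (ℕ × ℕ) → (List (ℕ × ℕ) → β) → β) (fun R k => k R)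
    (fun p _ ih R k => force (Nat.shiftRight (row T W p) u) fun A => force (orE A Q) fun P =>
      ih ((A, P) :: R) k) ps

theorem orE_sound (A : ℕ) : ∀ (Q : List (ℕ × ℕ)) (j : ℕ), (orE A Q).testBit j = true →
    ∃ e ∈ Q, e.1 = A ∧ e.2.testBit j = true := by
  intro Q
  induction Q with
  | nil =>
    intro j h
    have e : orE A [] = 0 := rfl
    rw [e] at h
    simp at h
  | cons e Q ih =>
    intro j h
    have e0 : orE A (e :: Q) = cond (Nat.beq e.1 A) (e.2 ||| orE A Q) (orE A Q) := rfl
    rw [e0] at h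
    cases hb : Nat.beq e.1 A with
    | false =>
      rw [hb, cond_false] at h
      obtain ⟨e', h1, h2⟩ := ih j h
      exact ⟨e', List.mem_cons_of_mem _ h1, h2⟩
    | true =>
      rw [hb, cond_true, Nat.testBit_or, Bool.or_eq_true] at h
      rcases h with h | h
      · exact ⟨e, by simp, Nat.eq_of_beq_eq_true hb, h⟩
      · obtain ⟨e', h1, h2⟩ := ih j h
        exact ⟨e', List.mem_cons_of_mem _ h1, h2⟩

theorem orR_sound (x base : ℕ) : ∀ (Q : List (ℕ × ℕ)) (j : ℕ),
    (orR x Q base).testBit j = true →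
    base.testBit j = true ∨ ∃ e ∈ Q, e.1.testBit x = true ∧ e.2.testBit j = true := by
  intro Q
  induction Q with
  | nil => intro j h; exact Or.inl h
  | cons e Q ih =>
    intro j h
    have e0 : orR x (e :: Q) base = cond (tb e.1 x) (e.2 ||| orR x Q base) (orR x Q base) := rfl
    rw [e0] at h
    cases hb : tb e.1 x with
    | false =>
      rw [hb, cond_false] at h
      rcases ih j h with h1 | ⟨e', h1, h2⟩
      · exact Or.inl h1
      · exact Or.inr ⟨e', List.mem_cons_of_mem _ h1, h2⟩
    | true =>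
      rw [hb, cond_true, Nat.testBit_or, Bool.or_eq_true] at h
      rcases h with h | h
      · rw [tb_eq] at hb
        exact Or.inr ⟨e, by simp, hb, h⟩
      · rcases ih j h with h1 | ⟨e', h1, h2⟩
        · exact Or.inl h1
        · exact Or.inr ⟨e', List.mem_cons_of_mem _ h1, h2⟩

/-- every `b < len`, `c`, `d` below `W - u`, different, are completed -/
def covM (W u len T : ℕ) (ps : List ℕ) (qs : List (List ℕ)) : Bool :=
  force (Nat.sub W u) fun w => force (Nat.succ w) fun s =>
  force (Nat.pred (Nat.pow 2 (Nat.mul s w))) fun full =>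
  force (geo s w) fun col =>
  force (Nat.lor (geo (Nat.succ s) w) (Nat.shiftLeft col w)) fun E =>
  force (Nat.pred (Nat.pow 2 s)) fun ones =>
  allM W u w T qs [] fun Q => mrg W u T Q ps [] fun Q' =>
    allN len fun x =>
      Nat.beq (orR x Q' (Nat.lor (Nat.shiftLeft ones (Nat.mul s x))
        (Nat.lor (Nat.shiftLeft col x) E))) full

/-- a row of the table, cut below `u` -/
def rowS (W u T i : ℕ) : ℕ := row T W i >>> u

theorem rowS_lt (W u T i : ℕ) : rowS W u T i < 2 ^ (W - u) := by
  unfold rowS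
  rw [Nat.shiftRight_eq_div_pow, Nat.div_lt_iff_lt_mul (by positivity), ← pow_add]
  refine lt_of_lt_of_le (row_lt T W i) (Nat.pow_le_pow_right (by norm_num) ?_)
  omega

/-- what an entry of the list means -/
def GoodM (W u T : ℕ) (qs : List (List ℕ)) (e : ℕ × ℕ) : Prop :=
  ∀ x y z, z < W - u + 1 → e.1.testBit x = true →
    e.2.testBit ((W - u + 1) * y + z) = true →
    ∃ q ∈ qs, Tri (rowS W u T (q.getD 0 0)) (rowS W u T (q.getD 1 0))
      (rowS W u T (q.getD 2 0)) (rowS W u T (q.getD 3 0)) x y z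

theorem pair3_soundM {w B C D : ℕ} (hw : 0 < w) (hB : B < 2 ^ w) (hC : C < 2 ^ w)
    (hD : D < 2 ^ w) {y z : ℕ} (hz : z < w + 1)
    (h : (pair3 (sprM w B) (sprM w C) (sprM w D) B C D).testBit ((w + 1) * y + z) = true) :
    (B.testBit y = true ∧ (C.testBit z = true ∨ D.testBit z = true)) ∨
    (C.testBit y = true ∧ (B.testBit z = true ∨ D.testBit z = true)) ∨
    (D.testBit y = true ∧ (B.testBit z = true ∨ C.testBit z = true)) := by
  have e : pair3 (sprM w B) (sprM w C) (sprM w D) B C D =
    (sprM w B * (C ||| D) ||| sprM w C * (B ||| D)) ||| sprM w D * (B ||| C) := rfl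
  have hlift : ∀ {X : ℕ}, X < 2 ^ w → X < 2 ^ (w + 1) := fun {X} hX =>
    lt_of_lt_of_le hX (Nat.pow_le_pow_right (by norm_num) (by omega))
  rw [e, Nat.testBit_or, Nat.testBit_or, Bool.or_eq_true, Bool.or_eq_true] at h
  rcases h with (h | h) | h
  · left
    have := sprM_mul hw hB (hlift (Nat.or_lt_two_pow hC hD)) hz h
    rw [Nat.testBit_or, Bool.or_eq_true] at this
    exact this
  · right; left
    have := sprM_mul hw hC (hlift (Nat.or_lt_two_pow hB hD)) hz h
    rw [Nat.testBit_or, Bool.or_eq_true] at this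
    exact this
  · right; right
    have := sprM_mul hw hD (hlift (Nat.or_lt_two_pow hB hC)) hz h
    rw [Nat.testBit_or, Bool.or_eq_true] at this
    exact this

theorem allM_sound {β : Type} (W u T : ℕ) (hw : 0 < W - u) (P : β → Prop)
    (all : List (List ℕ)) :
    ∀ (qs : List (List ℕ)) (Q : List (ℕ × ℕ)) (k : List (ℕ × ℕ) → β), (∀ q ∈ qs, q ∈ all) →
      (∀ e ∈ Q, GoodM W u T all e) → P (allM W u (W - u) T qs Q k) →
      ∃ Q' : List (ℕ × ℕ), (∀ e ∈ Q', GoodM W u T all e) ∧ P (k Q') := by
  intro qs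
  induction qs with
  | nil => intro Q k _ hQ h; exact ⟨Q, hQ, h⟩
  | cons q qs ih =>
    intro Q k hall hQ h
    have e : allM W u (W - u) T (q :: qs) Q k =
      force (rowS W u T (q.getD 0 0)) fun A =>
      force (rowS W u T (q.getD 1 0)) fun B =>
      force (rowS W u T (q.getD 2 0)) fun C =>
      force (rowS W u T (q.getD 3 0)) fun D =>
      addM (W - u) A B C D Q fun Q' => allM W u (W - u) T qs Q' k := rfl
    rw [e] at h
    simp only [force_eq, addM] at h
    refine ih _ _ (fun q' hq' => hall q' (List.mem_cons_of_mem _ hq')) ?_ h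
    have hA := rowS_lt W u T (q.getD 0 0)
    have hB := rowS_lt W u T (q.getD 1 0)
    have hC := rowS_lt W u T (q.getD 2 0)
    have hD := rowS_lt W u T (q.getD 3 0)
    have hq := hall q (by simp)
    set A := rowS W u T (q.getD 0 0) with hAdef
    set B := rowS W u T (q.getD 1 0) with hBdef
    set C := rowS W u T (q.getD 2 0) with hCdef
    set D := rowS W u T (q.getD 3 0) with hDdef
    intro e he
    simp only [List.mem_cons] at he
    rcases he with rfl | rfl | rfl | rfl | he
    · intro x y z hz hx hyz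
      refine ⟨q, hq, ?_⟩
      rw [← hAdef, ← hBdef, ← hCdef, ← hDdef]
      rcases pair3_soundM hw hB hC hD hz hyz with
        ⟨h1, h2 | h2⟩ | ⟨h1, h2 | h2⟩ | ⟨h1, h2 | h2⟩
      · exact ⟨0, 1, 2, by decide, by decide, by decide, hx, h1, h2⟩
      · exact ⟨0, 1, 3, by decide, by decide, by decide, hx, h1, h2⟩
      · exact ⟨0, 2, 1, by decide, by decide, by decide, hx, h1, h2⟩
      · exact ⟨0, 2, 3, by decide, by decide, by decide, hx, h1, h2⟩
      · exact ⟨0, 3, 1, by decide, by decide, by decide, hx, h1, h2⟩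
      · exact ⟨0, 3, 2, by decide, by decide, by decide, hx, h1, h2⟩
    · intro x y z hz hx hyz
      refine ⟨q, hq, ?_⟩
      rw [← hAdef, ← hBdef, ← hCdef, ← hDdef]
      rcases pair3_soundM hw hA hC hD hz hyz with
        ⟨h1, h2 | h2⟩ | ⟨h1, h2 | h2⟩ | ⟨h1, h2 | h2⟩
      · exact ⟨1, 0, 2, by decide, by decide, by decide, hx, h1, h2⟩
      · exact ⟨1, 0, 3, by decide, by decide, by decide, hx, h1, h2⟩
      · exact ⟨1, 2, 0, by decide, by decide, by decide, hx, h1, h2⟩
      · exact ⟨1, 2, 3, by decide, by decide, by decide, hx, h1, h2⟩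
      · exact ⟨1, 3, 0, by decide, by decide, by decide, hx, h1, h2⟩
      · exact ⟨1, 3, 2, by decide, by decide, by decide, hx, h1, h2⟩
    · intro x y z hz hx hyz
      refine ⟨q, hq, ?_⟩
      rw [← hAdef, ← hBdef, ← hCdef, ← hDdef]
      rcases pair3_soundM hw hA hB hD hz hyz with
        ⟨h1, h2 | h2⟩ | ⟨h1, h2 | h2⟩ | ⟨h1, h2 | h2⟩
      · exact ⟨2, 0, 1, by decide, by decide, by decide, hx, h1, h2⟩
      · exact ⟨2, 0, 3, by decide, by decide, by decide, hx, h1, h2⟩
      · exact ⟨2, 1, 0, by decide, by decide, by decide, hx, h1, h2⟩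
      · exact ⟨2, 1, 3, by decide, by decide, by decide, hx, h1, h2⟩
      · exact ⟨2, 3, 0, by decide, by decide, by decide, hx, h1, h2⟩
      · exact ⟨2, 3, 1, by decide, by decide, by decide, hx, h1, h2⟩
    · intro x y z hz hx hyz
      refine ⟨q, hq, ?_⟩
      rw [← hAdef, ← hBdef, ← hCdef, ← hDdef]
      rcases pair3_soundM hw hA hB hC hz hyz with
        ⟨h1, h2 | h2⟩ | ⟨h1, h2 | h2⟩ | ⟨h1, h2 | h2⟩
      · exact ⟨3, 0, 1, by decide, by decide, by decide, hx, h1, h2⟩
      · exact ⟨3, 0, 2, by decide, by decide, by decide, hx, h1, h2⟩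
      · exact ⟨3, 1, 0, by decide, by decide, by decide, hx, h1, h2⟩
      · exact ⟨3, 1, 2, by decide, by decide, by decide, hx, h1, h2⟩
      · exact ⟨3, 2, 0, by decide, by decide, by decide, hx, h1, h2⟩
      · exact ⟨3, 2, 1, by decide, by decide, by decide, hx, h1, h2⟩
    · exact hQ e he

theorem mrg_sound {β : Type} (W u T : ℕ) (P : β → Prop) (all : List (List ℕ))
    (Q : List (ℕ × ℕ)) (hQ : ∀ e ∈ Q, GoodM W u T all e) :
    ∀ (ps : List ℕ) (R : List (ℕ × ℕ)) (k : List (ℕ × ℕ) → β),
      (∀ e ∈ R, GoodM W u T all e) → P (mrg W u T Q ps R k) →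
      ∃ R' : List (ℕ × ℕ), (∀ e ∈ R', GoodM W u T all e) ∧ P (k R') := by
  intro ps
  induction ps with
  | nil => intro R k hR h; exact ⟨R, hR, h⟩
  | cons p ps ih =>
    intro R k hR h
    have e : mrg W u T Q (p :: ps) R k =
      force (Nat.shiftRight (row T W p) u) fun A => force (orE A Q) fun P =>
        mrg W u T Q ps ((A, P) :: R) k := rfl
    rw [e] at h
    simp only [force_eq] at h
    refine ih _ _ ?_ h
    intro e he
    rcases List.mem_cons.1 he with rfl | he
    · intro x y z hz hx hyz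
      obtain ⟨e', h1, h2, h3⟩ := orE_sound _ _ _ hyz
      exact hQ e' h1 x y z hz (by rw [h2]; exact hx) h3
    · exact hR e he

theorem covM_sound {W u len T : ℕ} {ps : List ℕ} {qs : List (List ℕ)} (hw : 0 < W - u)
    (h : covM W u len T ps qs = true) {x y z : ℕ} (hx : x < len) (hxw : x < W - u)
    (hy : y < W - u) (hz : z < W - u) (hxy : x ≠ y) (hxz : x ≠ z) (hyz : y ≠ z) :
    ∃ q ∈ qs, Tri (rowS W u T (q.getD 0 0)) (rowS W u T (q.getD 1 0))
      (rowS W u T (q.getD 2 0)) (rowS W u T (q.getD 3 0)) x y z := by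
  unfold covM at h
  simp only [force_eq] at h
  obtain ⟨Q0, hQ0, hc0⟩ := allM_sound W u T hw (fun b => b = true) qs qs [] _
    (fun q hq => hq) (fun e he => by simp at he) h
  obtain ⟨Q, hQ, hc⟩ := mrg_sound W u T (fun b => b = true) qs Q0 hQ0 ps [] _
    (fun e he => by simp at he) hc0
  rw [allN_iff] at hc
  have h1 := Nat.eq_of_beq_eq_true (hc x hx)
  set w := W - u with hwdef
  have e0 : Nat.sub W u = w := rfl
  rw [e0] at h1
  have hlt : (w + 1) * y + z < (w + 1) * w := by
    calc (w + 1) * y + z < (w + 1) * y + (w + 1) := by omega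
      _ = (w + 1) * (y + 1) := by ring
      _ ≤ (w + 1) * w := Nat.mul_le_mul_left _ hy
  have h2 : (orR x Q ((Nat.pred (Nat.pow 2 (Nat.succ w))) <<< (Nat.mul (Nat.succ w) x) |||
      ((geo (Nat.succ w) w) <<< x ||| (geo (Nat.succ (Nat.succ w)) w |||
        (geo (Nat.succ w) w) <<< w)))).testBit ((w + 1) * y + z) = true := by
    refine Eq.trans (congrArg (fun t : ℕ => t.testBit ((w + 1) * y + z)) h1) ?_
    have e : Nat.pred (Nat.pow 2 (Nat.mul (Nat.succ w) w)) = 2 ^ ((w + 1) * w) - 1 := rfl
    show (Nat.pred (Nat.pow 2 (Nat.mul (Nat.succ w) w))).testBit _ = true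
    rw [e, Nat.testBit_two_pow_sub_one]
    exact decide_eq_true hlt
  rcases orR_sound x _ Q _ h2 with h3 | ⟨e, he, h3, h4⟩
  · exfalso
    have uniq : ∀ y' z', z' < w + 1 → (w + 1) * y + z = (w + 1) * y' + z' → y = y' ∧ z = z' := by
      intro y' z' hz' he
      have h5 : y = y' := by
        have a1 : ((w + 1) * y + z) / (w + 1) = y := by
          rw [Nat.mul_add_div (Nat.succ_pos w), Nat.div_eq_of_lt (by omega), Nat.add_zero]
        have a2 : ((w + 1) * y' + z') / (w + 1) = y' := by
          rw [Nat.mul_add_div (Nat.succ_pos w), Nat.div_eq_of_lt hz', Nat.add_zero]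
        rw [← a1, he, a2]
      subst h5
      exact ⟨rfl, by omega⟩
    rw [Nat.testBit_or, Nat.testBit_or, Nat.testBit_or] at h3
    simp only [Bool.or_eq_true] at h3
    rw [← or_assoc, or_comm] at h3
    rcases h3 with (h3 | h3) | (h3 | h3)
    · obtain ⟨t, ht, he⟩ := geo_testBit (Nat.succ_pos (w + 1)) w _ h3
      have e1 : (w + 1) * y + z = (w + 1) * t + t := by rw [he, Nat.succ_mul]
      obtain ⟨a, b⟩ := uniq t t (by omega) e1
      exact hyz (by rw [a, b])
    · rw [Nat.testBit_shiftLeft, Bool.and_eq_true] at h3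
      obtain ⟨t, ht, he⟩ := geo_testBit (Nat.succ_pos w) w _ h3.2
      have h5 : w ≤ (w + 1) * y + z := by simpa using h3.1
      have e1 : (w + 1) * y + z = (w + 1) * t + w := by
        have : (w + 1) * y + z - w = (w + 1) * t := he
        omega
      obtain ⟨a, b⟩ := uniq t w (by omega) e1
      omega
    · rw [Nat.testBit_shiftLeft, Bool.and_eq_true] at h3
      have h5 : (w + 1) * x ≤ (w + 1) * y + z := by
        have : Nat.mul (Nat.succ w) x ≤ (w + 1) * y + z := by simpa using h3.1
        exact this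
      have e2 : Nat.pred (Nat.pow 2 (Nat.succ w)) = 2 ^ (w + 1) - 1 := rfl
      have h6 := h3.2
      rw [e2, Nat.testBit_two_pow_sub_one] at h6
      have h7 : (w + 1) * y + z - (w + 1) * x < w + 1 := of_decide_eq_true h6
      obtain ⟨a, -⟩ := uniq x ((w + 1) * y + z - (w + 1) * x) h7 (by omega)
      exact hxy a.symm
    · rw [Nat.testBit_shiftLeft, Bool.and_eq_true] at h3
      obtain ⟨t, ht, he⟩ := geo_testBit (Nat.succ_pos w) w _ h3.2
      have h5 : x ≤ (w + 1) * y + z := by simpa using h3.1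
      have e1 : (w + 1) * y + z = (w + 1) * t + x := by
        have : (w + 1) * y + z - x = (w + 1) * t := he
        omega
      obtain ⟨-, b⟩ := uniq t x (by omega) e1
      exact hxz b.symm
  · exact hQ e he x y z (by omega) h3 h4

end Pool.Agent.Lib.MP_fe131b_co.F5
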