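import Pool.Agent.Lib.MP_fe131b_co.F5.E12
import Pool.Agent.Lib.MP_fe131b_co.F4.K12

/-!
Twelve points: the table of the labels, checks.
-/

set_option autoImplicit false

namespace Pool.Agent.Lib.MP_fe131b_co.F5

open Pool.Agent.Lib.MP_fe131b_co.F4 Finset Function

theorem len12_1 : (pmGen 5 (del 1 (List.range' 1 11)) 1).length = 945 := by decide +kernel

theorem chk12_1 : chkE 12 E12 (pmGen 5 (del 1 (List.range' 1 11)) 1) 0 = true := by
  decide +kernel

theorem len12_2 : (pmGen 5 (del 2 (List.range' 1 11)) 2).length = 945 := by decide +kernel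

theorem chk12_2 : chkE 12 E12 (pmGen 5 (del 2 (List.range' 1 11)) 2) 945 = true := by
  decide +kernel

theorem len12_3 : (pmGen 5 (del 3 (List.range' 1 11)) 3).length = 945 := by decide +kernel

theorem chk12_3 : chkE 12 E12 (pmGen 5 (del 3 (List.range' 1 11)) 3) 1890 = true := by
  decide +kernel

theorem len12_4 : (pmGen 5 (del 4 (List.range' 1 11)) 4).length = 945 := by decide +kernel

theorem chk12_4 : chkE 12 E12 (pmGen 5 (del 4 (List.range' 1 11)) 4) 2835 = true := by
  decide +kernel

end Pool.Agent.Lib.MP_fe131b_co.F5
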