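import Pool.Agent.Lib.MP_fe131b_co.F5.E12
import Pool.Agent.Lib.MP_fe131b_co.F4.K12

/-!
Twelve points: the table of the labels, checks.
-/

set_option autoImplicit false

namespace Pool.Agent.Lib.MP_fe131b_co.F5

open Pool.Agent.Lib.MP_fe131b_co.F4 Finset Function

theorem len12_5 : (pmGen 5 (del 5 (List.range' 1 11)) 5).length = 945 := by decide +kernel

theorem chk12_5 : chkE 12 E12 (pmGen 5 (del 5 (List.range' 1 11)) 5) 3780 = true := by
  decide +kernel

theorem len12_6 : (pmGen 5 (del 6 (List.range' 1 11)) 6).length = 945 := by decide +kernel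

theorem chk12_6 : chkE 12 E12 (pmGen 5 (del 6 (List.range' 1 11)) 6) 4725 = true := by
  decide +kernel

theorem len12_7 : (pmGen 5 (del 7 (List.range' 1 11)) 7).length = 945 := by decide +kernel

theorem chk12_7 : chkE 12 E12 (pmGen 5 (del 7 (List.range' 1 11)) 7) 5670 = true := by
  decide +kernel

theorem len12_8 : (pmGen 5 (del 8 (List.range' 1 11)) 8).length = 945 := by decide +kernel

theorem chk12_8 : chkE 12 E12 (pmGen 5 (del 8 (List.range' 1 11)) 8) 6615 = true := by
  decide +kernel

end Pool.Agent.Lib.MP_fe131b_co.F5
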