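import Pool.Agent.Lib.MP_fe131b_co.F5.E12
import Pool.Agent.Lib.MP_fe131b_co.F4.K12

/-!
Twelve points: the table of the labels, checks.
-/

set_option autoImplicit false

namespace Pool.Agent.Lib.MP_fe131b_co.F5

open Pool.Agent.Lib.MP_fe131b_co.F4 Finset Function

theorem len12_9 : (pmGen 5 (del 9 (List.range' 1 11)) 9).length = 945 := by decide +kernel

theorem chk12_9 : chkE 12 E12 (pmGen 5 (del 9 (List.range' 1 11)) 9) 7560 = true := by
  decide +kernel

theorem len12_10 : (pmGen 5 (del 10 (List.range' 1 11)) 10).length = 945 := by decide +kernel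

theorem chk12_10 : chkE 12 E12 (pmGen 5 (del 10 (List.range' 1 11)) 10) 8505 = true := by
  decide +kernel

theorem len12_11 : (pmGen 5 (del 11 (List.range' 1 11)) 11).length = 945 := by decide +kernel

theorem chk12_11 : chkE 12 E12 (pmGen 5 (del 11 (List.range' 1 11)) 11) 9450 = true := by
  decide +kernel

theorem chkD12 : chkD 12 E12 = true := by decide +kernel

end Pool.Agent.Lib.MP_fe131b_co.F5
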