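import Pool.Agent.Lib.MP_fe131b_co.F5.StepA

/-!
The masks of the labels that are completed by a given matching, for all labels at once.
-/

set_option autoImplicit false

namespace Pool.Agent.Lib.MP_fe131b_co.F5

open Pool.Agent.Lib.MP_fe131b_co.F4 Finset Function

/-- the entry with number `i` -/
def nth (l : List ℕ) : ℕ → ℕ :=
  List.rec (motive := fun _ => ℕ → ℕ) (fun _ => 0)
    (fun a _ ih i => Nat.rec (motive := fun _ => ℕ) a (fun k _ => ih k) i) l

theorem nth_nil (i : ℕ) : nth [] i = 0 := rfl

theorem nth_zero (a : ℕ) (l : List ℕ) : nth (a :: l) 0 = a := rfl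

theorem nth_succ (a : ℕ) (l : List ℕ) (i : ℕ) : nth (a :: l) (i + 1) = nth l i := rfl

theorem nth_append (l l' : List ℕ) (i : ℕ) (h : i < l.length) : nth (l ++ l') i = nth l i := by
  induction l generalizing i with
  | nil => simp at h
  | cons a l ih =>
    cases i with
    | zero => rfl
    | succ i =>
      rw [List.cons_append, nth_succ, nth_succ]
      exact ih i (by simpa using h)

theorem nth_append_right (l : List ℕ) (a : ℕ) (l' : List ℕ) :
    nth (l ++ a :: l') l.length = a := by
  induction l with
  | nil => rfl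
  | cons b l ih =>
    rw [List.cons_append, List.length_cons, nth_succ]
    exact ih

theorem nth_map_range (n : ℕ) (f : ℕ → ℕ) : ∀ z < n, nth ((List.range n).map f) z = f z := by
  induction n with
  | zero => intro z hz; omega
  | succ n ih =>
    intro z hz
    rw [List.range_succ, List.map_append]
    rcases Nat.lt_succ_iff_lt_or_eq.1 hz with h | h
    · rw [nth_append _ _ _ (by simpa using h)]
      exact ih z h
    · subst h
      have h1 := nth_append_right ((List.range z).map f) (f z) []
      rw [List.length_map, List.length_range] at h1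
      exact h1

/-- the row with number `i` -/
def nthL (l : List (List ℕ)) : ℕ → List ℕ :=
  List.rec (motive := fun _ => ℕ → List ℕ) (fun _ => [])
    (fun a _ ih i => Nat.rec (motive := fun _ => List ℕ) a (fun k _ => ih k) i) l

theorem nthL_succ (a : List ℕ) (l : List (List ℕ)) (i : ℕ) :
    nthL (a :: l) (i + 1) = nthL l i := rfl

/-- the numbers below `n`, backwards -/
def dwn (n : ℕ) : List ℕ := Nat.rec (motive := fun _ => List ℕ) [] (fun k ih => k :: ih) n

/-- build a list -/
def bld {β : Type} (f : ℕ → ℕ) (zs : List ℕ) : List ℕ → (List ℕ → β) → β :=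
  List.rec (motive := fun _ => List ℕ → (List ℕ → β) → β) (fun acc k => k acc)
    (fun z _ ih acc k => force (f z) fun v => ih (v :: acc) k) zs

theorem bld_eq {β : Type} (f : ℕ → ℕ) : ∀ (n : ℕ) (acc : List ℕ) (k : List ℕ → β),
    bld f (dwn n) acc k = k ((List.range n).map f ++ acc) := by
  intro n
  induction n with
  | zero => intro acc k; rfl
  | succ n ih =>
    intro acc k
    have e : bld f (dwn (n + 1)) acc k =
      force (f n) (fun v => bld f (dwn n) (v :: acc) k) := rfl
    rw [e, force_eq, ih, List.range_succ, List.map_append, List.append_assoc]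
    rfl

/-- the labels for which `z` is reached from a point of `A` by a pair of the matching and a pair
of the label -/
def orZ (A : List ℕ) (z : ℕ) (E : List (List ℕ)) : List ℕ → ℕ :=
  List.rec (motive := fun _ => List ℕ → ℕ) (fun _ => 0)
    (fun Ey _ ih ms => List.rec (motive := fun _ => ℕ) 0
      (fun my ms' _ => Nat.lor (Nat.land (nth A my) (nth Ey z)) (ih ms')) ms) E

theorem orZ_sound (A : List ℕ) (z i : ℕ) : ∀ (E : List (List ℕ)) (ms : List ℕ),
    (orZ A z E ms).testBit i = true → ∃ y < ms.length,
      (nth A (nth ms y)).testBit i = true ∧ (nth (nthL E y) z).testBit i = true := by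
  intro E
  induction E with
  | nil =>
    intro ms h
    have e : orZ A z [] ms = 0 := rfl
    rw [e] at h
    simp at h
  | cons Ey E ih =>
    intro ms h
    cases ms with
    | nil =>
      have e : orZ A z (Ey :: E) [] = 0 := rfl
      rw [e] at h
      simp at h
    | cons my ms =>
      have e : orZ A z (Ey :: E) (my :: ms) = (nth A my &&& nth Ey z) ||| orZ A z E ms := rfl
      rw [e, Nat.testBit_or, Bool.or_eq_true] at h
      rcases h with h | h
      · rw [Nat.testBit_and, Bool.and_eq_true] at h
        exact ⟨0, by simp, h.1, h.2⟩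
      · obtain ⟨y, h1, h2, h3⟩ := ih ms h
        refine ⟨y + 1, by simpa using h1, ?_, ?_⟩
        · rw [nth_succ]; exact h2
        · rw [nthL_succ]; exact h3

/-- iterate -/
def itA {β : Type} (n : ℕ) (E : List (List ℕ)) (ms : List ℕ) (t : ℕ) :
    List ℕ → (List ℕ → β) → β :=
  Nat.rec (motive := fun _ => List ℕ → (List ℕ → β) → β) (fun A k => k A)
    (fun _ ih A k => bld (fun z => Nat.lor (nth A z) (orZ A z E ms)) (dwn n) []
      fun A' => ih A' k) t

/-- the labels for which all points are reached -/
def andV (A : List ℕ) (m full : ℕ) (zs : List ℕ) : ℕ :=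
  List.rec (motive := fun _ => ℕ) full
    (fun v _ ih => Nat.land (Nat.lor (nth A v) (nth A (pt m v))) ih) zs

theorem andV_sound (A : List ℕ) (m full i : ℕ) : ∀ (n : ℕ),
    (andV A m full (dwn n)).testBit i = true → ∀ v < n,
      (nth A v).testBit i = true ∨ (nth A (pt m v)).testBit i = true := by
  intro n
  induction n with
  | zero => intro _ v hv; omega
  | succ n ih =>
    intro h v hv
    have e : andV A m full (dwn (n + 1)) =
      (nth A n ||| nth A (pt m n)) &&& andV A m full (dwn n) := rfl
    rw [e, Nat.testBit_and, Bool.and_eq_true, Nat.testBit_or, Bool.or_eq_true] at h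
    rcases Nat.lt_succ_iff_lt_or_eq.1 hv with h1 | h1
    · exact ih h.2 v h1
    · rw [h1]; exact h.1

/-- the mask of the labels completed by the matching `m` -/
def hm {β : Type} (n full : ℕ) (E : List (List ℕ)) (m : ℕ) (k : ℕ → β) : β :=
  bld (fun x => pt m x) (dwn n) [] fun ms =>
    itA n E ms (Nat.pred (Nat.div n 2)) (full :: (dwn (Nat.pred n)).map fun _ => 0) fun A =>
      force (andV A m full (dwn n)) k

/-- the table describes the label -/
def LabE (n : ℕ) (E : List (List ℕ)) (i : ℕ) (L : Fin n → Fin n) : Prop :=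
  ∀ y z : Fin n, (nth (nthL E y) z).testBit i = true → L y = z

theorem nth_zeros (n : ℕ) : ∀ v, nth ((dwn n).map fun _ => 0) v = 0 := by
  induction n with
  | zero => intro v; rfl
  | succ n ih =>
    intro v
    cases v with
    | zero => rfl
    | succ v => exact ih v

theorem hm_sound {β : Type} {n full : ℕ} (hn0 : 0 < n) {E : List (List ℕ)} {m : ℕ} {k : ℕ → β}
    (P : β → Prop) (h : P (hm n full E m k)) : ∃ r, P (k r) ∧
      ∀ (L M : Fin n → Fin n) (i : ℕ), LabE n E i L → Rep n m M → r.testBit i = true →
        Connected L M := by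
  unfold hm at h
  rw [bld_eq, List.append_nil] at h
  let o : Fin n := ⟨0, hn0⟩
  -- the invariant
  let I : List ℕ → Prop := fun A => ∀ (L M : Fin n → Fin n) (i : ℕ), LabE n E i L → Rep n m M →
    ∀ v : Fin n, (nth A v).testBit i = true → (rel L M).r o v
  have key : ∀ (t : ℕ) (A : List ℕ) (k' : List ℕ → β), I A →
      P (itA n E ((List.range n).map fun x => pt m x) t A k') → ∃ A', I A' ∧ P (k' A') := by
    intro t
    induction t with
    | zero => intro A k' hA h; exact ⟨A, hA, h⟩
    | succ t ih =>
      intro A k' hA h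
      have e : itA n E ((List.range n).map fun x => pt m x) (t + 1) A k' =
        bld (fun z => Nat.lor (nth A z) (orZ A z E ((List.range n).map fun x => pt m x)))
          (dwn n) [] (fun A' => itA n E ((List.range n).map fun x => pt m x) t A' k') := rfl
      rw [e, bld_eq, List.append_nil] at h
      refine ih _ k' ?_ h
      intro L M i hL hM v hv
      rw [nth_map_range n _ v v.2] at hv
      have hv' : (nth A v ||| orZ A v E ((List.range n).map fun x => pt m x)).testBit i = true :=
        hv
      rw [Nat.testBit_or, Bool.or_eq_true] at hv'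
      rcases hv' with h1 | h1
      · exact hA L M i hL hM v h1
      · obtain ⟨y, hy, h2, h3⟩ := orZ_sound A v i E _ h1
        rw [List.length_map, List.length_range] at hy
        rw [nth_map_range n _ y hy] at h2
        have h4 : pt m y = (M ⟨y, hy⟩ : ℕ) := hM ⟨y, hy⟩
        rw [h4] at h2
        have h5 := hA L M i hL hM (M ⟨y, hy⟩) h2
        have h6 : L ⟨y, hy⟩ = v := hL ⟨y, hy⟩ v h3
        rw [← h6]
        exact rel_trans (rel_trans h5 (rel_symm (rel_M L M ⟨y, hy⟩))) (rel_L L M ⟨y, hy⟩)
  obtain ⟨A, hA, hP⟩ := key _ _ _ (by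
    intro L M i hL hM v hv
    rcases v with ⟨v, hv0⟩
    cases v with
    | zero => exact rel_refl _ _ _
    | succ v =>
      have e : nth (full :: (dwn (Nat.pred n)).map fun _ => 0) (v + 1) = 0 := by
        rw [nth_succ, nth_zeros]
      change (nth (full :: (dwn (Nat.pred n)).map fun _ => 0) (v + 1)).testBit i = true at hv
      rw [e] at hv
      simp at hv) h
  rw [force_eq] at hP
  refine ⟨_, hP, ?_⟩
  intro L M i hL hM hr
  have h1 : ∀ v : Fin n, (rel L M).r o v := by
    intro v
    rcases andV_sound A m full i n hr v v.2 with h2 | h2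
    · exact hA L M i hL hM v h2
    · have h4 : pt m v = (M v : ℕ) := hM v
      rw [h4] at h2
      exact rel_trans (hA L M i hL hM (M v) h2) (rel_symm (rel_M L M v))
  intro x y
  exact rel_trans (rel_symm (h1 x)) (h1 y)

/-! ### the table of the labels -/

/-- the table contains the labels of the list -/
def chkE (n : ℕ) (E : List (List ℕ)) (xs : List ℕ) : ℕ → Bool :=
  List.rec (motive := fun _ => ℕ → Bool) (fun _ => true)
    (fun c _ ih i => and (force c fun c => allN n fun y => tb (nth (nthL E y) (pt c y)) i)
      (force (Nat.succ i) ih)) xs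

theorem chkE_sound (n : ℕ) (E : List (List ℕ)) : ∀ (xs : List ℕ) (i : ℕ),
    chkE n E xs i = true → ∀ k, ∀ h : k < xs.length, ∀ y < n,
      (nth (nthL E y) (pt xs[k] y)).testBit (i + k) = true := by
  intro xs
  induction xs with
  | nil => intro i _ k hk; simp at hk
  | cons c xs ih =>
    intro i h k hk y hy
    have e : chkE n E (c :: xs) i =
      and (force c fun c => allN n fun y => tb (nth (nthL E y) (pt c y)) i)
      (force (i + 1) (chkE n E xs)) := rfl
    rw [e, force_eq, force_eq, Bool.and_eq_true, allN_iff] at h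
    cases k with
    | zero =>
      have h1 := h.1 y hy
      rw [tb_eq] at h1
      exact h1
    | succ k =>
      have h2 := ih (i + 1) h.2 k (by simpa using hk) y hy
      rw [Nat.add_right_comm, Nat.add_assoc] at h2
      simpa using h2

/-- the masks of a row are disjoint -/
def chkD (n : ℕ) (E : List (List ℕ)) : Bool :=
  allN n fun y => allN n fun z => allN z fun z' =>
    Nat.beq (Nat.land (nth (nthL E y) z) (nth (nthL E y) z')) 0

theorem labE_of {n : ℕ} {E : List (List ℕ)} (hD : chkD n E = true) {xs : List ℕ} {i0 : ℕ}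
    (h : chkE n E xs i0 = true) {k : ℕ} (hk : k < xs.length) {L : Fin n → Fin n}
    (hL : Rep n xs[k] L) : LabE n E (i0 + k) L := by
  intro y z hz
  have h1 := chkE_sound n E xs i0 h k hk y y.2
  rw [hL y] at h1
  unfold chkD at hD
  rw [allN_iff] at hD
  have h2 := hD y y.2
  rw [allN_iff] at h2
  have h3 : ∀ a < n, ∀ b < a, nth (nthL E y) a &&& nth (nthL E y) b = 0 := by
    intro a ha b hb
    have h4 := h2 a ha
    rw [allN_iff] at h4
    exact Nat.eq_of_beq_eq_true (h4 b hb)
  by_contra hne
  have h5 : ((L y : ℕ)) ≠ z := fun h => hne (Fin.ext h)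
  rcases Nat.lt_or_gt_of_ne h5 with h6 | h6
  · have h7 := h3 z z.2 _ h6
    have h8 : (nth (nthL E y) z &&& nth (nthL E y) (L y)).testBit (i0 + k) = true := by
      rw [Nat.testBit_and, hz, h1]; rfl
    rw [h7] at h8
    simp at h8
  · have h7 := h3 _ (L y).2 z h6
    have h8 : (nth (nthL E y) (L y) &&& nth (nthL E y) z).testBit (i0 + k) = true := by
      rw [Nat.testBit_and, hz, h1]; rfl
    rw [h7] at h8
    simp at h8

/-! ### covers -/

/-- the union of the masks -/
def orH {β : Type} (n full : ℕ) (E : List (List ℕ)) (ms : List ℕ) : ℕ → (ℕ → β) → β :=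
  List.rec (motive := fun _ => ℕ → (ℕ → β) → β) (fun acc k => k acc)
    (fun m _ ih acc k => hm n full E m fun h => force (Nat.lor acc h) fun acc' => ih acc' k) ms

theorem orH_sound {β : Type} {n full : ℕ} (hn0 : 0 < n) {E : List (List ℕ)} (P : β → Prop)
    (all : List ℕ) : ∀ (ms : List ℕ) (acc : ℕ) (k : ℕ → β), (∀ m ∈ ms, m ∈ all) →
      (∀ (L : Fin n → Fin n) (i : ℕ), LabE n E i L → acc.testBit i = true →
        ∃ m ∈ all, ∀ M, Rep n m M → Connected L M) → P (orH n full E ms acc k) →
      ∃ r, P (k r) ∧ ∀ (L : Fin n → Fin n) (i : ℕ), LabE n E i L → r.testBit i = true →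
        ∃ m ∈ all, ∀ M, Rep n m M → Connected L M := by
  intro ms
  induction ms with
  | nil => intro acc k _ hacc h; exact ⟨acc, h, hacc⟩
  | cons m ms ih =>
    intro acc k hall hacc h
    have e : orH n full E (m :: ms) acc k =
      hm n full E m fun h => force (acc ||| h) fun acc' => orH n full E ms acc' k := rfl
    rw [e] at h
    obtain ⟨r, hr, hr2⟩ := hm_sound hn0 P h
    rw [force_eq] at hr
    refine ih _ _ (fun m' hm' => hall m' (List.mem_cons_of_mem _ hm')) ?_ hr
    intro L i hL hi
    rw [Nat.testBit_or, Bool.or_eq_true] at hi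
    rcases hi with hi | hi
    · exact hacc L i hL hi
    · exact ⟨m, hall m (by simp), fun M hM => hr2 L M i hL hM hi⟩

/-- every label is completed by one of the matchings -/
def covH (n w : ℕ) (E : List (List ℕ)) (ms : List ℕ) : Bool :=
  force (Nat.pred (Nat.pow 2 w)) fun full => orH n full E ms 0 fun r => Nat.beq r full

theorem covH_sound {n w : ℕ} (hn0 : 0 < n) {E : List (List ℕ)} {ms : List ℕ}
    (h : covH n w E ms = true) (L : Fin n → Fin n) {i : ℕ} (hi : i < w) (hL : LabE n E i L) :
    ∃ m ∈ ms, ∀ M, Rep n m M → Connected L M := by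
  unfold covH at h
  rw [force_eq] at h
  obtain ⟨r, hr, hr2⟩ := orH_sound hn0 (fun b => b = true) ms ms 0 _ (fun m hm => hm)
    (fun L i _ h => by simp at h) h
  refine hr2 L i hL ?_
  rw [Nat.eq_of_beq_eq_true hr]
  have e : Nat.pred (Nat.pow 2 w) = 2 ^ w - 1 := rfl
  rw [e, Nat.testBit_two_pow_sub_one]
  exact decide_eq_true hi

/-- check of a row of a table -/
def rowH (n w : ℕ) (E : List (List ℕ)) (PC CW T i : ℕ) : Bool :=
  force (Nat.pred (Nat.pow 2 w)) fun full => force (row PC CW i) fun c =>
    and (okPM n c) (hm n full E c fun h => Nat.beq h (row T w i))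

theorem rowH_sound {n w : ℕ} (hn0 : 0 < n) {E : List (List ℕ)} {PC CW T i : ℕ}
    (h : rowH n w E PC CW T i = true) : PM (fn n (row PC CW i)) ∧
      Rep n (row PC CW i) (fn n (row PC CW i)) ∧ ∀ (L : Fin n → Fin n) (j : ℕ), LabE n E j L →
        (row T w i).testBit j = true → Connected L (fn n (row PC CW i)) := by
  unfold rowH at h
  rw [force_eq, force_eq, Bool.and_eq_true] at h
  obtain ⟨h1, h2⟩ := okPM_sound h.1
  refine ⟨h1, h2, ?_⟩
  obtain ⟨r, hr, hr2⟩ := hm_sound hn0 (fun b => b = true) h.2
  intro L j hL hj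
  rw [← Nat.eq_of_beq_eq_true hr] at hj
  exact hr2 L _ j hL h2 hj

end Pool.Agent.Lib.MP_fe131b_co.F5
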