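import Pool.Agent.Lib.MP_fe131b_co.F5.E12a
import Pool.Agent.Lib.MP_fe131b_co.F5.E12b
import Pool.Agent.Lib.MP_fe131b_co.F5.E12c

/-!
Twelve points: every label is in the table.
-/

set_option autoImplicit false

namespace Pool.Agent.Lib.MP_fe131b_co.F5

open Pool.Agent.Lib.MP_fe131b_co.F4 Finset Function

theorem lab12 (L : Fin 12 → Fin 12) (hL : PM L) : ∃ i < 10395, LabE 12 E12 i L := by
  obtain ⟨c, hc, hr⟩ := exists_code (by norm_num) (by norm_num) hL
  have hc' : ∃ b ∈ List.range' 1 11, c ∈ pmGen 5 (del b (List.range' 1 11)) b := by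
    have e : List.range 12 = 0 :: List.range' 1 11 := by decide
    have e2 : (12 / 2 : ℕ) = 5 + 1 := rfl
    rw [e2, e] at hc
    simp only [pmGen, List.mem_flatMap] at hc
    obtain ⟨b, hb, hc⟩ := hc
    refine ⟨b, hb, ?_⟩
    rw [del_eq]
    simpa using hc
  obtain ⟨b, hb, hcb⟩ := hc'
  obtain ⟨k, hk, rfl⟩ := List.getElem_of_mem hcb
  have h1 : 1 ≤ b ∧ b < 12 := by
    rw [List.mem_range'] at hb
    obtain ⟨i, hi, rfl⟩ := hb
    omega
  obtain ⟨h1, h2⟩ := h1
  interval_cases b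
  · exact ⟨0 + k, by rw [len12_1] at hk; omega, labE_of chkD12 chk12_1 hk hr⟩
  · exact ⟨945 + k, by rw [len12_2] at hk; omega, labE_of chkD12 chk12_2 hk hr⟩
  · exact ⟨1890 + k, by rw [len12_3] at hk; omega, labE_of chkD12 chk12_3 hk hr⟩
  · exact ⟨2835 + k, by rw [len12_4] at hk; omega, labE_of chkD12 chk12_4 hk hr⟩
  · exact ⟨3780 + k, by rw [len12_5] at hk; omega, labE_of chkD12 chk12_5 hk hr⟩
  · exact ⟨4725 + k, by rw [len12_6] at hk; omega, labE_of chkD12 chk12_6 hk hr⟩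
  · exact ⟨5670 + k, by rw [len12_7] at hk; omega, labE_of chkD12 chk12_7 hk hr⟩
  · exact ⟨6615 + k, by rw [len12_8] at hk; omega, labE_of chkD12 chk12_8 hk hr⟩
  · exact ⟨7560 + k, by rw [len12_9] at hk; omega, labE_of chkD12 chk12_9 hk hr⟩
  · exact ⟨8505 + k, by rw [len12_10] at hk; omega, labE_of chkD12 chk12_10 hk hr⟩
  · exact ⟨9450 + k, by rw [len12_11] at hk; omega, labE_of chkD12 chk12_11 hk hr⟩

end Pool.Agent.Lib.MP_fe131b_co.F5
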