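import Pool.Agent.Lib.MP_fe131b_co.F5.S3

/-!
Ten points: the single-vertex property for eight labels.
-/

set_option autoImplicit false

namespace Pool.Agent.Lib.MP_fe131b_co.F5

open Pool.Agent.Lib.MP_fe131b_co.F4 Finset Function

theorem exists_four {α : Type} [DecidableEq α] (L : Fin 8 → α)
    (h : 4 ≤ (univ.image L).card) : ∃ j : Fin 4 → Fin 8, Injective (fun t => L (j t)) := by
  obtain ⟨t, ht, hc⟩ := Finset.exists_subset_card_eq h
  let e : t ≃ Fin 4 := Finset.equivFinOfCardEq hc
  have h1 : ∀ k : Fin 4, ∃ i, L i = (e.symm k : α) := by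
    intro k
    have := ht (e.symm k).2
    obtain ⟨i, -, hi⟩ := Finset.mem_image.1 this
    exact ⟨i, hi⟩
  choose j hj using h1
  refine ⟨j, fun a b hab => ?_⟩
  simp only [hj] at hab
  exact e.symm.injective (Subtype.ext hab)

theorem exists_three {α : Type} [DecidableEq α] (L : Fin 8 → α)
    (h : (univ.image L).card ≤ 3) : ∃ (T : Fin 3 → α) (f : Fin 8 → Fin 3),
      (∀ k, ∃ i, T k = L i) ∧ ∀ i, L i = T (f i) := by
  set s := univ.image L with hs
  let e : s ≃ Fin s.card := Finset.equivFin s
  have hmem : ∀ i, L i ∈ s := fun i => Finset.mem_image_of_mem L (Finset.mem_univ i)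
  refine ⟨fun k => if hk : (k : ℕ) < s.card then (e.symm ⟨k, hk⟩ : α) else L 0,
    fun i => ⟨(e ⟨L i, hmem i⟩ : ℕ), lt_of_lt_of_le (e ⟨L i, hmem i⟩).2 h⟩, ?_, ?_⟩
  · intro k
    by_cases hk : (k : ℕ) < s.card
    · have h1 := (e.symm ⟨k, hk⟩).2
      obtain ⟨i, -, hi⟩ := Finset.mem_image.1 h1
      refine ⟨i, ?_⟩
      simp only [dif_pos hk]
      exact hi.symm
    · refine ⟨0, ?_⟩
      simp only [dif_neg hk]
  · intro i
    have h1 : ((e ⟨L i, hmem i⟩ : Fin s.card) : ℕ) < s.card := (e ⟨L i, hmem i⟩).2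
    simp only [dif_pos h1, Fin.eta, Equiv.symm_apply_apply]

theorem exists_compl (j : Fin 4 → Fin 8) (hj : Injective j) :
    ∃ k : Fin 4 → Fin 8, Injective k ∧ ∀ s t, k s ≠ j t := by
  classical
  have h1 : (univ \ univ.image j).card = 4 := by
    rw [Finset.card_sdiff_of_subset (Finset.subset_univ _), Finset.card_image_of_injective _ hj]
    rfl
  let e : (univ \ univ.image j : Finset (Fin 8)) ≃ Fin 4 := Finset.equivFinOfCardEq h1
  refine ⟨fun s => (e.symm s : Fin 8), fun a b hab => e.symm.injective (Subtype.ext hab), ?_⟩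
  intro s t h
  have h2 := (e.symm s).2
  rw [Finset.mem_sdiff] at h2
  apply h2.2
  have h3 : (e.symm s : Fin 8) = j t := h
  rw [h3]
  exact Finset.mem_image_of_mem j (Finset.mem_univ t)

theorem sol_of_equiv {V ι : Type} {k : ℕ} (L : Fin k → V → V) (φ : ι ≃ Fin k)
    (M : ι → V → V) (h1 : ∀ a, PM (M a)) (h2 : ∀ a b, a ≠ b → ∀ x, M a x ≠ M b x)
    (h3 : ∀ a, Connected (L (φ a)) (M a)) : Sol L := by
  refine ⟨fun i => M (φ.symm i), fun i => h1 _, ?_, ?_⟩
  · intro i j hij
    exact h2 _ _ (fun h => hij (φ.symm.injective h))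
  · intro i
    have := h3 (φ.symm i)
    rw [Equiv.apply_symm_apply] at this
    exact this

theorem sol10 (L : Fin 8 → Fin 10 → Fin 10) (hL : ∀ i, PM (L i)) : Sol L := by
  classical
  by_cases h : 4 ≤ (univ.image L).card
  · obtain ⟨j, hj⟩ := exists_four L h
    have hji : Injective j := fun a b hab => hj (by simp only [hab])
    obtain ⟨k, hk, hkj⟩ := exists_compl j hji
    obtain ⟨M, M', g1, g2, g3, g4, g5, g6, g7⟩ := eightD (fun t => L (k t)) (fun t => L (j t))
      (fun t => hL _) (fun t => hL _) hj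
    have hinj : Injective (Sum.elim k j) := by
      intro a b hab
      rcases a with a | a <;> rcases b with b | b
      · simp only [Sum.elim_inl] at hab
        rw [hk hab]
      · simp only [Sum.elim_inl, Sum.elim_inr] at hab
        exact absurd hab (hkj a b)
      · simp only [Sum.elim_inl, Sum.elim_inr] at hab
        exact absurd hab.symm (hkj b a)
      · simp only [Sum.elim_inr] at hab
        rw [hji hab]
    have hbij : Bijective (Sum.elim k j) := by
      rw [Fintype.bijective_iff_injective_and_card]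
      refine ⟨hinj, by simp⟩
    refine sol_of_equiv L (Equiv.ofBijective _ hbij) (Sum.elim M M') ?_ ?_ ?_
    · rintro (a | a)
      · exact g1 a
      · exact g2 a
    · rintro (a | a) (b | b) hab x
      · exact g3 a b (fun h => hab (by rw [h])) x
      · exact g5 a b x
      · exact fun h => g5 b a x h.symm
      · exact g4 a b (fun h => hab (by rw [h])) x
    · rintro (a | a)
      · exact g6 a
      · exact g7 a
  · obtain ⟨T, f, hT, hf⟩ := exists_three L (by omega)
    have h1 : L = fun i => T (f i) := funext hf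
    rw [h1]
    refine sol_three p3 T ?_ f
    intro k
    obtain ⟨i, hi⟩ := hT k
    rw [hi]
    exact hL i

theorem SV10 : SV 10 8 := by
  intro V _ L hV hL
  let e : V ≃ Fin 10 := Fintype.equivFinOfCardEq hV
  show Sol L
  refine Sol.conj e ?_
  exact sol10 _ (fun i => PM_conj e (hL i))

end Pool.Agent.Lib.MP_fe131b_co.F5
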