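import Pool.Agent.Lib.MP_fe131b_co.F5.SA
import Pool.Agent.Lib.MP_fe131b_co.F5.D3
import Pool.Agent.Lib.MP_fe131b_co.F5.K3a
import Pool.Agent.Lib.MP_fe131b_co.F5.K3b
import Pool.Agent.Lib.MP_fe131b_co.F5.K3c
import Pool.Agent.Lib.MP_fe131b_co.F5.K3d

/-!
Ten points: eight labels.
-/

set_option autoImplicit false

namespace Pool.Agent.Lib.MP_fe131b_co.F5

open Pool.Agent.Lib.MP_fe131b_co.F4 Finset Function

theorem relab {fix : List ℕ} {xs : List (ℕ × ℕ)} (hfix : ∀ f ∈ fix, f < 945)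
    (h : relGo 10 945 40 CTB fix xs 0 = true) (hlen : xs.length = 945)
    {M : Fin 10 → Fin 10} (hM : PM M) :
    ∃ (e : Equiv.Perm (Fin 10)) (r : ℕ), r < 945 ∧ (∃ g, (g, r) ∈ xs) ∧
      (∀ f ∈ fix, (fun x => e (fn 10 (row CTB 40 f) (e.symm x))) = fn 10 (row CTB 40 f)) ∧
      (fun x => e (M (e.symm x))) = fn 10 (row CTB 40 r) := by
  have hfn : ∀ k < 945, PM (fn 10 (row CTB 40 k)) ∧
      Rep 10 (row CTB 40 k) (fn 10 (row CTB 40 k)) := by
    intro k hk
    obtain ⟨h1, h2⟩ := ctB k hk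
    rw [h2]
    exact okPM_sound (List.all_eq_true.1 okB _ (List.getElem_mem h1))
  obtain ⟨c, hc, hr⟩ := codeB M hM
  obtain ⟨i, hi, rfl⟩ := List.getElem_of_mem hc
  have hi' : i < 945 := lenB ▸ hi
  obtain ⟨h5, h6⟩ := ctB i hi'
  rw [← h6] at hr
  rw [← hlen] at hi'
  obtain ⟨h1, h2, h3, h4⟩ := relGo_sound 10 945 40 CTB fix xs 0 h i hi'
  rw [Nat.zero_add] at h4
  obtain ⟨e, he⟩ := okPerm_sound h2
  refine ⟨e, xs[i].2, h1, ⟨xs[i].1, List.getElem_mem hi'⟩, ?_, ?_⟩
  · intro f hf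
    exact okConj_sound he (hfn f (hfix f hf)).2 (hfn f (hfix f hf)).2 (h3 f hf)
  · exact okConj_sound he hr (hfn _ h1).2 h4

theorem p3E (p : List ℕ) (hp : p ∈ pats) (B : Fin 10 → Fin 10) (hB : PM B) :
    P3 10 p (fn 10 (row CTB 40 576)) B := by
  obtain ⟨e, r, hr, ⟨g, hg⟩, h1, h2⟩ := relab (by decide) okRelB lenRelB hB
  have h3 := h1 576 (by simp)
  refine P3.conj e ?_
  rw [h3, h2]
  have h4 := List.all_eq_true.1 tgtB _ hg
  obtain ⟨r', hr', h5⟩ := List.any_eq_true.1 h4
  have h6 : r' = r := Nat.eq_of_beq_eq_true h5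
  subst h6
  have hfn : ∀ k < 945, Rep 10 (row CTB 40 k) (fn 10 (row CTB 40 k)) := by
    intro k hk
    obtain ⟨h1, h2⟩ := ctB k hk
    rw [h2]
    exact (okPM_sound (List.all_eq_true.1 okB _ (List.getElem_mem h1))).2
  have hE : Rep 10 E10 (fn 10 (row CTB 40 576)) := by
    rw [← rowE]
    exact hfn _ (by norm_num)
  have hR := hfn r' hr
  simp only [List.mem_cons, List.not_mem_nil, or_false] at hr'
  simp only [pats, List.mem_cons, List.not_mem_nil, or_false] at hp
  rcases hr' with rfl | rfl | rfl | rfl | rfl | rfl | rfl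
  · rcases hp with rfl | rfl | rfl | rfl | rfl
    · exact chk3_sound (by norm_num) codeB k3_0_0 hE hR
    · exact chk3_sound (by norm_num) codeB k3_0_1 hE hR
    · exact chk3_sound (by norm_num) codeB k3_0_2 hE hR
    · exact chk3_sound (by norm_num) codeB k3_0_3 hE hR
    · exact chk3_sound (by norm_num) codeB k3_0_4 hE hR
  · rcases hp with rfl | rfl | rfl | rfl | rfl
    · exact chk3_sound (by norm_num) codeB k3_1_0 hE hR
    · exact chk3_sound (by norm_num) codeB k3_1_1 hE hR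
    · exact chk3_sound (by norm_num) codeB k3_1_2 hE hR
    · exact chk3_sound (by norm_num) codeB k3_1_3 hE hR
    · exact chk3_sound (by norm_num) codeB k3_1_4 hE hR
  · rcases hp with rfl | rfl | rfl | rfl | rfl
    · exact chk3_sound (by norm_num) codeB k3_2_0 hE hR
    · exact chk3_sound (by norm_num) codeB k3_2_1 hE hR
    · exact chk3_sound (by norm_num) codeB k3_2_2 hE hR
    · exact chk3_sound (by norm_num) codeB k3_2_3 hE hR
    · exact chk3_sound (by norm_num) codeB k3_2_4 hE hR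
  · rcases hp with rfl | rfl | rfl | rfl | rfl
    · exact chk3_sound (by norm_num) codeB k3_3_0 hE hR
    · exact chk3_sound (by norm_num) codeB k3_3_1 hE hR
    · exact chk3_sound (by norm_num) codeB k3_3_2 hE hR
    · exact chk3_sound (by norm_num) codeB k3_3_3 hE hR
    · exact chk3_sound (by norm_num) codeB k3_3_4 hE hR
  · rcases hp with rfl | rfl | rfl | rfl | rfl
    · exact chk3_sound (by norm_num) codeB k3_4_0 hE hR
    · exact chk3_sound (by norm_num) codeB k3_4_1 hE hR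
    · exact chk3_sound (by norm_num) codeB k3_4_2 hE hR
    · exact chk3_sound (by norm_num) codeB k3_4_3 hE hR
    · exact chk3_sound (by norm_num) codeB k3_4_4 hE hR
  · rcases hp with rfl | rfl | rfl | rfl | rfl
    · exact chk3_sound (by norm_num) codeB k3_5_0 hE hR
    · exact chk3_sound (by norm_num) codeB k3_5_1 hE hR
    · exact chk3_sound (by norm_num) codeB k3_5_2 hE hR
    · exact chk3_sound (by norm_num) codeB k3_5_3 hE hR
    · exact chk3_sound (by norm_num) codeB k3_5_4 hE hR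
  · rcases hp with rfl | rfl | rfl | rfl | rfl
    · exact chk3_sound (by norm_num) codeB k3_6_0 hE hR
    · exact chk3_sound (by norm_num) codeB k3_6_1 hE hR
    · exact chk3_sound (by norm_num) codeB k3_6_2 hE hR
    · exact chk3_sound (by norm_num) codeB k3_6_3 hE hR
    · exact chk3_sound (by norm_num) codeB k3_6_4 hE hR

theorem p3 (p : List ℕ) (hp : p ∈ pats) (A B : Fin 10 → Fin 10) (hA : PM A) (hB : PM B) :
    P3 10 p A B := by
  obtain ⟨e, r, hr, ⟨g, hg⟩, -, h2⟩ := relab (by decide) okRelA lenRelA hA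
  refine P3.conj e ?_
  rw [h2]
  have h4 := List.all_eq_true.1 tgtA _ hg
  have h6 : r = 576 := Nat.eq_of_beq_eq_true h4
  subst h6
  exact p3E p hp _ (PM_conj e hB)

end Pool.Agent.Lib.MP_fe131b_co.F5
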