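import Pool.Agent.Lib.MP_fe131b_co.F5.DB

/-!
Ten points, four different labels: kernel checks.
-/

set_option autoImplicit false

namespace Pool.Agent.Lib.MP_fe131b_co.F5

open Pool.Agent.Lib.MP_fe131b_co.F4

theorem pB0 : (allN 8 fun k => poolR 10 945 40 RB PCB TB pmsB (Nat.add 0 k)) = true := by
  decide +kernel

theorem pB8 : (allN 8 fun k => poolR 10 945 40 RB PCB TB pmsB (Nat.add 8 k)) = true := by
  decide +kernel

theorem pB16 : (allN 8 fun k => poolR 10 945 40 RB PCB TB pmsB (Nat.add 16 k)) = true := by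
  decide +kernel

theorem pB24 : (allN 8 fun k => poolR 10 945 40 RB PCB TB pmsB (Nat.add 24 k)) = true := by
  decide +kernel

end Pool.Agent.Lib.MP_fe131b_co.F5
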