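import Pool.Agent.Lib.MP_fe131b_co.F5.DB
import Pool.Agent.Lib.MP_fe131b_co.F5.Chk5
import Pool.Agent.Lib.MP_fe131b_co.F4.D10

/-!
Ten points, four different labels: kernel checks of the solutions.
-/

set_option autoImplicit false

namespace Pool.Agent.Lib.MP_fe131b_co.F5

open Pool.Agent.Lib.MP_fe131b_co.F4

def IXB : ℕ := 0x1ffd3f47d5f07d5bade8fa7d3b06d7dfed57670bd5f1bc1fb7c1ea7daf99cef33e875feaf95f277be1f67e0f5bdaec5f0fb3d4fc7e1e4bf2fc5aefcfd4e77c6e4ff378748f579ee8bc2ec994d4f88e9dcff3baa7a9ace99a9e6b49f0759e77b368bb6f5757ecd53d8730e6b31547ede838fea949e5729dab93ca5d2e478ce5328f0716e6fe0ddfe1b7b725c52eecfa0c7b3776fa1ae5c7f5b40f1b55b0b54b4ec8d2fcdf43d1d4b45f8b5cfcba3fdb9ce777348b31e7723ec36f7e3f0cbdb8ec75db8f5dacce2b8f36d7362a7332d4712c178be3790e5293a2306c5682c1f96c039bd8679682debddb13bb73d861eac91bc82b7eb9ecdadedd6ad7d6aac763d7cafd9d6399cb5dcbdb23b5ae0966d597a48b436be433755ec5dbff46e1f45d35fdd3305d7babe7faad75fce1ad6df40ddf2086ee07b711b2f6e62f11a6e80c5a9ca172067a374dad585e90b42abd22a3a668af13e7f2ecdd426763f4ed3b2863343f2ba6f8e46badb1c76638525d81aaccc6d48b94ba2e5083ae7ea14fc2b4cc3704e3a8b89d43e9b8a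ccb1c98a40bdeed50af238a08966637cf18de3766bfb65e1744bf5fbd5364d71fae13a6e6faf91ed49180a5a47d6601b2766d0f4aba398c93c7c89f956e617e52361a6b5dcc5b5e73be318b2709bad1194ac5a2a84d9f57895aad62a4ea36261ef93c2ef5e2d687205985b2b4a9b8025182203c1626597e4d0682a954680204c1ea4526b0abd38a45db701d298572a15d6771f921e625e979aebb5b7e7837e353d8f82d0efcd8afbd868c6264c4592815977ab2542a67c12c99acc986233ae25b685391dc97615635ac867893901e24ba2d87019661de6c2a03b65c97066d391243e2186ce72971a2365a3421f2288829dead2014540e88694c4a2581819a640a0769780490a4ac69d78ccb7b90b651ecbc6465519d6ac4648cb5a7df81ea79eea34bc1359d0b4a7dafad07809ac3929cb536d073a4cba12743a0fb1267b2999521631815e7dc506af105da97555dc514d6500d156d779811b42d0b3b8e03452dbde002b44525d370713698c2bb411037988455a02651649e8e7408489cca5328e6a0cda0e0fa2ca6a291d5cca21806da44f126a70984d39cc573557687d752d8349c0f58eb3a2e9351c0b507d348d019305c955153820e9c6a263a92caa8cf939672c842788311bb338551e520b3084937750635132849e11c81e484143c62c9c430869e0058d9294aab5c82654c6232682391a698a9bb6416056aaa69524994258a96320f84d814a8912a2894365351d5e369525baec6bcdb3361d36142570f9dc06f9c03a17cfa0ec3997cb9c7c7987c2f8ae8c711cc6a5437a52c5974f7b88f697036119e235dc2692c461134ba824749b235af21d124704d578423351234cdd168ee9bc6c36c47360c45316b996cf5112933d0c4b0a5aa4ae10d434489a2782f0741c0b04d334ae8089326c1821c83304e412066124c2196471004431864994451b82d8b42c868591682c060590ae17160170ac101a04a338cc39a4f3344329c4b13884228a79544f258699a4689a853104941444c248492aa5603c550044c1aa2a0502984c120a4110246882868040031386783c270380d0104c02c0a09a090980801c0601425810030082500400092240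

def OHB : ℕ := 0x10002000800100004004000800020010002000010000200200004008002000001004001000008000800020001002000400004020000100100008000400002000102000008000400200010010000800008000200040020004000010200008001000010004000020004020000080001002000800100001000010010000400200040010000020080000802000010000100040002000802000020008000400100004000010008020000020004008000100020010000020004000100100008004000200100020000800008001000010004000201000200004000200080000800800100000200040001020000200040001000400004002002000080000100020100000800100002008001000020004000040001001002000008000100020004001000080040002000800100020000010002000800200040000400800010010002000010000200010004000802000020004001000080000800020001001000040040020000200100008000080002002000040080000102000040010000100040000200080200000400010080002001000010001000020004002000400200000100800100000800400002002002000080000400010010010000080001001000080004000201000080004000200200000100040020001000800040000201000008020000010010002000040080010000020040000802000010000100080002000402000080002000400100001000010008000400020200008000400020010000020004002000100080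004000010100020000080002008001000010000400400001002002000008001000800100000200040200000100200040000800010080010000020008000400200010004002000008000100200002008000040200001000400100000800010004001000020040020000800020010000100004000100200040020000020100000800800040001000010200000401000002002000080080000200040008002000400001008001000200001000020080010000040008000100200040020000100040001000040200000201000001008000200008000100100008000200040100008000200040020000010004000800100002004000800100002002000001008001000010000400400002002000080200000200010008001000040040008000200200010000100001002000040080020000020040000801000002001000200004008001000001004002000008001000040020000200800200000101000040000800100080010000040002020000010040002000080001001000040002000801000020008000400200000100800100002000400004000200100008020000020001000400100008004000200080020001000002000100080020004000040080001002000100001000010004002000400200000200800008010000400001002002000080000400020010000801000002001000010004000801000020004002000080001000040001000200080200002001000040008000080010000100020004010002000020004000800008000400010010000200400200010000200080000800040020000200800001020001000040001000400004000802000002000100800100002000100008008001000004000200010200004000200010004000800100020000040001000200200008001000020010000400200040010000010080020000080040008001000200000200040001001000200008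

theorem lenB : pmsB.length = 945 := by decide +kernel

theorem ctGoB : ctGo 40 CTB pmsB 0 = true := by decide +kernel

theorem ctB : ∀ k < 945, ∃ h : k < pmsB.length, row CTB 40 k = pmsB[k] := by
  intro k hk
  refine ⟨lenB ▸ hk, ?_⟩
  have := ctGo_sound 40 CTB pmsB 0 ctGoB k (lenB ▸ hk)
  rw [Nat.zero_add] at this
  exact this

theorem subB : subGo 40 CTB 945 IXB pms10 0 = true := by decide +kernel

theorem gen_sub : (pms10.all fun c => pmsB.any fun c' => Nat.beq c' c) = true := by
  rw [List.all_eq_true]
  intro c hc
  obtain ⟨j, hj, h⟩ := subGo_sound 40 CTB 945 IXB pms10 0 subB c hc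
  obtain ⟨h1, h2⟩ := ctB j hj
  rw [List.any_eq_true]
  exact ⟨pmsB[j], List.getElem_mem h1, by rw [← h2, h]; exact Nat.beq_refl c⟩

theorem ohB : okOH 10 62 160 OHB 40 PCB = true := by decide +kernel

theorem fB0 : chkF 62 945 160 OHB TB 0 eB0 = true := by decide +kernel

theorem fB16 : chkF 62 945 160 OHB TB 16 eB16 = true := by decide +kernel

theorem fB32 : chkF 62 945 160 OHB TB 32 eB32 = true := by decide +kernel

theorem fB48 : chkF 62 945 160 OHB TB 48 eB48 = true := by decide +kernel

theorem fB64 : chkF 62 945 160 OHB TB 64 eB64 = true := by decide +kernel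

theorem fB80 : chkF 62 945 160 OHB TB 80 eB80 = true := by decide +kernel

theorem fB96 : chkF 62 945 160 OHB TB 96 eB96 = true := by decide +kernel

theorem fB112 : chkF 62 945 160 OHB TB 112 eB112 = true := by decide +kernel

theorem fB128 : chkF 62 945 160 OHB TB 128 eB128 = true := by decide +kernel

theorem fB144 : chkF 62 945 160 OHB TB 144 eB144 = true := by decide +kernel

theorem fB160 : chkF 62 945 160 OHB TB 160 eB160 = true := by decide +kernel

theorem fB176 : chkF 62 945 160 OHB TB 176 eB176 = true := by decide +kernel

theorem fB192 : chkF 62 945 160 OHB TB 192 eB192 = true := by decide +kernel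

theorem fB208 : chkF 62 945 160 OHB TB 208 eB208 = true := by decide +kernel

theorem fB224 : chkF 62 945 160 OHB TB 224 eB224 = true := by decide +kernel

theorem fB240 : chkF 62 945 160 OHB TB 240 eB240 = true := by decide +kernel

theorem fB256 : chkF 62 945 160 OHB TB 256 eB256 = true := by decide +kernel

theorem fB272 : chkF 62 945 160 OHB TB 272 eB272 = true := by decide +kernel

theorem fB288 : chkF 62 945 160 OHB TB 288 eB288 = true := by decide +kernel

theorem fB304 : chkF 62 945 160 OHB TB 304 eB304 = true := by decide +kernel

theorem fB320 : chkF 62 945 160 OHB TB 320 eB320 = true := by decide +kernel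

theorem fB336 : chkF 62 945 160 OHB TB 336 eB336 = true := by decide +kernel

theorem fB352 : chkF 62 945 160 OHB TB 352 eB352 = true := by decide +kernel

theorem fB368 : chkF 62 945 160 OHB TB 368 eB368 = true := by decide +kernel

theorem fB384 : chkF 62 945 160 OHB TB 384 eB384 = true := by decide +kernel

theorem fB400 : chkF 62 945 160 OHB TB 400 eB400 = true := by decide +kernel

theorem fB416 : chkF 62 945 160 OHB TB 416 eB416 = true := by decide +kernel

theorem fB432 : chkF 62 945 160 OHB TB 432 eB432 = true := by decide +kernel

theorem fB448 : chkF 62 945 160 OHB TB 448 eB448 = true := by decide +kernel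

theorem fB464 : chkF 62 945 160 OHB TB 464 eB464 = true := by decide +kernel

theorem fB480 : chkF 62 945 160 OHB TB 480 eB480 = true := by decide +kernel

theorem fB496 : chkF 62 945 160 OHB TB 496 eB496 = true := by decide +kernel

theorem fB512 : chkF 62 945 160 OHB TB 512 eB512 = true := by decide +kernel

theorem fB528 : chkF 62 945 160 OHB TB 528 eB528 = true := by decide +kernel

theorem fB544 : chkF 62 945 160 OHB TB 544 eB544 = true := by decide +kernel

theorem fB560 : chkF 62 945 160 OHB TB 560 eB560 = true := by decide +kernel

theorem fB576 : chkF 62 945 160 OHB TB 576 eB576 = true := by decide +kernel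

theorem fB584 : chkF 62 945 160 OHB TB 584 eB584 = true := by decide +kernel

theorem fB592 : chkF 62 945 160 OHB TB 592 eB592 = true := by decide +kernel

theorem fB600 : chkF 62 945 160 OHB TB 600 eB600 = true := by decide +kernel

theorem fB608 : chkF 62 945 160 OHB TB 608 eB608 = true := by decide +kernel

theorem fB616 : chkF 62 945 160 OHB TB 616 eB616 = true := by decide +kernel

theorem fB624 : chkF 62 945 160 OHB TB 624 eB624 = true := by decide +kernel

theorem fB632 : chkF 62 945 160 OHB TB 632 eB632 = true := by decide +kernel

theorem fB640 : chkF 62 945 160 OHB TB 640 eB640 = true := by decide +kernel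

theorem fB648 : chkF 62 945 160 OHB TB 648 eB648 = true := by decide +kernel

theorem fB656 : chkF 62 945 160 OHB TB 656 eB656 = true := by decide +kernel

theorem fB664 : chkF 62 945 160 OHB TB 664 eB664 = true := by decide +kernel

theorem fB672 : chkF 62 945 160 OHB TB 672 eB672 = true := by decide +kernel

theorem fB680 : chkF 62 945 160 OHB TB 680 eB680 = true := by decide +kernel

theorem fB688 : chkF 62 945 160 OHB TB 688 eB688 = true := by decide +kernel

theorem fB696 : chkF 62 945 160 OHB TB 696 eB696 = true := by decide +kernel

theorem fB704 : chkF 62 945 160 OHB TB 704 eB704 = true := by decide +kernel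

theorem fB712 : chkF 62 945 160 OHB TB 712 eB712 = true := by decide +kernel

theorem fB720 : chkF 62 945 160 OHB TB 720 eB720 = true := by decide +kernel

theorem fB728 : chkF 62 945 160 OHB TB 728 eB728 = true := by decide +kernel

theorem fB736 : chkF 62 945 160 OHB TB 736 eB736 = true := by decide +kernel

theorem fB744 : chkF 62 945 160 OHB TB 744 eB744 = true := by decide +kernel

theorem fB752 : chkF 62 945 160 OHB TB 752 eB752 = true := by decide +kernel

theorem fB760 : chkF 62 945 160 OHB TB 760 eB760 = true := by decide +kernel

theorem fB768 : chkF 62 945 160 OHB TB 768 eB768 = true := by decide +kernel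

theorem fB776 : chkF 62 945 160 OHB TB 776 eB776 = true := by decide +kernel

theorem fB784 : chkF 62 945 160 OHB TB 784 eB784 = true := by decide +kernel

theorem fB792 : chkF 62 945 160 OHB TB 792 eB792 = true := by decide +kernel

theorem fB800 : chkF 62 945 160 OHB TB 800 eB800 = true := by decide +kernel

theorem fB808 : chkF 62 945 160 OHB TB 808 eB808 = true := by decide +kernel

theorem fB816 : chkF 62 945 160 OHB TB 816 eB816 = true := by decide +kernel

theorem fB824 : chkF 62 945 160 OHB TB 824 eB824 = true := by decide +kernel

theorem fB832 : chkF 62 945 160 OHB TB 832 eB832 = true := by decide +kernel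

theorem fB840 : chkF 62 945 160 OHB TB 840 eB840 = true := by decide +kernel

theorem fB848 : chkF 62 945 160 OHB TB 848 eB848 = true := by decide +kernel

theorem fB856 : chkF 62 945 160 OHB TB 856 eB856 = true := by decide +kernel

theorem fB864 : chkF 62 945 160 OHB TB 864 eB864 = true := by decide +kernel

theorem fB872 : chkF 62 945 160 OHB TB 872 eB872 = true := by decide +kernel

theorem fB880 : chkF 62 945 160 OHB TB 880 eB880 = true := by decide +kernel

theorem fB888 : chkF 62 945 160 OHB TB 888 eB888 = true := by decide +kernel

theorem fB896 : chkF 62 945 160 OHB TB 896 eB896 = true := by decide +kernel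

theorem fB904 : chkF 62 945 160 OHB TB 904 eB904 = true := by decide +kernel

theorem fB912 : chkF 62 945 160 OHB TB 912 eB912 = true := by decide +kernel

theorem fB920 : chkF 62 945 160 OHB TB 920 eB920 = true := by decide +kernel

theorem fB924 : chkF 62 945 160 OHB TB 924 eB924 = true := by decide +kernel

theorem fB928 : chkF 62 945 160 OHB TB 928 eB928 = true := by decide +kernel

theorem fB932 : chkF 62 945 160 OHB TB 932 eB932 = true := by decide +kernel

theorem fB936 : chkF 62 945 160 OHB TB 936 eB936 = true := by decide +kernel

theorem fB940 : chkF 62 945 160 OHB TB 940 eB940 = true := by decide +kernel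

theorem fB942 : chkF 62 945 160 OHB TB 942 eB942 = true := by decide +kernel

theorem fB944 : chkF 62 945 160 OHB TB 944 eB944 = true := by decide +kernel

theorem chkB : (repsB.all fun r => chk5 10 62 945 40 PCB TB r.1 r.2) = true := by
  rw [List.all_eq_true]
  intro r hr
  simp only [repsB, List.mem_cons, List.not_mem_nil, or_false] at hr
  rcases hr with rfl | rfl | rfl | rfl | rfl | rfl | rfl | rfl | rfl | rfl | rfl | rfl | rfl | rfl | rfl | rfl | rfl | rfl | rfl | rfl | rfl | rfl | rfl | rfl | rfl | rfl | rfl | rfl | rfl | rfl | rfl | rfl | rfl | rfl | rfl | rfl | rfl | rfl | rfl | rfl | rfl | rfl | rfl | rfl | rfl | rfl | rfl | rfl | rfl | rfl | rfl | rfl | rfl | rfl | rfl | rfl | rfl | rfl | rfl | rfl | rfl | rfl | rfl | rfl | rfl | rfl | rfl | rfl | rfl | rfl | rfl | rfl | rfl | rfl | rfl | rfl | rfl | rfl | rfl | rfl | rfl | rfl | rfl | rfl | rfl | rfl | rfl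
  · exact chk5_of_chkF ohB fB0
  · exact chk5_of_chkF ohB fB16
  · exact chk5_of_chkF ohB fB32
  · exact chk5_of_chkF ohB fB48
  · exact chk5_of_chkF ohB fB64
  · exact chk5_of_chkF ohB fB80
  · exact chk5_of_chkF ohB fB96
  · exact chk5_of_chkF ohB fB112
  · exact chk5_of_chkF ohB fB128
  · exact chk5_of_chkF ohB fB144
  · exact chk5_of_chkF ohB fB160
  · exact chk5_of_chkF ohB fB176
  · exact chk5_of_chkF ohB fB192
  · exact chk5_of_chkF ohB fB208
  · exact chk5_of_chkF ohB fB224
  · exact chk5_of_chkF ohB fB240
  · exact chk5_of_chkF ohB fB256
  · exact chk5_of_chkF ohB fB272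
  · exact chk5_of_chkF ohB fB288
  · exact chk5_of_chkF ohB fB304
  · exact chk5_of_chkF ohB fB320
  · exact chk5_of_chkF ohB fB336
  · exact chk5_of_chkF ohB fB352
  · exact chk5_of_chkF ohB fB368
  · exact chk5_of_chkF ohB fB384
  · exact chk5_of_chkF ohB fB400
  · exact chk5_of_chkF ohB fB416
  · exact chk5_of_chkF ohB fB432
  · exact chk5_of_chkF ohB fB448
  · exact chk5_of_chkF ohB fB464
  · exact chk5_of_chkF ohB fB480
  · exact chk5_of_chkF ohB fB496
  · exact chk5_of_chkF ohB fB512
  · exact chk5_of_chkF ohB fB528
  · exact chk5_of_chkF ohB fB544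
  · exact chk5_of_chkF ohB fB560
  · exact chk5_of_chkF ohB fB576
  · exact chk5_of_chkF ohB fB584
  · exact chk5_of_chkF ohB fB592
  · exact chk5_of_chkF ohB fB600
  · exact chk5_of_chkF ohB fB608
  · exact chk5_of_chkF ohB fB616
  · exact chk5_of_chkF ohB fB624
  · exact chk5_of_chkF ohB fB632
  · exact chk5_of_chkF ohB fB640
  · exact chk5_of_chkF ohB fB648
  · exact chk5_of_chkF ohB fB656
  · exact chk5_of_chkF ohB fB664
  · exact chk5_of_chkF ohB fB672
  · exact chk5_of_chkF ohB fB680
  · exact chk5_of_chkF ohB fB688
  · exact chk5_of_chkF ohB fB696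
  · exact chk5_of_chkF ohB fB704
  · exact chk5_of_chkF ohB fB712
  · exact chk5_of_chkF ohB fB720
  · exact chk5_of_chkF ohB fB728
  · exact chk5_of_chkF ohB fB736
  · exact chk5_of_chkF ohB fB744
  · exact chk5_of_chkF ohB fB752
  · exact chk5_of_chkF ohB fB760
  · exact chk5_of_chkF ohB fB768
  · exact chk5_of_chkF ohB fB776
  · exact chk5_of_chkF ohB fB784
  · exact chk5_of_chkF ohB fB792
  · exact chk5_of_chkF ohB fB800
  · exact chk5_of_chkF ohB fB808
  · exact chk5_of_chkF ohB fB816
  · exact chk5_of_chkF ohB fB824
  · exact chk5_of_chkF ohB fB832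
  · exact chk5_of_chkF ohB fB840
  · exact chk5_of_chkF ohB fB848
  · exact chk5_of_chkF ohB fB856
  · exact chk5_of_chkF ohB fB864
  · exact chk5_of_chkF ohB fB872
  · exact chk5_of_chkF ohB fB880
  · exact chk5_of_chkF ohB fB888
  · exact chk5_of_chkF ohB fB896
  · exact chk5_of_chkF ohB fB904
  · exact chk5_of_chkF ohB fB912
  · exact chk5_of_chkF ohB fB920
  · exact chk5_of_chkF ohB fB924
  · exact chk5_of_chkF ohB fB928
  · exact chk5_of_chkF ohB fB932
  · exact chk5_of_chkF ohB fB936
  · exact chk5_of_chkF ohB fB940
  · exact chk5_of_chkF ohB fB942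
  · exact chk5_of_chkF ohB fB944

end Pool.Agent.Lib.MP_fe131b_co.F5
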