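import Pool.Agent.Lib.MP_fe131b_co.F5.DB

/-!
Ten points, four different labels: kernel checks.
-/

set_option autoImplicit false

namespace Pool.Agent.Lib.MP_fe131b_co.F5

theorem gB16 : covG 945 17 TB eB16 tB16 zB16 = true := by
  decide +kernel

theorem gB208 : covG 945 209 TB eB208 tB208 zB208 = true := by
  decide +kernel

theorem gB368 : covG 945 369 TB eB368 tB368 zB368 = true := by
  decide +kernel

theorem gB416 : covG 945 417 TB eB416 tB416 zB416 = true := by
  decide +kernel

theorem gB560 : covG 945 561 TB eB560 tB560 zB560 = true := by
  decide +kernel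

theorem gB648 : covG 945 649 TB eB648 tB648 zB648 = true := by
  decide +kernel

theorem gB704 : covG 945 705 TB eB704 tB704 zB704 = true := by
  decide +kernel

theorem gB768 : covG 945 769 TB eB768 tB768 zB768 = true := by
  decide +kernel

theorem gB808 : covG 945 809 TB eB808 tB808 zB808 = true := by
  decide +kernel

theorem gB864 : covG 945 865 TB eB864 tB864 zB864 = true := by
  decide +kernel

end Pool.Agent.Lib.MP_fe131b_co.F5
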