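import Pool.Agent.Lib.MP_fe131b_co.F5.DB

/-!
Ten points, four different labels: kernel checks.
-/

set_option autoImplicit false

namespace Pool.Agent.Lib.MP_fe131b_co.F5

theorem gB0 : covG 945 1 TB eB0 tB0 zB0 = true := by
  decide +kernel

theorem gB224 : covG 945 225 TB eB224 tB224 zB224 = true := by
  decide +kernel

theorem gB352 : covG 945 353 TB eB352 tB352 zB352 = true := by
  decide +kernel

theorem gB400 : covG 945 401 TB eB400 tB400 zB400 = true := by
  decide +kernel

theorem gB600 : covG 945 601 TB eB600 tB600 zB600 = true := by
  decide +kernel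

theorem gB624 : covG 945 625 TB eB624 tB624 zB624 = true := by
  decide +kernel

theorem gB712 : covG 945 713 TB eB712 tB712 zB712 = true := by
  decide +kernel

theorem gB736 : covG 945 737 TB eB736 tB736 zB736 = true := by
  decide +kernel

theorem gB824 : covG 945 825 TB eB824 tB824 zB824 = true := by
  decide +kernel

theorem gB872 : covG 945 873 TB eB872 tB872 zB872 = true := by
  decide +kernel

theorem gB904 : covG 945 905 TB eB904 tB904 zB904 = true := by
  decide +kernel

end Pool.Agent.Lib.MP_fe131b_co.F5
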