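import Pool.Agent.Lib.MP_fe131b_co.F5.DB

/-!
Ten points, four different labels: kernel checks.
-/

set_option autoImplicit false

namespace Pool.Agent.Lib.MP_fe131b_co.F5

theorem gB32 : covG 945 33 TB eB32 tB32 zB32 = true := by
  decide +kernel

theorem gB256 : covG 945 257 TB eB256 tB256 zB256 = true := by
  decide +kernel

theorem gB336 : covG 945 337 TB eB336 tB336 zB336 = true := by
  decide +kernel

theorem gB384 : covG 945 385 TB eB384 tB384 zB384 = true := by
  decide +kernel

theorem gB608 : covG 945 609 TB eB608 tB608 zB608 = true := by
  decide +kernel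

theorem gB640 : covG 945 641 TB eB640 tB640 zB640 = true := by
  decide +kernel

theorem gB696 : covG 945 697 TB eB696 tB696 zB696 = true := by
  decide +kernel

theorem gB744 : covG 945 745 TB eB744 tB744 zB744 = true := by
  decide +kernel

theorem gB832 : covG 945 833 TB eB832 tB832 zB832 = true := by
  decide +kernel

theorem gB880 : covG 945 881 TB eB880 tB880 zB880 = true := by
  decide +kernel

theorem gB912 : covG 945 913 TB eB912 tB912 zB912 = true := by
  decide +kernel

theorem gB936 : covG 945 937 TB eB936 tB936 zB936 = true := by
  decide +kernel

theorem gB940 : covG 945 941 TB eB940 tB940 zB940 = true := by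
  decide +kernel

end Pool.Agent.Lib.MP_fe131b_co.F5
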