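import Pool.Agent.Lib.MP_fe131b_co.F5.DB

/-!
Ten points, four different labels: kernel checks.
-/

set_option autoImplicit false

namespace Pool.Agent.Lib.MP_fe131b_co.F5

theorem gB96 : covG 945 97 TB eB96 tB96 zB96 = true := by
  decide +kernel

theorem gB192 : covG 945 193 TB eB192 tB192 zB192 = true := by
  decide +kernel

theorem gB272 : covG 945 273 TB eB272 tB272 zB272 = true := by
  decide +kernel

theorem gB464 : covG 945 465 TB eB464 tB464 zB464 = true := by
  decide +kernel

theorem gB512 : covG 945 513 TB eB512 tB512 zB512 = true := by
  decide +kernel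

theorem gB664 : covG 945 665 TB eB664 tB664 zB664 = true := by
  decide +kernel

theorem gB720 : covG 945 721 TB eB720 tB720 zB720 = true := by
  decide +kernel

theorem gB848 : covG 945 849 TB eB848 tB848 zB848 = true := by
  decide +kernel

theorem gB924 : covG 945 925 TB eB924 tB924 zB924 = true := by
  decide +kernel

theorem gB932 : covG 945 933 TB eB932 tB932 zB932 = true := by
  decide +kernel

end Pool.Agent.Lib.MP_fe131b_co.F5
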