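import Pool.Agent.Lib.MP_fe131b_co.F5.SG0
import Pool.Agent.Lib.MP_fe131b_co.F5.DB

/-!
Ten points, four different labels: kernel checks.
-/

set_option autoImplicit false

namespace Pool.Agent.Lib.MP_fe131b_co.F5

theorem gB80 : covG 945 81 TB eB80 tB80 zB80 = true := by
  decide +kernel

theorem gB144 : covG 945 145 TB eB144 tB144 zB144 = true := by
  decide +kernel

theorem gB320 : covG 945 321 TB eB320 tB320 zB320 = true := by
  decide +kernel

theorem gB432 : covG 945 433 TB eB432 tB432 zB432 = true := by
  decide +kernel

theorem gB592 : covG 945 593 TB eB592 tB592 zB592 = true := by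
  decide +kernel

theorem gB616 : covG 945 617 TB eB616 tB616 zB616 = true := by
  decide +kernel

theorem gB672 : covG 945 673 TB eB672 tB672 zB672 = true := by
  decide +kernel

theorem gB776 : covG 945 777 TB eB776 tB776 zB776 = true := by
  decide +kernel

theorem gB816 : covG 945 817 TB eB816 tB816 zB816 = true := by
  decide +kernel

theorem gB856 : covG 945 857 TB eB856 tB856 zB856 = true := by
  decide +kernel

end Pool.Agent.Lib.MP_fe131b_co.F5
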