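import Pool.Agent.Lib.MP_fe131b_co.F5.SG1
import Pool.Agent.Lib.MP_fe131b_co.F5.DB

/-!
Ten points, four different labels: kernel checks.
-/

set_option autoImplicit false

namespace Pool.Agent.Lib.MP_fe131b_co.F5

theorem gB48 : covG 945 49 TB eB48 tB48 zB48 = true := by
  decide +kernel

theorem gB112 : covG 945 113 TB eB112 tB112 zB112 = true := by
  decide +kernel

theorem gB304 : covG 945 305 TB eB304 tB304 zB304 = true := by
  decide +kernel

theorem gB448 : covG 945 449 TB eB448 tB448 zB448 = true := by
  decide +kernel

theorem gB544 : covG 945 545 TB eB544 tB544 zB544 = true := by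
  decide +kernel

theorem gB632 : covG 945 633 TB eB632 tB632 zB632 = true := by
  decide +kernel

theorem gB688 : covG 945 689 TB eB688 tB688 zB688 = true := by
  decide +kernel

theorem gB760 : covG 945 761 TB eB760 tB760 zB760 = true := by
  decide +kernel

theorem gB792 : covG 945 793 TB eB792 tB792 zB792 = true := by
  decide +kernel

end Pool.Agent.Lib.MP_fe131b_co.F5
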