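import Pool.Agent.Lib.MP_fe131b_co.F5.SG2
import Pool.Agent.Lib.MP_fe131b_co.F5.DB

/-!
Ten points, four different labels: kernel checks.
-/

set_option autoImplicit false

namespace Pool.Agent.Lib.MP_fe131b_co.F5

theorem gB64 : covG 945 65 TB eB64 tB64 zB64 = true := by
  decide +kernel

theorem gB160 : covG 945 161 TB eB160 tB160 zB160 = true := by
  decide +kernel

theorem gB288 : covG 945 289 TB eB288 tB288 zB288 = true := by
  decide +kernel

theorem gB480 : covG 945 481 TB eB480 tB480 zB480 = true := by
  decide +kernel

theorem gB528 : covG 945 529 TB eB528 tB528 zB528 = true := by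
  decide +kernel

theorem gB656 : covG 945 657 TB eB656 tB656 zB656 = true := by
  decide +kernel

theorem gB728 : covG 945 729 TB eB728 tB728 zB728 = true := by
  decide +kernel

theorem gB784 : covG 945 785 TB eB784 tB784 zB784 = true := by
  decide +kernel

theorem gB840 : covG 945 841 TB eB840 tB840 zB840 = true := by
  decide +kernel

theorem gB896 : covG 945 897 TB eB896 tB896 zB896 = true := by
  decide +kernel

end Pool.Agent.Lib.MP_fe131b_co.F5
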