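import Pool.Agent.Lib.MP_fe131b_co.F5.SG3
import Pool.Agent.Lib.MP_fe131b_co.F5.DB

/-!
Ten points, four different labels: kernel checks.
-/

set_option autoImplicit false

namespace Pool.Agent.Lib.MP_fe131b_co.F5

theorem gB128 : covG 945 129 TB eB128 tB128 zB128 = true := by
  decide +kernel

theorem gB176 : covG 945 177 TB eB176 tB176 zB176 = true := by
  decide +kernel

theorem gB240 : covG 945 241 TB eB240 tB240 zB240 = true := by
  decide +kernel

theorem gB496 : covG 945 497 TB eB496 tB496 zB496 = true := by
  decide +kernel

theorem gB576 : covG 945 577 TB eB576 tB576 zB576 = true := by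
  decide +kernel

theorem gB584 : covG 945 585 TB eB584 tB584 zB584 = true := by
  decide +kernel

theorem gB680 : covG 945 681 TB eB680 tB680 zB680 = true := by
  decide +kernel

theorem gB752 : covG 945 753 TB eB752 tB752 zB752 = true := by
  decide +kernel

theorem gB800 : covG 945 801 TB eB800 tB800 zB800 = true := by
  decide +kernel

theorem gB888 : covG 945 889 TB eB888 tB888 zB888 = true := by
  decide +kernel

theorem gB920 : covG 945 921 TB eB920 tB920 zB920 = true := by
  decide +kernel

theorem gB928 : covG 945 929 TB eB928 tB928 zB928 = true := by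
  decide +kernel

end Pool.Agent.Lib.MP_fe131b_co.F5
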