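import Pool.Agent.Lib.MP_fe131b_co.F4.S10
import Pool.Agent.Lib.MP_fe131b_co.F5.SG0
import Pool.Agent.Lib.MP_fe131b_co.F5.SG1
import Pool.Agent.Lib.MP_fe131b_co.F5.SG2
import Pool.Agent.Lib.MP_fe131b_co.F5.SG3
import Pool.Agent.Lib.MP_fe131b_co.F5.SG4
import Pool.Agent.Lib.MP_fe131b_co.F5.SG5
import Pool.Agent.Lib.MP_fe131b_co.F5.SG6
import Pool.Agent.Lib.MP_fe131b_co.F5.SG7
import Pool.Agent.Lib.MP_fe131b_co.F5.SBx
import Pool.Agent.Lib.MP_fe131b_co.F5.SBp0
import Pool.Agent.Lib.MP_fe131b_co.F5.SBp1

/-!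
Ten points: four different labels are completed outside the graph.
-/

set_option autoImplicit false

namespace Pool.Agent.Lib.MP_fe131b_co.F5

open Pool.Agent.Lib.MP_fe131b_co.F4 Finset Function

theorem codeB (M : Fin 10 → Fin 10) (hM : PM M) : ∃ c ∈ pmsB, Rep 10 c M := by
  obtain ⟨c, hc, hr⟩ := code10 M hM
  obtain ⟨c', h1, h2⟩ := List.any_eq_true.1 (List.all_eq_true.1 gen_sub c hc)
  rw [← Nat.eq_of_beq_eq_true h2] at hr
  exact ⟨c', h1, hr⟩

theorem poolB : ∀ i < 62, poolR 10 945 40 RB PCB TB pmsB i = true := by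
  intro i hi
  by_cases c0 : i < 8
  · have h := (allN_iff _ _).1 pB0 (i - 0) (by omega)
    have e : Nat.add 0 (i - 0) = i := Nat.add_sub_cancel' (by omega)
    rw [e] at h
    exact h
  by_cases c8 : i < 16
  · have h := (allN_iff _ _).1 pB8 (i - 8) (by omega)
    have e : Nat.add 8 (i - 8) = i := Nat.add_sub_cancel' (by omega)
    rw [e] at h
    exact h
  by_cases c16 : i < 24
  · have h := (allN_iff _ _).1 pB16 (i - 16) (by omega)
    have e : Nat.add 16 (i - 16) = i := Nat.add_sub_cancel' (by omega)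
    rw [e] at h
    exact h
  by_cases c24 : i < 32
  · have h := (allN_iff _ _).1 pB24 (i - 24) (by omega)
    have e : Nat.add 24 (i - 24) = i := Nat.add_sub_cancel' (by omega)
    rw [e] at h
    exact h
  by_cases c32 : i < 40
  · have h := (allN_iff _ _).1 pB32 (i - 32) (by omega)
    have e : Nat.add 32 (i - 32) = i := Nat.add_sub_cancel' (by omega)
    rw [e] at h
    exact h
  by_cases c40 : i < 48
  · have h := (allN_iff _ _).1 pB40 (i - 40) (by omega)
    have e : Nat.add 40 (i - 40) = i := Nat.add_sub_cancel' (by omega)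
    rw [e] at h
    exact h
  by_cases c48 : i < 56
  · have h := (allN_iff _ _).1 pB48 (i - 48) (by omega)
    have e : Nat.add 48 (i - 48) = i := Nat.add_sub_cancel' (by omega)
    rw [e] at h
    exact h
  by_cases c56 : i < 62
  · have h := (allN_iff _ _).1 pB56 (i - 56) (by omega)
    have e : Nat.add 56 (i - 56) = i := Nat.add_sub_cancel' (by omega)
    rw [e] at h
    exact h
  omega

theorem cB0 : CovRep 945 TB 0 (qsOf eB0) :=
  covRep_ofG gB0 (by decide +kernel)

theorem cB16 : CovRep 945 TB 16 (qsOf eB16) :=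
  covRep_ofG gB16 (by decide +kernel)

theorem cB32 : CovRep 945 TB 32 (qsOf eB32) :=
  covRep_ofG gB32 (by decide +kernel)

theorem cB48 : CovRep 945 TB 48 (qsOf eB48) :=
  covRep_ofG gB48 (by decide +kernel)

theorem cB64 : CovRep 945 TB 64 (qsOf eB64) :=
  covRep_ofG gB64 (by decide +kernel)

theorem cB80 : CovRep 945 TB 80 (qsOf eB80) :=
  covRep_ofG gB80 (by decide +kernel)

theorem cB96 : CovRep 945 TB 96 (qsOf eB96) :=
  covRep_ofG gB96 (by decide +kernel)

theorem cB112 : CovRep 945 TB 112 (qsOf eB112) :=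
  covRep_ofG gB112 (by decide +kernel)

theorem cB128 : CovRep 945 TB 128 (qsOf eB128) :=
  covRep_ofG gB128 (by decide +kernel)

theorem cB144 : CovRep 945 TB 144 (qsOf eB144) :=
  covRep_ofG gB144 (by decide +kernel)

theorem cB160 : CovRep 945 TB 160 (qsOf eB160) :=
  covRep_ofG gB160 (by decide +kernel)

theorem cB176 : CovRep 945 TB 176 (qsOf eB176) :=
  covRep_ofG gB176 (by decide +kernel)

theorem cB192 : CovRep 945 TB 192 (qsOf eB192) :=
  covRep_ofG gB192 (by decide +kernel)

theorem cB208 : CovRep 945 TB 208 (qsOf eB208) :=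
  covRep_ofG gB208 (by decide +kernel)

theorem cB224 : CovRep 945 TB 224 (qsOf eB224) :=
  covRep_ofG gB224 (by decide +kernel)

theorem cB240 : CovRep 945 TB 240 (qsOf eB240) :=
  covRep_ofG gB240 (by decide +kernel)

theorem cB256 : CovRep 945 TB 256 (qsOf eB256) :=
  covRep_ofG gB256 (by decide +kernel)

theorem cB272 : CovRep 945 TB 272 (qsOf eB272) :=
  covRep_ofG gB272 (by decide +kernel)

theorem cB288 : CovRep 945 TB 288 (qsOf eB288) :=
  covRep_ofG gB288 (by decide +kernel)

theorem cB304 : CovRep 945 TB 304 (qsOf eB304) :=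
  covRep_ofG gB304 (by decide +kernel)

theorem cB320 : CovRep 945 TB 320 (qsOf eB320) :=
  covRep_ofG gB320 (by decide +kernel)

theorem cB336 : CovRep 945 TB 336 (qsOf eB336) :=
  covRep_ofG gB336 (by decide +kernel)

theorem cB352 : CovRep 945 TB 352 (qsOf eB352) :=
  covRep_ofG gB352 (by decide +kernel)

theorem cB368 : CovRep 945 TB 368 (qsOf eB368) :=
  covRep_ofG gB368 (by decide +kernel)

theorem cB384 : CovRep 945 TB 384 (qsOf eB384) :=
  covRep_ofG gB384 (by decide +kernel)

theorem cB400 : CovRep 945 TB 400 (qsOf eB400) :=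
  covRep_ofG gB400 (by decide +kernel)

theorem cB416 : CovRep 945 TB 416 (qsOf eB416) :=
  covRep_ofG gB416 (by decide +kernel)

theorem cB432 : CovRep 945 TB 432 (qsOf eB432) :=
  covRep_ofG gB432 (by decide +kernel)

theorem cB448 : CovRep 945 TB 448 (qsOf eB448) :=
  covRep_ofG gB448 (by decide +kernel)

theorem cB464 : CovRep 945 TB 464 (qsOf eB464) :=
  covRep_ofG gB464 (by decide +kernel)

theorem cB480 : CovRep 945 TB 480 (qsOf eB480) :=
  covRep_ofG gB480 (by decide +kernel)

theorem cB496 : CovRep 945 TB 496 (qsOf eB496) :=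
  covRep_ofG gB496 (by decide +kernel)

theorem cB512 : CovRep 945 TB 512 (qsOf eB512) :=
  covRep_ofG gB512 (by decide +kernel)

theorem cB528 : CovRep 945 TB 528 (qsOf eB528) :=
  covRep_ofG gB528 (by decide +kernel)

theorem cB544 : CovRep 945 TB 544 (qsOf eB544) :=
  covRep_ofG gB544 (by decide +kernel)

theorem cB560 : CovRep 945 TB 560 (qsOf eB560) :=
  covRep_ofG gB560 (by decide +kernel)

theorem cB576 : CovRep 945 TB 576 (qsOf eB576) :=
  covRep_ofG gB576 (by decide +kernel)

theorem cB584 : CovRep 945 TB 584 (qsOf eB584) :=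
  covRep_ofG gB584 (by decide +kernel)

theorem cB592 : CovRep 945 TB 592 (qsOf eB592) :=
  covRep_ofG gB592 (by decide +kernel)

theorem cB600 : CovRep 945 TB 600 (qsOf eB600) :=
  covRep_ofG gB600 (by decide +kernel)

theorem cB608 : CovRep 945 TB 608 (qsOf eB608) :=
  covRep_ofG gB608 (by decide +kernel)

theorem cB616 : CovRep 945 TB 616 (qsOf eB616) :=
  covRep_ofG gB616 (by decide +kernel)

theorem cB624 : CovRep 945 TB 624 (qsOf eB624) :=
  covRep_ofG gB624 (by decide +kernel)

theorem cB632 : CovRep 945 TB 632 (qsOf eB632) :=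
  covRep_ofG gB632 (by decide +kernel)

theorem cB640 : CovRep 945 TB 640 (qsOf eB640) :=
  covRep_ofG gB640 (by decide +kernel)

theorem cB648 : CovRep 945 TB 648 (qsOf eB648) :=
  covRep_ofG gB648 (by decide +kernel)

theorem cB656 : CovRep 945 TB 656 (qsOf eB656) :=
  covRep_ofG gB656 (by decide +kernel)

theorem cB664 : CovRep 945 TB 664 (qsOf eB664) :=
  covRep_ofG gB664 (by decide +kernel)

theorem cB672 : CovRep 945 TB 672 (qsOf eB672) :=
  covRep_ofG gB672 (by decide +kernel)

theorem cB680 : CovRep 945 TB 680 (qsOf eB680) :=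
  covRep_ofG gB680 (by decide +kernel)

theorem cB688 : CovRep 945 TB 688 (qsOf eB688) :=
  covRep_ofG gB688 (by decide +kernel)

theorem cB696 : CovRep 945 TB 696 (qsOf eB696) :=
  covRep_ofG gB696 (by decide +kernel)

theorem cB704 : CovRep 945 TB 704 (qsOf eB704) :=
  covRep_ofG gB704 (by decide +kernel)

theorem cB712 : CovRep 945 TB 712 (qsOf eB712) :=
  covRep_ofG gB712 (by decide +kernel)

theorem cB720 : CovRep 945 TB 720 (qsOf eB720) :=
  covRep_ofG gB720 (by decide +kernel)

theorem cB728 : CovRep 945 TB 728 (qsOf eB728) :=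
  covRep_ofG gB728 (by decide +kernel)

theorem cB736 : CovRep 945 TB 736 (qsOf eB736) :=
  covRep_ofG gB736 (by decide +kernel)

theorem cB744 : CovRep 945 TB 744 (qsOf eB744) :=
  covRep_ofG gB744 (by decide +kernel)

theorem cB752 : CovRep 945 TB 752 (qsOf eB752) :=
  covRep_ofG gB752 (by decide +kernel)

theorem cB760 : CovRep 945 TB 760 (qsOf eB760) :=
  covRep_ofG gB760 (by decide +kernel)

theorem cB768 : CovRep 945 TB 768 (qsOf eB768) :=
  covRep_ofG gB768 (by decide +kernel)

theorem cB776 : CovRep 945 TB 776 (qsOf eB776) :=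
  covRep_ofG gB776 (by decide +kernel)

theorem cB784 : CovRep 945 TB 784 (qsOf eB784) :=
  covRep_ofG gB784 (by decide +kernel)

theorem cB792 : CovRep 945 TB 792 (qsOf eB792) :=
  covRep_ofG gB792 (by decide +kernel)

theorem cB800 : CovRep 945 TB 800 (qsOf eB800) :=
  covRep_ofG gB800 (by decide +kernel)

theorem cB808 : CovRep 945 TB 808 (qsOf eB808) :=
  covRep_ofG gB808 (by decide +kernel)

theorem cB816 : CovRep 945 TB 816 (qsOf eB816) :=
  covRep_ofG gB816 (by decide +kernel)

theorem cB824 : CovRep 945 TB 824 (qsOf eB824) :=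
  covRep_ofG gB824 (by decide +kernel)

theorem cB832 : CovRep 945 TB 832 (qsOf eB832) :=
  covRep_ofG gB832 (by decide +kernel)

theorem cB840 : CovRep 945 TB 840 (qsOf eB840) :=
  covRep_ofG gB840 (by decide +kernel)

theorem cB848 : CovRep 945 TB 848 (qsOf eB848) :=
  covRep_ofG gB848 (by decide +kernel)

theorem cB856 : CovRep 945 TB 856 (qsOf eB856) :=
  covRep_ofG gB856 (by decide +kernel)

theorem cB864 : CovRep 945 TB 864 (qsOf eB864) :=
  covRep_ofG gB864 (by decide +kernel)

theorem cB872 : CovRep 945 TB 872 (qsOf eB872) :=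
  covRep_ofG gB872 (by decide +kernel)

theorem cB880 : CovRep 945 TB 880 (qsOf eB880) :=
  covRep_ofG gB880 (by decide +kernel)

theorem cB888 : CovRep 945 TB 888 (qsOf eB888) :=
  covRep_ofG gB888 (by decide +kernel)

theorem cB896 : CovRep 945 TB 896 (qsOf eB896) :=
  covRep_ofG gB896 (by decide +kernel)

theorem cB904 : CovRep 945 TB 904 (qsOf eB904) :=
  covRep_ofG gB904 (by decide +kernel)

theorem cB912 : CovRep 945 TB 912 (qsOf eB912) :=
  covRep_ofG gB912 (by decide +kernel)

theorem cB920 : CovRep 945 TB 920 (qsOf eB920) :=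
  covRep_ofG gB920 (by decide +kernel)

theorem cB924 : CovRep 945 TB 924 (qsOf eB924) :=
  covRep_ofG gB924 (by decide +kernel)

theorem cB928 : CovRep 945 TB 928 (qsOf eB928) :=
  covRep_ofG gB928 (by decide +kernel)

theorem cB932 : CovRep 945 TB 932 (qsOf eB932) :=
  covRep_ofG gB932 (by decide +kernel)

theorem cB936 : CovRep 945 TB 936 (qsOf eB936) :=
  covRep_ofG gB936 (by decide +kernel)

theorem cB940 : CovRep 945 TB 940 (qsOf eB940) :=
  covRep_ofG gB940 (by decide +kernel)

theorem cB942 : CovRep 945 TB 942 (qsOf eB942) := by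
  intro b c d h1 h2 h3 h4
  omega

theorem cB944 : CovRep 945 TB 944 (qsOf eB944) := by
  intro b c d h1 h2 h3 h4
  omega

theorem covB : ∀ r ∈ repsB, CovRep 945 TB r.1 r.2 := by
  intro r hr
  simp only [repsB, List.mem_cons, List.not_mem_nil, or_false] at hr
  rcases hr with rfl | rfl | rfl | rfl | rfl | rfl | rfl | rfl | rfl | rfl | rfl | rfl | rfl | rfl | rfl | rfl | rfl | rfl | rfl | rfl | rfl | rfl | rfl | rfl | rfl | rfl | rfl | rfl | rfl | rfl | rfl | rfl | rfl | rfl | rfl | rfl | rfl | rfl | rfl | rfl | rfl | rfl | rfl | rfl | rfl | rfl | rfl | rfl | rfl | rfl | rfl | rfl | rfl | rfl | rfl | rfl | rfl | rfl | rfl | rfl | rfl | rfl | rfl | rfl | rfl | rfl | rfl | rfl | rfl | rfl | rfl | rfl | rfl | rfl | rfl | rfl | rfl | rfl | rfl | rfl | rfl | rfl | rfl | rfl | rfl | rfl | rfl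
  · exact cB0
  · exact cB16
  · exact cB32
  · exact cB48
  · exact cB64
  · exact cB80
  · exact cB96
  · exact cB112
  · exact cB128
  · exact cB144
  · exact cB160
  · exact cB176
  · exact cB192
  · exact cB208
  · exact cB224
  · exact cB240
  · exact cB256
  · exact cB272
  · exact cB288
  · exact cB304
  · exact cB320
  · exact cB336
  · exact cB352
  · exact cB368
  · exact cB384
  · exact cB400
  · exact cB416
  · exact cB432
  · exact cB448
  · exact cB464
  · exact cB480
  · exact cB496
  · exact cB512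
  · exact cB528
  · exact cB544
  · exact cB560
  · exact cB576
  · exact cB584
  · exact cB592
  · exact cB600
  · exact cB608
  · exact cB616
  · exact cB624
  · exact cB632
  · exact cB640
  · exact cB648
  · exact cB656
  · exact cB664
  · exact cB672
  · exact cB680
  · exact cB688
  · exact cB696
  · exact cB704
  · exact cB712
  · exact cB720
  · exact cB728
  · exact cB736
  · exact cB744
  · exact cB752
  · exact cB760
  · exact cB768
  · exact cB776
  · exact cB784
  · exact cB792
  · exact cB800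
  · exact cB808
  · exact cB816
  · exact cB824
  · exact cB832
  · exact cB840
  · exact cB848
  · exact cB856
  · exact cB864
  · exact cB872
  · exact cB880
  · exact cB888
  · exact cB896
  · exact cB904
  · exact cB912
  · exact cB920
  · exact cB924
  · exact cB928
  · exact cB932
  · exact cB936
  · exact cB940
  · exact cB942
  · exact cB944

/-- four different labels are completed outside the graph -/
theorem fourB (L : Fin 4 → Fin 10 → Fin 10) (hL : ∀ i, PM (L i)) (hinj : Injective L) :
    SolR 10 RB L :=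
  fourD_sound (pms := pmsB) (gs := gsB) (reps := repsB) (red := redB) (CT := CTB) (CW := 40)
    (PC := PCB) (T := TB) (s := 62) (W := 945) (by norm_num) codeB lenB
    ctGoB (by decide +kernel) poolB (by decide +kernel) (by decide +kernel)
    (by decide +kernel) covB chkB L hL hinj

end Pool.Agent.Lib.MP_fe131b_co.F5
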