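import Pool.Agent.Lib.MP_fe131b_co.F5.DA
import Pool.Agent.Lib.MP_fe131b_co.F5.SB

/-!
Ten points: four arbitrary labels and four different labels.
-/

set_option autoImplicit false

namespace Pool.Agent.Lib.MP_fe131b_co.F5

open Pool.Agent.Lib.MP_fe131b_co.F4 Finset Function

theorem okB : (pmsB.all (okPM 10)) = true := by decide +kernel

/-- four arbitrary labels -/
theorem fourA (L : Fin 4 → Fin 10 → Fin 10) (hL : ∀ i, PM (L i)) : TS 10 RB [] L := by
  refine stepT (pms := pms10) (F' := [E10]) (cands := C0) (by norm_num) code10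
    (by decide +kernel) (by decide +kernel) a10_0 (by decide +kernel) ?_ L hL
  intro L hL
  refine stepU (pms := pmsB) (F' := [E10, E11]) (U := UA) (cands := candA) (w := 945)
    (CT := CTB) (CW := 40) (by norm_num) codeB ctB lenB (by decide +kernel) okA okUA pwA allA
    (by decide +kernel) ?_ L hL
  intro L hL j0 j1 hj0 hj1 hr0 hr1
  exact pairT (by norm_num) ctB lenB poolA (List.all_eq_true.1 (by decide +kernel)) chkA L
    hj0 hj1 hr0 hr1

/-- eight labels, four of them different -/
theorem eightD (L L' : Fin 4 → Fin 10 → Fin 10) (hL : ∀ i, PM (L i)) (hL' : ∀ i, PM (L' i))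
    (hinj : Injective L') : ∃ M M' : Fin 4 → Fin 10 → Fin 10, (∀ i, PM (M i)) ∧
      (∀ i, PM (M' i)) ∧ Disj M ∧ Disj M' ∧ (∀ i j x, M i x ≠ M' j x) ∧
      (∀ i, Connected (L i) (M i)) ∧ (∀ i, Connected (L' i) (M' i)) := by
  obtain ⟨M, g1, g2, g3, -, e, g5, -⟩ := fourA L hL
  have hinj2 : Injective (fun (i : Fin 4) w => e (L' i (e.symm w))) := by
    intro i j hij
    apply hinj
    funext x
    have h1 := congrFun hij (e x)
    simp only [Equiv.symm_apply_apply] at h1
    exact e.injective h1
  obtain ⟨M', h1, h2, h3, h4⟩ := fourB _ (fun i => PM_conj e (hL' i)) hinj2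
  refine ⟨M, fun i w => e.symm (M' i (e w)), g1, fun i => PM_conj e.symm (h1 i), g2, ?_, ?_, g3,
    ?_⟩
  · intro i j hij x hx
    exact h2 i j hij (e x) (e.symm.injective hx)
  · intro i j x hx
    have h5 := g5 i x
    rw [hx, Equiv.apply_symm_apply, h4 j (e x)] at h5
    exact absurd h5 (by simp)
  · intro i
    have h6 := connected_conj e.symm (h3 i)
    have e1 : (fun w => e.symm ((fun w => e (L' i (e.symm w))) (e.symm.symm w))) = L' i := by
      funext w; simp
    rw [e1] at h6
    exact h6

end Pool.Agent.Lib.MP_fe131b_co.F5
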