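import Pool.Agent.Lib.MP_fe131b_co.F5.StepB

/-!
Four arbitrary labels on ten points, completed inside a given 4-regular graph (up to a
permutation of the points).
-/

set_option autoImplicit false

namespace Pool.Agent.Lib.MP_fe131b_co.F5

open Pool.Agent.Lib.MP_fe131b_co.F4 Finset Function

/-- the edges of the matching are mapped into the graph -/
def emb (n R g c : ℕ) : Bool := allN n fun x => adj R (pt g x) (pt g (pt c x))

theorem emb_sound {n R g c : ℕ} {e : Equiv.Perm (Fin n)} {M : Fin n → Fin n}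
    (he : ∀ x : Fin n, pt g x = (e x : ℕ)) (hM : Rep n c M) (h : emb n R g c = true)
    (x : Fin n) : adj R (e x) (e (M x)) = true := by
  unfold emb at h
  rw [allN_iff] at h
  have h1 := h x x.2
  rw [hM x, he, he] at h1
  exact h1

/-- the labels are completed, avoiding the matchings of `F`, and such that the union with the
matchings of `F` is mapped into the graph -/
def TS (n R : ℕ) (F : List ℕ) {r : ℕ} (L : Fin r → Fin n → Fin n) : Prop :=
  ∃ M : Fin r → Fin n → Fin n, (∀ i, PM (M i)) ∧ Disj M ∧ (∀ i, Connected (L i) (M i)) ∧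
    (∀ i (x : Fin n), ∀ c ∈ F, pt c x ≠ (M i x : ℕ)) ∧
    ∃ e : Equiv.Perm (Fin n), (∀ i (x : Fin n), adj R (e x) (e (M i x)) = true) ∧
      ∀ c ∈ F, ∀ x : Fin n, adj R (e x) (e (fn n c x)) = true

theorem TS.step {n r R : ℕ} (hn0 : 0 < n) {F F' : List ℕ} {e : Cand}
    (hF0 : ∀ c ∈ F, okPM n c = true) (hF : ∀ c ∈ F', okPM n c = true)
    (h1 : okCand n F F' e = true) {σ : Equiv.Perm (Fin n)}
    (hσ : ∀ x : Fin n, pt e.g x = (σ x : ℕ)) {L : Fin (r + 1) → Fin n → Fin n} {l : ℕ}
    (hrep : Rep n l (L 0)) (hham : ham n l e.m = true)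
    (h : TS n R F' (fun (i : Fin r) w => σ (L i.succ (σ.symm w)))) : TS n R F L := by
  unfold okCand at h1
  rw [Bool.and_eq_true, Bool.and_eq_true, Bool.and_eq_true] at h1
  obtain ⟨⟨h2, h3⟩, h4, h5⟩ := h1
  obtain ⟨hpm, hmrep⟩ := okPM_sound h2
  obtain ⟨M, g1, g2, g3, g4, e', g5, g6⟩ := h
  have hpull : ∀ i, PM (fun w => σ.symm (M i (σ w))) := by
    intro i
    exact PM_conj σ.symm (g1 i)
  have hconj : ∀ c ∈ e.m :: F, okPM n c = true → ∃ c' ∈ F', ∀ x : Fin n,
      fn n c' (σ x) = σ (fn n c x) := by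
    intro c hcm hok
    obtain ⟨c', hc', hconj⟩ := List.any_eq_true.1 (List.all_eq_true.1 h5 c hcm)
    have e1 := okConj_sound hσ (okPM_sound hok).2 (okPM_sound (hF c' hc')).2 hconj
    refine ⟨c', hc', fun x => ?_⟩
    rw [← e1]
    simp
  have havoid : ∀ c ∈ e.m :: F, okPM n c = true → ∀ (i : Fin r) (x : Fin n),
      pt c x ≠ (σ.symm (M i (σ x)) : ℕ) := by
    intro c hcm hok i x hx
    obtain ⟨c', hc', hconj⟩ := hconj c hcm hok
    have e3 := g4 i (σ x) c' hc'
    apply e3
    rw [(okPM_sound (hF c' hc')).2, hconj]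
    have e4 : fn n c x = σ.symm (M i (σ x)) := by
      apply Fin.ext
      rw [← (okPM_sound hok).2, hx]
    rw [e4, Equiv.apply_symm_apply]
  refine ⟨Fin.cons (fn n e.m) (fun i w => σ.symm (M i (σ w))), ?_, ?_, ?_, ?_, σ.trans e', ?_, ?_⟩
  · intro i
    refine Fin.cases ?_ (fun i => ?_) i
    · exact hpm
    · exact hpull i
  · intro i j
    refine Fin.cases ?_ (fun i => ?_) i
    · refine Fin.cases (fun h => absurd rfl h) (fun j _ x => ?_) j
      simp only [Fin.cons_zero, Fin.cons_succ]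
      intro hx
      apply havoid e.m (by simp) h2 j x
      rw [hmrep, hx]
    · refine Fin.cases (fun _ x => ?_) (fun j hij x => ?_) j
      · simp only [Fin.cons_zero, Fin.cons_succ]
        intro hx
        apply havoid e.m (by simp) h2 i x
        rw [hmrep, ← hx]
      · simp only [Fin.cons_succ]
        intro hx
        exact g2 i j (fun h => hij (by rw [h])) (σ x) (σ.symm.injective hx)
  · intro i
    refine Fin.cases ?_ (fun i => ?_) i
    · exact ham_sound hn0 hrep hmrep hham
    · simp only [Fin.cons_succ]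
      have h6 := connected_conj σ.symm (g3 i)
      have e1 : (fun w => σ.symm ((fun w => σ (L i.succ (σ.symm w))) (σ.symm.symm w))) =
          L i.succ := by
        funext w; simp
      rw [e1] at h6
      exact h6
  · intro i x c hcF
    refine Fin.cases ?_ (fun i => ?_) i
    · simp only [Fin.cons_zero]
      intro hx
      have h7 := List.all_eq_true.1 h4 c hcF
      have h8 := dj_sound h7 (okPM_sound (hF0 c hcF)).2 hmrep x
      apply h8
      apply Fin.ext
      rw [← (okPM_sound (hF0 c hcF)).2, hx]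
    · simp only [Fin.cons_succ]
      exact havoid c (List.mem_cons_of_mem _ hcF) (hF0 c hcF) i x
  · intro i x
    refine Fin.cases ?_ (fun i => ?_) i
    · simp only [Fin.cons_zero, Equiv.trans_apply]
      obtain ⟨c', hc', hc⟩ := hconj e.m (by simp) h2
      have := g6 c' hc' (σ x)
      rw [hc] at this
      exact this
    · simp only [Fin.cons_succ, Equiv.trans_apply, Equiv.apply_symm_apply]
      exact g5 i (σ x)
  · intro c hc x
    obtain ⟨c', hc', hc2⟩ := hconj c (List.mem_cons_of_mem _ hc) (hF0 c hc)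
    have := g6 c' hc' (σ x)
    rw [hc2] at this
    exact this

theorem stepT {n r R : ℕ} {pms : List ℕ} (hn0 : 0 < n)
    (hcode : ∀ M : Fin n → Fin n, PM M → ∃ c ∈ pms, Rep n c M)
    {F F' : List ℕ} {cands : List Cand} (hF : F'.all (okPM n) = true)
    (hc : (cands.all fun e => okCand n F F' e) = true)
    (hall : (pms.all fun l => cands.any fun e => ham n l e.m) = true)
    (hF0 : F.all (okPM n) = true)
    (hnext : ∀ L : Fin r → Fin n → Fin n, (∀ i, PM (L i)) → TS n R F' L)
    (L : Fin (r + 1) → Fin n → Fin n) (hL : ∀ i, PM (L i)) : TS n R F L := by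
  obtain ⟨l, hl, hrep⟩ := hcode (L 0) (hL 0)
  obtain ⟨e, he, hham⟩ := List.any_eq_true.1 (List.all_eq_true.1 hall l hl)
  have h1 := List.all_eq_true.1 hc e he
  have h2 := h1
  unfold okCand at h2
  rw [Bool.and_eq_true, Bool.and_eq_true] at h2
  obtain ⟨σ, hσ⟩ := okPerm_sound h2.1.2
  exact TS.step hn0 (List.all_eq_true.1 hF0) (List.all_eq_true.1 hF) h1 hσ hrep hham
    (hnext _ (fun i => PM_conj σ (hL i.succ)))

/-! ### the last two labels -/

/-- the entries of the last step -/
def rowG {β : Type} (w T : ℕ) (S : List (ℕ × List (ℕ × ℕ))) :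
    List (ℕ × ℕ) → (List (ℕ × ℕ) → β) → β :=
  List.rec (motive := fun _ => List (ℕ × ℕ) → (List (ℕ × ℕ) → β) → β) (fun Q k => k Q)
    (fun e _ ih Q k => force (row T w e.1) fun A =>
      force (orRows T w (e.2.map Prod.fst) 0) fun B => ih ((A, B) :: Q) k) S

/-- what an entry means -/
def GoodG (w T : ℕ) (S : List (ℕ × List (ℕ × ℕ))) (U : List (ℕ × ℕ)) (e : ℕ × ℕ) : Prop :=
  ∀ x y, e.1.testBit x = true → e.2.testBit y = true → (x, y) ∈ U ∨
    ∃ s ∈ S, ∃ j ∈ s.2, (row T w s.1).testBit x = true ∧ (row T w j.1).testBit y = true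

theorem rowG_sound {β : Type} (w T : ℕ) (P : β → Prop) (U : List (ℕ × ℕ))
    (all : List (ℕ × List (ℕ × ℕ))) :
    ∀ (S : List (ℕ × List (ℕ × ℕ))) (Q : List (ℕ × ℕ)) (k : List (ℕ × ℕ) → β),
      (∀ s ∈ S, s ∈ all) → (∀ e ∈ Q, GoodG w T all U e) → P (rowG w T S Q k) →
      ∃ Q' : List (ℕ × ℕ), (∀ e ∈ Q', GoodG w T all U e) ∧ P (k Q') := by
  intro S
  induction S with
  | nil => intro Q k _ hQ h; exact ⟨Q, hQ, h⟩
  | cons s S ih =>
    intro Q k hall hQ h
    have e : rowG w T (s :: S) Q k =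
      force (row T w s.1) fun A => force (orRows T w (s.2.map Prod.fst) 0) fun B =>
        rowG w T S ((A, B) :: Q) k := rfl
    rw [e] at h
    simp only [force_eq] at h
    refine ih _ _ (fun s' hs' => hall s' (List.mem_cons_of_mem _ hs')) ?_ h
    intro e he
    rcases List.mem_cons.1 he with rfl | he
    · intro x y hx hy
      right
      rcases orRows_sound T w (s.2.map Prod.fst) 0 y hy with h1 | ⟨j, hj, h1⟩
      · simp at h1
      · obtain ⟨j', hj', rfl⟩ := List.mem_map.1 hj
        exact ⟨s, hall s (by simp), j', hj', hx, h1⟩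
    · exact hQ e he

/-- check of the last two labels, with exceptions `U` -/
def chkPT (n w s CW PC T R : ℕ) (F : List ℕ) (U : List (ℕ × ℕ))
    (S : List (ℕ × List (ℕ × ℕ))) : Bool :=
  and (S.all fun e => and (and (Nat.blt e.1 s) (F.all fun c => dj n c (row PC CW e.1)))
      (e.2.all fun j => and (and (Nat.blt j.1 s) (dj n (row PC CW e.1) (row PC CW j.1)))
        (and (and (F.all fun c => dj n c (row PC CW j.1)) (okPerm n j.2))
          ((row PC CW e.1 :: row PC CW j.1 :: F).all fun c => emb n R j.2 c))))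
    (rowG w T S (U.map fun u => (Nat.pow 2 u.1, Nat.pow 2 u.2)) fun Q =>
      force (Nat.pred (Nat.pow 2 w)) fun full =>
        allN w fun x => Nat.beq (orGo x Q 0) full)

theorem pairT {n w s CW CT PC T R : ℕ} {pms : List ℕ} (hn0 : 0 < n)
    (hct : ∀ k < w, ∃ h : k < pms.length, row CT CW k = pms[k]) (hlen : pms.length = w)
    (hpool : ∀ i < s, poolOK n w CW PC T pms i = true)
    {F : List ℕ} {U : List (ℕ × ℕ)} {S : List (ℕ × List (ℕ × ℕ))}
    (hF : ∀ c ∈ F, okPM n c = true) (h : chkPT n w s CW PC T R F U S = true)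
    (L : Fin 2 → Fin n → Fin n) {j0 j1 : ℕ} (hj0 : j0 < w) (hj1 : j1 < w)
    (hr0 : Rep n (row CT CW j0) (L 0)) (hr1 : Rep n (row CT CW j1) (L 1)) :
    (j0, j1) ∈ U ∨ TS n R F L := by
  unfold chkPT at h
  rw [Bool.and_eq_true] at h
  obtain ⟨h1, h2⟩ := h
  obtain ⟨Q, hQ, hq⟩ := rowG_sound w T (fun b => b = true) U S S _ _ (fun s hs => hs)
    (fun e he => by
      obtain ⟨u, hu, rfl⟩ := List.mem_map.1 he
      intro x y hx hy
      left
      have e1 : (2 ^ u.1).testBit x = true := hx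
      have e2 : (2 ^ u.2).testBit y = true := hy
      rw [Nat.testBit_two_pow] at e1 e2
      have e3 : u.1 = x := of_decide_eq_true e1
      have e4 : u.2 = y := of_decide_eq_true e2
      rw [← e3, ← e4]
      exact hu) h2
  rw [force_eq, allN_iff] at hq
  have hpool' : ∀ i < s, PM (fn n (row PC CW i)) ∧ Rep n (row PC CW i) (fn n (row PC CW i)) ∧
      ∀ j, (row T w i).testBit j = true → ∃ h : j < pms.length,
        ham n pms[j] (row PC CW i) = true := by
    intro i hi
    have h3 := hpool i hi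
    unfold poolOK at h3
    rw [force_eq, Bool.and_eq_true] at h3
    obtain ⟨h4, h5⟩ := okPM_sound h3.1
    refine ⟨h4, h5, ?_⟩
    intro j hj
    rw [Nat.eq_of_beq_eq_true h3.2] at hj
    exact mask_sound hj
  have h6 := Nat.eq_of_beq_eq_true (hq j0 hj0)
  have h7 : (orGo j0 Q 0).testBit j1 = true := by
    rw [h6]
    have e : Nat.pred (Nat.pow 2 w) = 2 ^ w - 1 := rfl
    rw [e, Nat.testBit_two_pow_sub_one]
    exact decide_eq_true hj1
  rcases orGo_sound j0 Q 0 j1 h7 with h8 | ⟨e, he, h8, h9⟩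
  · simp at h8
  rcases hQ e he j0 j1 h8 h9 with h10 | ⟨t, ht, j, hj, h10, h11⟩
  · exact Or.inl h10
  right
  have h12 := List.all_eq_true.1 h1 t ht
  rw [Bool.and_eq_true, Bool.and_eq_true] at h12
  obtain ⟨⟨h13, h14⟩, h15⟩ := h12
  have h16 := List.all_eq_true.1 h15 j hj
  rw [Bool.and_eq_true, Bool.and_eq_true, Bool.and_eq_true, Bool.and_eq_true] at h16
  obtain ⟨⟨h17, h18⟩, ⟨h19, h20⟩, h21⟩ := h16
  have hts : t.1 < s := blt_lt h13
  have hjs : j.1 < s := blt_lt h17
  obtain ⟨p1, p2, p3⟩ := hpool' t.1 hts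
  obtain ⟨q1, q2, q3⟩ := hpool' j.1 hjs
  obtain ⟨σ, hσ⟩ := okPerm_sound h20
  have h22 := List.all_eq_true.1 h21
  obtain ⟨t1, t2⟩ := hct j0 hj0
  obtain ⟨t3, t4⟩ := hct j1 hj1
  rw [t2] at hr0
  rw [t4] at hr1
  refine ⟨![fn n (row PC CW t.1), fn n (row PC CW j.1)], ?_, ?_, ?_, ?_, σ, ?_, ?_⟩
  · intro i
    fin_cases i
    · exact p1
    · exact q1
  · intro i i' hii x
    fin_cases i <;> fin_cases i'
    · exact absurd rfl hii
    · exact dj_sound h18 p2 q2 x
    · exact fun h => dj_sound h18 p2 q2 x h.symm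
    · exact absurd rfl hii
  · intro i
    fin_cases i
    · exact ham_sound hn0 hr0 p2 (p3 j0 h10).2
    · exact ham_sound hn0 hr1 q2 (q3 j1 h11).2
  · intro i x c hc
    have hcr := (okPM_sound (hF c hc)).2
    fin_cases i
    · intro hx
      apply dj_sound (List.all_eq_true.1 h14 c hc) hcr p2 x
      apply Fin.ext
      rw [← hcr, hx]
      rfl
    · intro hx
      apply dj_sound (List.all_eq_true.1 h19 c hc) hcr q2 x
      apply Fin.ext
      rw [← hcr, hx]
      rfl
  · intro i x
    fin_cases i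
    · exact emb_sound hσ p2 (h22 _ (by simp)) x
    · exact emb_sound hσ q2 (h22 _ (by simp)) x
  · intro c hc x
    exact emb_sound hσ (okPM_sound (hF c hc)).2 (h22 c (by simp [hc])) x

/-! ### the step with exceptions -/

/-- all pairs of a list -/
def pw {α : Type} (p : α → α → Bool) (l : List α) : Bool :=
  List.rec (motive := fun _ => Bool) true (fun a l ih => and (l.all (p a)) ih) l

/-- two entries of a list -/
def two {α : Type} (p : α → Bool) (l : List α) : Bool :=
  List.rec (motive := fun _ => Bool) false (fun a l ih => or (and (p a) (l.any p)) ih) l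

theorem pw_two {α : Type} {q : α → α → Bool} {p : α → Bool} : ∀ {l : List α},
    pw q l = true → two p l = true → ∃ a ∈ l, ∃ b ∈ l, p a = true ∧ p b = true ∧ q a b = true := by
  intro l
  induction l with
  | nil => intro _ h; exact absurd h (by simp [two])
  | cons a l ih =>
    intro h1 h2
    have e1 : pw q (a :: l) = and (l.all (q a)) (pw q l) := rfl
    have e2 : two p (a :: l) = or (and (p a) (l.any p)) (two p l) := rfl
    rw [e1, Bool.and_eq_true] at h1
    rw [e2, Bool.or_eq_true, Bool.and_eq_true] at h2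
    rcases h2 with ⟨h3, h4⟩ | h3
    · obtain ⟨b, hb, hb2⟩ := List.any_eq_true.1 h4
      exact ⟨a, by simp, b, List.mem_cons_of_mem _ hb, h3, hb2, List.all_eq_true.1 h1.1 b hb⟩
    · obtain ⟨a', ha', b, hb, h5⟩ := ih h1.2 h3
      exact ⟨a', List.mem_cons_of_mem _ ha', b, List.mem_cons_of_mem _ hb, h5⟩

/-- the two pairs are different -/
def djU (n : ℕ) (a b : ℕ × ℕ) : Bool :=
  not (allN n fun x => and (Nat.beq (pt a.1 x) (pt b.1 x)) (Nat.beq (pt a.2 x) (pt b.2 x)))

/-- the exceptions, moved back -/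
def okU (n CW CT : ℕ) (U : List (ℕ × ℕ)) (e : Cand × List (ℕ × ℕ)) : Bool :=
  and (e.2.all fun v => and (okPM n v.1) (okPM n v.2))
    (U.all fun u => e.2.any fun v => and (okConj n e.1.g v.1 (row CT CW u.1))
      (okConj n e.1.g v.2 (row CT CW u.2)))

theorem stepU {n w CW CT R : ℕ} {pms : List ℕ} (hn0 : 0 < n)
    (hcode : ∀ M : Fin n → Fin n, PM M → ∃ c ∈ pms, Rep n c M)
    (hct : ∀ k < w, ∃ h : k < pms.length, row CT CW k = pms[k]) (hlen : pms.length = w)
    {F F' : List ℕ} {U : List (ℕ × ℕ)} {cands : List (Cand × List (ℕ × ℕ))}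
    (hF : F'.all (okPM n) = true)
    (hc : (cands.all fun e => okCand n F F' e.1) = true)
    (hu : (cands.all fun e => okU n CW CT U e) = true)
    (hp : (pw (fun e e' => e.2.all fun a => e'.2.all fun b => djU n a b) cands) = true)
    (hall : (pms.all fun l => two (fun e => ham n l e.1.m) cands) = true)
    (hF0 : F.all (okPM n) = true)
    (hnext : ∀ (L : Fin 2 → Fin n → Fin n), (∀ i, PM (L i)) → ∀ j0 j1, j0 < w → j1 < w →
      Rep n (row CT CW j0) (L 0) → Rep n (row CT CW j1) (L 1) → (j0, j1) ∈ U ∨ TS n R F' L)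
    (L : Fin 3 → Fin n → Fin n) (hL : ∀ i, PM (L i)) : TS n R F L := by
  obtain ⟨l, hl, hrep⟩ := hcode (L 0) (hL 0)
  obtain ⟨e, he, e', he', hh, hh', hd⟩ := pw_two hp (List.all_eq_true.1 hall l hl)
  have hidx : ∀ M : Fin n → Fin n, PM M → ∃ k < w, Rep n (row CT CW k) M := by
    intro M hM
    obtain ⟨c, hc, hr⟩ := hcode M hM
    obtain ⟨k, hk, rfl⟩ := List.getElem_of_mem hc
    refine ⟨k, hlen ▸ hk, ?_⟩
    obtain ⟨h1, h2⟩ := hct k (hlen ▸ hk)
    rw [h2]
    exact hr
  have key : ∀ e ∈ cands, ham n l e.1.m = true → TS n R F L ∨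
      ∃ v ∈ e.2, Rep n v.1 (L 1) ∧ Rep n v.2 (L 2) := by
    intro e he hh
    have h1 := List.all_eq_true.1 hc e he
    have h2 := h1
    unfold okCand at h2
    rw [Bool.and_eq_true, Bool.and_eq_true] at h2
    obtain ⟨σ, hσ⟩ := okPerm_sound h2.1.2
    have hL' : ∀ i : Fin 2, PM (fun w => σ (L i.succ (σ.symm w))) :=
      fun i => PM_conj σ (hL i.succ)
    obtain ⟨j0, hj0, hr0⟩ := hidx _ (hL' 0)
    obtain ⟨j1, hj1, hr1⟩ := hidx _ (hL' 1)
    rcases hnext _ hL' j0 j1 hj0 hj1 hr0 hr1 with h3 | h3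
    · right
      have h4 := List.all_eq_true.1 hu e he
      unfold okU at h4
      rw [Bool.and_eq_true] at h4
      obtain ⟨v, hv, hv2⟩ := List.any_eq_true.1 (List.all_eq_true.1 h4.2 _ h3)
      rw [Bool.and_eq_true] at hv2
      have h5 := List.all_eq_true.1 h4.1 v hv
      rw [Bool.and_eq_true] at h5
      have a1 := okConj_sound hσ (okPM_sound h5.1).2 hr0 hv2.1
      have a2 := okConj_sound hσ (okPM_sound h5.2).2 hr1 hv2.2
      have b1 : fn n v.1 = L 1 := by
        funext x
        have := congrFun a1 (σ x)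
        simp only [Equiv.symm_apply_apply] at this
        exact σ.injective this
      have b2 : fn n v.2 = L 2 := by
        funext x
        have := congrFun a2 (σ x)
        simp only [Equiv.symm_apply_apply] at this
        exact σ.injective this
      refine ⟨v, hv, ?_, ?_⟩
      · rw [← b1]; exact (okPM_sound h5.1).2
      · rw [← b2]; exact (okPM_sound h5.2).2
    · left
      exact TS.step hn0 (List.all_eq_true.1 hF0) (List.all_eq_true.1 hF) h1 hσ hrep hh h3
  rcases key e he hh with h1 | ⟨v, hv, a1, a2⟩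
  · exact h1
  rcases key e' he' hh' with h1 | ⟨v', hv', b1, b2⟩
  · exact h1
  exfalso
  have h3 := List.all_eq_true.1 (List.all_eq_true.1 hd v hv) v' hv'
  unfold djU at h3
  have h4 : allN n (fun x => and (Nat.beq (pt v.1 x) (pt v'.1 x))
      (Nat.beq (pt v.2 x) (pt v'.2 x))) = true := by
    rw [allN_iff]
    intro x hx
    have c1 := a1 ⟨x, hx⟩
    have c2 := a2 ⟨x, hx⟩
    have d1 := b1 ⟨x, hx⟩
    have d2 := b2 ⟨x, hx⟩
    simp only at c1 c2 d1 d2
    rw [c1, c2, d1, d2]
    simp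
  rw [h4] at h3
  simp at h3

end Pool.Agent.Lib.MP_fe131b_co.F5
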