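import Pool.Agent.Lib.MP_fe131b_co.F5.Cov

/-!
Four different labels on ten points, completed outside a given 4-regular graph.
-/

set_option autoImplicit false

namespace Pool.Agent.Lib.MP_fe131b_co.F5

open Pool.Agent.Lib.MP_fe131b_co.F4 Finset Function

/-- adjacency of a graph coded with 16 bits per vertex -/
def adj (R x y : ℕ) : Bool := tb R (Nat.add (Nat.mul 16 x) y)

/-- the matching has no edge in the graph -/
def free (n R c : ℕ) : Bool := allN n fun x => not (adj R x (pt c x))

/-- the permutation maps edges to edges -/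
def pres (n R R' g : ℕ) : Bool :=
  allN n fun x => allN n fun y => cond (adj R x y) (adj R' (pt g x) (pt g y)) true

theorem free_sound {n R c : ℕ} {M : Fin n → Fin n} (h : free n R c = true) (hM : Rep n c M)
    (x : Fin n) : adj R x (M x) = false := by
  unfold free at h
  rw [allN_iff] at h
  have h1 := h x x.2
  rw [hM x] at h1
  simpa using h1

theorem pres_sound {n R R' g : ℕ} (h : pres n R R' g = true) {e : Equiv.Perm (Fin n)}
    (he : ∀ x : Fin n, pt g x = (e x : ℕ)) (x y : Fin n) (hxy : adj R x y = true) :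
    adj R' (e x) (e y) = true := by
  unfold pres at h
  rw [allN_iff] at h
  have h1 := h x x.2
  rw [allN_iff] at h1
  have h2 := h1 y y.2
  rw [hxy, cond_true, he, he] at h2
  exact h2

/-- the labels are completed by matchings outside the graph -/
def SolR (n R : ℕ) {k : ℕ} (L : Fin k → Fin n → Fin n) : Prop :=
  ∃ M : Fin k → Fin n → Fin n, (∀ i, PM (M i)) ∧ Disj M ∧ (∀ i, Connected (L i) (M i)) ∧
    ∀ i (x : Fin n), adj R x (M i x) = false

theorem SolR.perm {n R k : ℕ} (σ : Equiv.Perm (Fin k)) {L : Fin k → Fin n → Fin n}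
    (h : SolR n R (fun i => L (σ i))) : SolR n R L := by
  obtain ⟨M, h1, h2, h3, h4⟩ := h
  refine ⟨fun i => M (σ.symm i), fun i => h1 _, ?_, ?_, fun i => h4 _⟩
  · intro i j hij
    exact h2 _ _ (fun h => hij (σ.symm.injective h))
  · intro i
    have h5 : Connected (L (σ (σ.symm i))) (M (σ.symm i)) := h3 (σ.symm i)
    rw [Equiv.apply_symm_apply] at h5
    exact h5

theorem SolR.conj {n R R' k : ℕ} (e : Equiv.Perm (Fin n))
    (he : ∀ x y : Fin n, adj R x y = true → adj R' (e x) (e y) = true)
    {L : Fin k → Fin n → Fin n}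
    (h : SolR n R' (fun i w => e (L i (e.symm w)))) : SolR n R L := by
  obtain ⟨M, h1, h2, h3, h4⟩ := h
  refine ⟨fun i v => e.symm (M i (e v)), fun i => PM_conj e.symm (h1 i), ?_, ?_, ?_⟩
  · intro i j hij v hv
    exact h2 i j hij (e v) (e.symm.injective hv)
  · intro i
    have h5 := connected_conj e.symm (h3 i)
    have e1 : (fun w => e.symm ((fun w => e (L i (e.symm w))) (e.symm.symm w))) = L i := by
      funext w; simp
    rw [e1] at h5
    exact h5
  · intro i x
    cases hx : adj R x (e.symm (M i (e x))) with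
    | false => rfl
    | true =>
      have h5 := he _ _ hx
      rw [Equiv.apply_symm_apply, h4 i (e x)] at h5
      exact absurd h5 (by simp)

/-- a pool element: a matching outside the graph with its mask -/
def poolR (n w CW R PC T : ℕ) (pms : List ℕ) (i : ℕ) : Bool :=
  force (row PC CW i) fun c => and (and (okPM n c) (free n R c))
    (Nat.beq (row T w i) (mask (fun l => ham n l c) pms))

/-- the codes as a table -/
def ctGo (CW CT : ℕ) (xs : List ℕ) : ℕ → Bool :=
  List.rec (motive := fun _ => ℕ → Bool) (fun _ => true)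
    (fun c _ ih i => and (Nat.beq (row CT CW i) c) (force (Nat.succ i) ih)) xs

theorem ctGo_sound (CW CT : ℕ) : ∀ (xs : List ℕ) (i : ℕ), ctGo CW CT xs i = true →
    ∀ k, ∀ h : k < xs.length, row CT CW (i + k) = xs[k] := by
  intro xs
  induction xs with
  | nil => intro i _ k hk; simp at hk
  | cons c xs ih =>
    intro i h k hk
    have e : ctGo CW CT (c :: xs) i =
      and (Nat.beq (row CT CW i) c) (force (i + 1) (ctGo CW CT xs)) := rfl
    rw [e, force_eq, Bool.and_eq_true] at h
    cases k with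
    | zero => exact Nat.eq_of_beq_eq_true h.1
    | succ k =>
      have h5 := ih (i + 1) h.2 k (by simpa using hk)
      rw [Nat.add_right_comm, Nat.add_assoc] at h5
      simpa using h5

/-- every index is a representative or is moved to a smaller index -/
def redGo (n CW CT : ℕ) (gs : List ℕ) (reps : List (ℕ × List (List ℕ)))
    (xs : List (ℕ × ℕ)) : ℕ → Bool :=
  List.rec (motive := fun _ => ℕ → Bool) (fun _ => true)
    (fun e _ ih k => and (cond (Nat.beq e.2 k) (reps.any fun r => Nat.beq r.1 k)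
      (and (and (Nat.blt e.2 k) (Nat.blt e.1 gs.length))
        (okConj n (gs.getD e.1 0) (row CT CW k) (row CT CW e.2))))
      (force (Nat.succ k) ih)) xs

theorem blt_lt {a b : ℕ} (h : Nat.blt a b = true) : a < b := by
  rw [Nat.blt_eq] at h
  exact h

theorem redGo_sound (n CW CT : ℕ) (gs : List ℕ) (reps : List (ℕ × List (List ℕ))) :
    ∀ (xs : List (ℕ × ℕ)) (i : ℕ),
    redGo n CW CT gs reps xs i = true → ∀ k < xs.length, (∃ r ∈ reps, r.1 = i + k) ∨
      ∃ g ∈ gs, ∃ j < i + k, okConj n g (row CT CW (i + k)) (row CT CW j) = true := by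
  intro xs
  induction xs with
  | nil => intro i _ k hk; simp at hk
  | cons e xs ih =>
    intro i h k hk
    have e0 : redGo n CW CT gs reps (e :: xs) i =
      and (cond (Nat.beq e.2 i) (reps.any fun r => Nat.beq r.1 i)
      (and (and (Nat.blt e.2 i) (Nat.blt e.1 gs.length))
        (okConj n (gs.getD e.1 0) (row CT CW i) (row CT CW e.2))))
      (force (i + 1) (redGo n CW CT gs reps xs)) := rfl
    rw [e0, force_eq, Bool.and_eq_true] at h
    obtain ⟨h1, h2⟩ := h
    cases k with
    | zero =>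
      rw [Nat.add_zero]
      cases hb : Nat.beq e.2 i with
      | true =>
        rw [hb, cond_true] at h1
        obtain ⟨r, hr, hr2⟩ := List.any_eq_true.1 h1
        left
        exact ⟨r, hr, Nat.eq_of_beq_eq_true hr2⟩
      | false =>
        rw [hb, cond_false, Bool.and_eq_true, Bool.and_eq_true] at h1
        obtain ⟨⟨h3, h4⟩, h5⟩ := h1
        right
        have h4' := blt_lt h4
        refine ⟨gs[e.1], List.getElem_mem h4', e.2, blt_lt h3, ?_⟩
        have e5 : gs.getD e.1 0 = gs[e.1] := by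
          rw [List.getD_eq_getElem?_getD, List.getElem?_eq_getElem h4', Option.getD_some]
        rw [e5] at h5
        exact h5
    | succ k =>
      have h6 := ih (i + 1) h2 k (by simpa using hk)
      rw [Nat.add_right_comm, Nat.add_assoc] at h6
      simpa using h6

/-- the check of the solutions of one representative: the fifth entry is for the representative -/
def chk5 (n s W CW PC T r : ℕ) (qs : List (List ℕ)) : Bool :=
  qs.all fun q => and (allN 5 fun i => Nat.blt (q.getD i 0) s)
    (and (tb (row T W (q.getD 4 0)) r)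
      (allN 5 fun j => force (row PC CW (q.getD j 0)) fun c =>
        allN j fun i => force (row PC CW (q.getD i 0)) fun c' => dj n c c'))

/-- three further labels with larger indices are completed -/
def CovRep (W T r : ℕ) (qs : List (List ℕ)) : Prop :=
  ∀ b c d, r < b → b < c → c < d → d < W → ∃ q ∈ qs, ∃ i j k : Fin 4, i ≠ j ∧ i ≠ k ∧ j ≠ k ∧
    (row T W (q.getD i 0)).testBit b = true ∧ (row T W (q.getD j 0)).testBit c = true ∧
    (row T W (q.getD k 0)).testBit d = true

/-- the blocks are contiguous -/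
def contig (W : ℕ) (bs : List (ℕ × ℕ)) : ℕ → Bool :=
  List.rec (motive := fun _ => ℕ → Bool) (fun u => Nat.ble W u)
    (fun e _ ih u => and (Nat.beq e.1 u) (ih (Nat.add u e.2))) bs

theorem contig_sound (W : ℕ) : ∀ (bs : List (ℕ × ℕ)) (u : ℕ), contig W bs u = true →
    ∀ b, u ≤ b → b < W → ∃ e ∈ bs, e.1 ≤ b ∧ b < e.1 + e.2 := by
  intro bs
  induction bs with
  | nil =>
    intro u h b h1 h2
    have : W ≤ u := Nat.le_of_ble_eq_true h
    omega
  | cons e bs ih =>
    intro u h b h1 h2
    have e0 : contig W (e :: bs) u = and (Nat.beq e.1 u) (contig W bs (u + e.2)) := rfl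
    rw [e0, Bool.and_eq_true] at h
    have h3 := Nat.eq_of_beq_eq_true h.1
    by_cases hb : b < u + e.2
    · exact ⟨e, by simp, by omega, by omega⟩
    · obtain ⟨e', h4, h5⟩ := ih _ h.2 b (by omega) h2
      exact ⟨e', List.mem_cons_of_mem _ h4, h5⟩

/-- the check of a list of blocks -/
def blkM (W T : ℕ) (ps : List ℕ) (qs : List (List ℕ)) (bs : List (ℕ × ℕ)) : Bool :=
  bs.all fun e => force e.1 fun u => force e.2 fun l => covM W u l T ps qs

theorem blkM_sound {W T : ℕ} {ps : List ℕ} {qs : List (List ℕ)} {bs : List (ℕ × ℕ)}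
    (h : blkM W T ps qs bs = true) : ∀ e ∈ bs, covM W e.1 e.2 T ps qs = true := by
  intro e he
  have := List.all_eq_true.1 h e he
  rw [force_eq, force_eq] at this
  exact this

theorem covRep_of {W T r : ℕ} {ps : List ℕ} {qs : List (List ℕ)} (bs : List (ℕ × ℕ))
    (hc : contig W bs (r + 1) = true) (h : ∀ e ∈ bs, covM W e.1 e.2 T ps qs = true) :
    CovRep W T r qs := by
  intro b c d h1 h2 h3 h4
  obtain ⟨e, he, h5, h6⟩ := contig_sound W bs (r + 1) hc b (by omega) (by omega)
  obtain ⟨q, hq, i, j, k, hij, hik, hjk, g1, g2, g3⟩ := covM_sound (x := b - e.1) (y := c - e.1)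
    (z := d - e.1) (by omega) (h e he) (by omega) (by omega) (by omega) (by omega) (by omega)
    (by omega) (by omega)
  refine ⟨q, hq, i, j, k, hij, hik, hjk, ?_⟩
  have hrow : ∀ a : Fin 4, ![rowS W e.1 T (q.getD 0 0), rowS W e.1 T (q.getD 1 0),
      rowS W e.1 T (q.getD 2 0), rowS W e.1 T (q.getD 3 0)] a = rowS W e.1 T (q.getD a 0) := by
    intro a
    fin_cases a <;> rfl
  rw [hrow] at g1 g2 g3
  unfold rowS at g1 g2 g3
  rw [Nat.testBit_shiftRight] at g1 g2 g3
  have e1 : e.1 + (b - e.1) = b := by omega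
  have e2 : e.1 + (c - e.1) = c := by omega
  have e3 : e.1 + (d - e.1) = d := by omega
  rw [e1] at g1
  rw [e2] at g2
  rw [e3] at g3
  exact ⟨g1, g2, g3⟩

theorem fourD_sound {n R s W CW CT PC T : ℕ} {pms gs : List ℕ}
    {reps : List (ℕ × List (List ℕ))} {red : List (ℕ × ℕ)} (hn0 : 0 < n)
    (hcode : ∀ M : Fin n → Fin n, PM M → ∃ c ∈ pms, Rep n c M) (hlen : pms.length = W)
    (hct : ctGo CW CT pms 0 = true) (hpm : (pms.all (okPM n)) = true)
    (hpool : ∀ i < s, poolR n W CW R PC T pms i = true)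
    (hgs : (gs.all fun g => and (okPerm n g) (pres n R R g)) = true)
    (hred : redGo n CW CT gs reps red 0 = true) (hredlen : red.length = W)
    (hcov : ∀ r ∈ reps, CovRep W T r.1 r.2)
    (hchk : (reps.all fun r => chk5 n s W CW PC T r.1 r.2) = true)
    (L : Fin 4 → Fin n → Fin n) (hL : ∀ i, PM (L i)) (hinj : Injective L) : SolR n R L := by
  classical
  have hct' : ∀ k < W, ∃ h : k < pms.length, row CT CW k = pms[k] := by
    intro k hk
    refine ⟨hlen ▸ hk, ?_⟩
    have := ctGo_sound CW CT pms 0 hct k (hlen ▸ hk)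
    rw [Nat.zero_add] at this
    exact this
  have hfn : ∀ k < W, Rep n (row CT CW k) (fn n (row CT CW k)) := by
    intro k hk
    obtain ⟨h1, h2⟩ := hct' k hk
    rw [h2]
    exact (okPM_sound (List.all_eq_true.1 hpm _ (List.getElem_mem h1))).2
  have hidx : ∀ M : Fin n → Fin n, PM M → ∃ k < W, Rep n (row CT CW k) M := by
    intro M hM
    obtain ⟨c, hc, hr⟩ := hcode M hM
    obtain ⟨k, hk, rfl⟩ := List.getElem_of_mem hc
    refine ⟨k, hlen ▸ hk, ?_⟩
    obtain ⟨h1, h2⟩ := hct' k (hlen ▸ hk)
    rw [h2]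
    exact hr
  let P : ℕ → Prop := fun k => k < W ∧ ∃ e : Equiv.Perm (Fin n),
    (∀ x y : Fin n, adj R x y = true → adj R (e x) (e y) = true) ∧
    ∃ j : Fin 4, Rep n (row CT CW k) (fun w => e (L j (e.symm w)))
  have hP : ∃ k, P k := by
    obtain ⟨k, hk, hr⟩ := hidx (L 0) (hL 0)
    exact ⟨k, hk, Equiv.refl _, fun x y h => h, 0, hr⟩
  obtain ⟨hm, e, he, j0, hj0⟩ := Nat.find_spec hP
  set m := Nat.find hP with hmdef
  have hmin : ∀ k, P k → m ≤ k := fun k hk => Nat.find_min' hP hk
  -- `m` is a representative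
  have hmrep : ∃ r ∈ reps, r.1 = m := by
    rcases redGo_sound n CW CT gs reps red 0 hred m (hredlen ▸ hm) with h | ⟨g, hg, j, hj, hc⟩
    · rw [Nat.zero_add] at h; exact h
    · exfalso
      rw [Nat.zero_add] at hj hc
      have h1 := List.all_eq_true.1 hgs g hg
      rw [Bool.and_eq_true] at h1
      obtain ⟨σ, hσ⟩ := okPerm_sound h1.1
      have hp := pres_sound h1.2 hσ
      have hjW : j < W := by omega
      have h2 := okConj_sound hσ hj0 (hfn j hjW) hc
      have h3 : P j := by
        refine ⟨hjW, e.trans σ, fun x y h => hp _ _ (he _ _ h), j0, ?_⟩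
        have e1 : (fun w => (e.trans σ) (L j0 ((e.trans σ).symm w))) =
            fn n (row CT CW j) := by
          rw [← h2]
          funext w
          simp
        rw [e1]
        exact hfn j hjW
      have := hmin j h3
      omega
  -- the moved labels
  let L' : Fin 4 → Fin n → Fin n := fun i w => e (L i (e.symm w))
  have hL' : ∀ i, PM (L' i) := fun i => PM_conj e (hL i)
  have hinj' : Injective L' := by
    intro i j hij
    apply hinj
    funext x
    have h1 := congrFun hij (e x)
    simp only [L', Equiv.symm_apply_apply] at h1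
    exact e.injective h1
  refine SolR.conj e he ?_
  change SolR n R L'
  have hidx' : ∀ i : Fin 4, ∃ k < W, Rep n (row CT CW k) (L' i) ∧ (i = j0 → k = m) := by
    intro i
    by_cases hi : i = j0
    · exact ⟨m, hm, hi ▸ hj0, fun _ => rfl⟩
    · obtain ⟨k, h1, h2⟩ := hidx (L' i) (hL' i)
      exact ⟨k, h1, h2, fun h => absurd h hi⟩
  choose k hk hkr hkm0 using hidx'
  have hkinj : Injective k := by
    intro i j hij
    apply hinj'
    funext x
    apply Fin.ext
    rw [← hkr i x, ← hkr j x, hij]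
  have hkm : ∀ i, m ≤ k i := fun i => hmin _ ⟨hk i, e, he, i, hkr i⟩
  let σ : Equiv.Perm (Fin 4) := Tuple.sort k
  have hmono : Monotone (k ∘ σ) := Tuple.monotone_sort k
  have hstrict : StrictMono (k ∘ σ) := hmono.strictMono_of_injective (hkinj.comp σ.injective)
  have h0 : k (σ 0) = m := by
    apply le_antisymm _ (hkm _)
    have h1 : (k ∘ σ) 0 ≤ (k ∘ σ) (σ.symm j0) := hmono (Fin.zero_le _)
    have h2 : (k ∘ σ) (σ.symm j0) = m := by
      show k (σ (σ.symm j0)) = m
      rw [Equiv.apply_symm_apply]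
      exact hkm0 j0 rfl
    rw [h2] at h1
    exact h1
  have h01 : k (σ 0) < k (σ 1) := hstrict (by decide)
  have h12 : k (σ 1) < k (σ 2) := hstrict (by decide)
  have h23 : k (σ 2) < k (σ 3) := hstrict (by decide)
  obtain ⟨r, hr, hrm⟩ := hmrep
  obtain ⟨q, hq, i, j, l, hij, hil, hjl, g1, g2, g3⟩ := hcov r hr (k (σ 1)) (k (σ 2)) (k (σ 3))
    (by omega) h12 h23 (hk _)
  have hc := List.all_eq_true.1 (List.all_eq_true.1 hchk r hr) q hq
  rw [hrm] at hc
  rw [Bool.and_eq_true, Bool.and_eq_true, allN_iff, allN_iff, tb_eq] at hc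
  obtain ⟨c1, c2, c3⟩ := hc
  have hp : ∀ p < s, PM (fn n (row PC CW p)) ∧ Rep n (row PC CW p) (fn n (row PC CW p)) ∧
      free n R (row PC CW p) = true ∧ ∀ t, (row T W p).testBit t = true →
        ∀ M : Fin n → Fin n, Rep n (row CT CW t) M → Connected M (fn n (row PC CW p)) := by
    intro p hps
    have h1 := hpool p hps
    unfold poolR at h1
    rw [force_eq, Bool.and_eq_true, Bool.and_eq_true] at h1
    obtain ⟨⟨h2, h3⟩, h4⟩ := h1
    obtain ⟨h5, h6⟩ := okPM_sound h2
    refine ⟨h5, h6, h3, ?_⟩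
    intro t ht M hM
    rw [Nat.eq_of_beq_eq_true h4] at ht
    obtain ⟨h7, h8⟩ := mask_sound ht
    obtain ⟨h9, h10⟩ := hct' t (hlen ▸ h7)
    rw [h10] at hM
    exact ham_sound hn0 hM h6 h8
  let ix : Fin 4 → ℕ := ![4, i, j, l]
  have hix : ∀ t, ix t < 5 := by
    intro t
    have := i.2
    have := j.2
    have := l.2
    fin_cases t
    · show 4 < 5; omega
    · show (i : ℕ) < 5; omega
    · show (j : ℕ) < 5; omega
    · show (l : ℕ) < 5; omega
  have hixinj : ∀ a b, a ≠ b → ix a ≠ ix b := by
    have := i.2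
    have := j.2
    have := l.2
    have hij' : (i : ℕ) ≠ j := fun h => hij (Fin.ext h)
    have hil' : (i : ℕ) ≠ l := fun h => hil (Fin.ext h)
    have hjl' : (j : ℕ) ≠ l := fun h => hjl (Fin.ext h)
    intro a b hab
    fin_cases a <;> fin_cases b
    · exact absurd rfl hab
    · show 4 ≠ (i : ℕ); omega
    · show 4 ≠ (j : ℕ); omega
    · show 4 ≠ (l : ℕ); omega
    · show (i : ℕ) ≠ 4; omega
    · exact absurd rfl hab
    · exact hij'
    · exact hil'
    · show (j : ℕ) ≠ 4; omega
    · exact hij'.symm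
    · exact absurd rfl hab
    · exact hjl'
    · show (l : ℕ) ≠ 4; omega
    · exact hil'.symm
    · exact hjl'.symm
    · exact absurd rfl hab
  have hps : ∀ t, q.getD (ix t) 0 < s := fun t => blt_lt (c1 _ (hix t))
  have hdj : ∀ b < 5, ∀ a < b, dj n (row PC CW (q.getD b 0)) (row PC CW (q.getD a 0)) = true := by
    intro b hb a ha
    have h1 := c3 b hb
    rw [force_eq, allN_iff] at h1
    have h2 := h1 a ha
    rw [force_eq] at h2
    exact h2
  apply SolR.perm σ
  refine ⟨fun t => fn n (row PC CW (q.getD (ix t) 0)), fun t => (hp _ (hps t)).1, ?_, ?_, ?_⟩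
  · intro a b hab x
    rcases Nat.lt_or_gt_of_ne (hixinj a b hab) with h | h
    · exact dj_sound (dj_symm (hdj _ (hix b) _ h)) (hp _ (hps a)).2.1 (hp _ (hps b)).2.1 x
    · exact dj_sound (hdj _ (hix a) _ h) (hp _ (hps a)).2.1 (hp _ (hps b)).2.1 x
  · intro t
    fin_cases t
    · refine (hp _ (hps 0)).2.2.2 m ?_ _ ?_
      · exact c2
      · rw [← h0]; exact hkr _
    · exact (hp _ (hps 1)).2.2.2 _ g1 _ (hkr _)
    · exact (hp _ (hps 2)).2.2.2 _ g2 _ (hkr _)
    · exact (hp _ (hps 3)).2.2.2 _ g3 _ (hkr _)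
  · intro t x
    exact free_sound (hp _ (hps t)).2.2.1 (hp _ (hps t)).2.1 x

end Pool.Agent.Lib.MP_fe131b_co.F5
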