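import Pool.Agent.Lib.MP_fe131b_co.F5.StepB

/-!
A cheaper covering check: groups of matchings whose pair masks cover everything.
-/

set_option autoImplicit false

namespace Pool.Agent.Lib.MP_fe131b_co.F5

open Pool.Agent.Lib.MP_fe131b_co.F4

/-- the mask of the pairs which are completed by the first three rows of an entry -/
def prM (W u w T : ℕ) (q : List ℕ) : ℕ :=
  force (q.getD 0 0) fun a => force (q.getD 1 0) fun b => force (q.getD 2 0) fun c =>
  force (Nat.shiftRight (row T W a) u) fun A => force (Nat.shiftRight (row T W b) u) fun B =>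
  force (Nat.shiftRight (row T W c) u) fun C =>
  pair3 (sprM w A) (sprM w B) (sprM w C) A B C

/-- the union over a list of entries -/
def orP (W u w T : ℕ) (qs : List (List ℕ)) : ℕ :=
  List.rec (motive := fun _ => ℕ) 0 (fun q _ ih => Nat.lor (prM W u w T q) ih) qs

/-- the union over a group -/
def grpP (W u w T E : ℕ) (es : List (ℕ × List (List ℕ))) (t : List ℕ) : ℕ :=
  List.rec (motive := fun _ => ℕ) E
    (fun i _ ih => Nat.lor (orP W u w T (es.getD i (0, [])).2) ih) t

/-- the labels of a group -/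
def grpA (W u T ones : ℕ) (es : List (ℕ × List (List ℕ))) (t : List ℕ) : ℕ :=
  List.rec (motive := fun _ => ℕ) ones
    (fun i _ ih => Nat.land (Nat.shiftRight (row T W (es.getD i (0, [])).1) u) ih) t

/-- the labels of all groups -/
def orA (W u T ones Z : ℕ) (es : List (ℕ × List (List ℕ))) (ts : List (List ℕ)) : ℕ :=
  List.rec (motive := fun _ => ℕ) Z (fun t _ ih => Nat.lor (grpA W u T ones es t) ih) ts

/-- the mask of a list -/
def zmask (zs : List ℕ) : ℕ :=
  List.rec (motive := fun _ => ℕ) 0 (fun z _ ih => Nat.lor (Nat.pow 2 z) ih) zs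

/-- every group is full and every label outside of `zs` is in a group -/
def covG (W u T : ℕ) (es : List (ℕ × List (List ℕ))) (ts : List (List ℕ)) (zs : List ℕ) :
    Bool :=
  force (Nat.sub W u) fun w => force (Nat.succ w) fun s =>
  and (Nat.beq (orA W u T (Nat.pred (Nat.pow 2 w)) (Nat.shiftRight (zmask zs) u) es ts)
      (Nat.pred (Nat.pow 2 w)))
    (ts.all fun t => Nat.beq (grpP W u w T
      (Nat.lor (geo (Nat.succ s) w) (Nat.shiftLeft (geo s w) w)) es t)
      (Nat.pred (Nat.pow 2 (Nat.mul s w))))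

theorem prM_sound {W u T : ℕ} {q : List ℕ} (hw : 0 < W - u) {y z : ℕ} (hz : z < W - u + 1)
    (h : (prM W u (W - u) T q).testBit ((W - u + 1) * y + z) = true) :
    ∃ i j : Fin 3, i ≠ j ∧ (rowS W u T (q.getD i 0)).testBit y = true ∧
      (rowS W u T (q.getD j 0)).testBit z = true := by
  unfold prM at h
  simp only [force_eq] at h
  have h' : (pair3 (sprM (W - u) (rowS W u T (q.getD 0 0)))
      (sprM (W - u) (rowS W u T (q.getD 1 0))) (sprM (W - u) (rowS W u T (q.getD 2 0)))
      (rowS W u T (q.getD 0 0)) (rowS W u T (q.getD 1 0))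
      (rowS W u T (q.getD 2 0))).testBit ((W - u + 1) * y + z) = true := h
  rcases pair3_soundM hw (rowS_lt _ _ _ _) (rowS_lt _ _ _ _) (rowS_lt _ _ _ _) hz h' with
    ⟨h1, h2 | h2⟩ | ⟨h1, h2 | h2⟩ | ⟨h1, h2 | h2⟩
  · exact ⟨0, 1, by decide, h1, h2⟩
  · exact ⟨0, 2, by decide, h1, h2⟩
  · exact ⟨1, 0, by decide, h1, h2⟩
  · exact ⟨1, 2, by decide, h1, h2⟩
  · exact ⟨2, 0, by decide, h1, h2⟩
  · exact ⟨2, 1, by decide, h1, h2⟩

theorem orP_sound {W u w T : ℕ} : ∀ (qs : List (List ℕ)) {k : ℕ},
    (orP W u w T qs).testBit k = true → ∃ q ∈ qs, (prM W u w T q).testBit k = true := by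
  intro qs
  induction qs with
  | nil =>
    intro k h
    have e : orP W u w T [] = 0 := rfl
    rw [e] at h
    simp at h
  | cons q qs ih =>
    intro k h
    have e : orP W u w T (q :: qs) = prM W u w T q ||| orP W u w T qs := rfl
    rw [e, Nat.testBit_or, Bool.or_eq_true] at h
    rcases h with h | h
    · exact ⟨q, by simp, h⟩
    · obtain ⟨q', h1, h2⟩ := ih h
      exact ⟨q', List.mem_cons_of_mem _ h1, h2⟩

theorem grpP_sound {W u w T E : ℕ} {es : List (ℕ × List (List ℕ))} : ∀ (t : List ℕ) {k : ℕ},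
    (grpP W u w T E es t).testBit k = true →
    E.testBit k = true ∨ ∃ i ∈ t, ∃ q ∈ (es.getD i (0, [])).2,
      (prM W u w T q).testBit k = true := by
  intro t
  induction t with
  | nil => intro k h; exact Or.inl h
  | cons i t ih =>
    intro k h
    have e : grpP W u w T E es (i :: t) =
      orP W u w T (es.getD i (0, [])).2 ||| grpP W u w T E es t := rfl
    rw [e, Nat.testBit_or, Bool.or_eq_true] at h
    rcases h with h | h
    · obtain ⟨q, h1, h2⟩ := orP_sound _ h
      exact Or.inr ⟨i, by simp, q, h1, h2⟩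
    · rcases ih h with h1 | ⟨i', h1, h2⟩
      · exact Or.inl h1
      · exact Or.inr ⟨i', List.mem_cons_of_mem _ h1, h2⟩

theorem grpA_sound {W u T ones : ℕ} {es : List (ℕ × List (List ℕ))} : ∀ (t : List ℕ) {x : ℕ},
    (grpA W u T ones es t).testBit x = true →
    ∀ i ∈ t, (rowS W u T (es.getD i (0, [])).1).testBit x = true := by
  intro t
  induction t with
  | nil => intro x _ i hi; simp at hi
  | cons i t ih =>
    intro x h i' hi'
    have e : grpA W u T ones es (i :: t) =
      rowS W u T (es.getD i (0, [])).1 &&& grpA W u T ones es t := rfl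
    rw [e, Nat.testBit_and, Bool.and_eq_true] at h
    rcases List.mem_cons.1 hi' with rfl | h1
    · exact h.1
    · exact ih h.2 i' h1

theorem orA_sound {W u T ones Z : ℕ} {es : List (ℕ × List (List ℕ))} :
    ∀ (ts : List (List ℕ)) {x : ℕ}, (orA W u T ones Z es ts).testBit x = true →
    Z.testBit x = true ∨ ∃ t ∈ ts, (grpA W u T ones es t).testBit x = true := by
  intro ts
  induction ts with
  | nil => intro x h; exact Or.inl h
  | cons t ts ih =>
    intro x h
    have e : orA W u T ones Z es (t :: ts) =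
      grpA W u T ones es t ||| orA W u T ones Z es ts := rfl
    rw [e, Nat.testBit_or, Bool.or_eq_true] at h
    rcases h with h | h
    · exact Or.inr ⟨t, by simp, h⟩
    · rcases ih h with h1 | ⟨t', h1, h2⟩
      · exact Or.inl h1
      · exact Or.inr ⟨t', List.mem_cons_of_mem _ h1, h2⟩

theorem zmask_sound : ∀ (zs : List ℕ) {b : ℕ}, (zmask zs).testBit b = true → b ∈ zs := by
  intro zs
  induction zs with
  | nil =>
    intro b h
    have e : zmask [] = 0 := rfl
    rw [e] at h
    simp at h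
  | cons z zs ih =>
    intro b h
    have e : zmask (z :: zs) = 2 ^ z ||| zmask zs := rfl
    rw [e, Nat.testBit_or, Bool.or_eq_true, Nat.testBit_two_pow] at h
    rcases h with h | h
    · have : z = b := of_decide_eq_true h
      simp [this]
    · exact List.mem_cons_of_mem _ (ih h)

/-- the quadruples with a fifth entry -/
def qsOf (es : List (ℕ × List (List ℕ))) : List (List ℕ) :=
  es.flatMap fun e => e.2.map fun l => e.1 :: l

theorem covG_sound {W u T : ℕ} {es : List (ℕ × List (List ℕ))} {ts : List (List ℕ)}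
    {zs : List ℕ} (h : covG W u T es ts zs = true) {b c d : ℕ}
    (hb : u ≤ b) (hc : u ≤ c) (hd : u ≤ d) (hb' : b < W) (hc' : c < W) (hd' : d < W)
    (hcd : c ≠ d) (hbz : b ∉ zs) :
    ∃ q ∈ qsOf es, ∃ i j k : Fin 4, i ≠ j ∧ i ≠ k ∧ j ≠ k ∧
      (row T W (q.getD i 0)).testBit b = true ∧ (row T W (q.getD j 0)).testBit c = true ∧
      (row T W (q.getD k 0)).testBit d = true := by
  have hw : 0 < W - u := by omega
  unfold covG at h
  rw [force_eq, force_eq, Bool.and_eq_true] at h
  obtain ⟨h1, h2⟩ := h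
  set x := b - u with hx
  set y := c - u with hy
  set z := d - u with hz
  set w := W - u with hwdef
  have e0 : Nat.sub W u = w := rfl
  rw [e0] at h1 h2
  -- the group
  have h3 : (orA W u T (Nat.pred (Nat.pow 2 w)) (Nat.shiftRight (zmask zs) u) es ts).testBit x =
      true := by
    rw [Nat.eq_of_beq_eq_true h1]
    have e : Nat.pred (Nat.pow 2 w) = 2 ^ w - 1 := rfl
    rw [e, Nat.testBit_two_pow_sub_one]
    exact decide_eq_true (by omega)
  rcases orA_sound ts h3 with h4 | ⟨t, ht, h4⟩
  · exfalso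
    have h5 : (zmask zs >>> u).testBit x = true := h4
    rw [Nat.testBit_shiftRight] at h5
    have h6 := zmask_sound zs h5
    have h7 : u + x = b := by omega
    rw [h7] at h6
    exact hbz h6
  have hA := grpA_sound t h4
  have h5 := Nat.eq_of_beq_eq_true (List.all_eq_true.1 h2 t ht)
  have hlt : (w + 1) * y + z < (w + 1) * w := by
    calc (w + 1) * y + z < (w + 1) * y + (w + 1) := by omega
      _ = (w + 1) * (y + 1) := by ring
      _ ≤ (w + 1) * w := Nat.mul_le_mul_left _ (by omega)
  have h6 : (grpP W u w T (Nat.lor (geo (Nat.succ (Nat.succ w)) w)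
      (Nat.shiftLeft (geo (Nat.succ w) w) w)) es t).testBit ((w + 1) * y + z) = true := by
    rw [h5]
    have e : Nat.pred (Nat.pow 2 (Nat.mul (Nat.succ w) w)) = 2 ^ ((w + 1) * w) - 1 := rfl
    rw [e, Nat.testBit_two_pow_sub_one]
    exact decide_eq_true hlt
  rcases grpP_sound t h6 with h7 | ⟨i, hi, q, hq, h7⟩
  · exfalso
    have uniq : ∀ y' z', z' < w + 1 → (w + 1) * y + z = (w + 1) * y' + z' → y = y' ∧ z = z' := by
      intro y' z' hz' he
      have h5 : y = y' := by
        have a1 : ((w + 1) * y + z) / (w + 1) = y := by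
          rw [Nat.mul_add_div (Nat.succ_pos w), Nat.div_eq_of_lt (by omega), Nat.add_zero]
        have a2 : ((w + 1) * y' + z') / (w + 1) = y' := by
          rw [Nat.mul_add_div (Nat.succ_pos w), Nat.div_eq_of_lt hz', Nat.add_zero]
        rw [← a1, he, a2]
      refine ⟨h5, ?_⟩
      rw [h5] at he
      omega
    have h8 : (geo (w + 2) w ||| geo (w + 1) w <<< w).testBit ((w + 1) * y + z) = true := h7
    rw [Nat.testBit_or, Bool.or_eq_true] at h8
    rcases h8 with h8 | h8
    · obtain ⟨t, ht, he⟩ := geo_testBit (Nat.succ_pos (w + 1)) w _ h8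
      have e1 : (w + 1) * y + z = (w + 1) * t + t := by rw [he, Nat.succ_mul]
      obtain ⟨a, b⟩ := uniq t t (by omega) e1
      omega
    · rw [Nat.testBit_shiftLeft, Bool.and_eq_true] at h8
      obtain ⟨t, ht, he⟩ := geo_testBit (Nat.succ_pos w) w _ h8.2
      have h5 : w ≤ (w + 1) * y + z := by simpa using h8.1
      have e1 : (w + 1) * y + z = (w + 1) * t + w := by
        have : (w + 1) * y + z - w = (w + 1) * t := he
        omega
      obtain ⟨a, b⟩ := uniq t w (by omega) e1
      omega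
  · -- the entry
    obtain ⟨j, k, hjk, g1, g2⟩ := prM_sound (W := W) (u := u) hw (by omega) h7
    have g0 := hA i hi
    set e := es.getD i (0, []) with he
    have hmem : e ∈ es := by
      by_cases hlen : i < es.length
      · rw [he, List.getD_eq_getElem?_getD, List.getElem?_eq_getElem hlen, Option.getD_some]
        exact List.getElem_mem hlen
      · exfalso
        rw [he, List.getD_eq_getElem?_getD, List.getElem?_eq_none (by omega),
          Option.getD_none] at hq
        simp at hq
    have hmem2 : (e.1 :: q) ∈ qsOf es := by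
      unfold qsOf
      rw [List.mem_flatMap]
      exact ⟨e, hmem, List.mem_map.2 ⟨q, hq, rfl⟩⟩
    have hrow : ∀ (a v : ℕ), u ≤ v → (rowS W u T a).testBit (v - u) = true →
        (row T W a).testBit v = true := by
      intro a v hv h
      unfold rowS at h
      rw [Nat.testBit_shiftRight, Nat.add_sub_cancel' hv] at h
      exact h
    refine ⟨e.1 :: q, hmem2, 0, j.succ, k.succ, ?_, ?_, ?_, ?_, ?_, ?_⟩
    · exact (Fin.succ_ne_zero j).symm
    · exact (Fin.succ_ne_zero k).symm
    · exact fun h => hjk (Fin.succ_injective _ h)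
    · exact hrow _ b hb g0
    · have e1 : (e.1 :: q).getD (j.succ : Fin 4) 0 = q.getD j 0 := by
        rw [Fin.val_succ, List.getD_cons_succ]
      rw [e1]
      exact hrow _ c hc g1
    · have e1 : (e.1 :: q).getD (k.succ : Fin 4) 0 = q.getD k 0 := by
        rw [Fin.val_succ, List.getD_cons_succ]
      rw [e1]
      exact hrow _ d hd g2

/-- the triples of different indices below four -/
def trs : List (ℕ × ℕ × ℕ) :=
  [(0, 1, 2), (0, 1, 3), (0, 2, 1), (0, 2, 3), (0, 3, 1), (0, 3, 2), (1, 0, 2), (1, 0, 3),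
    (1, 2, 0), (1, 2, 3), (1, 3, 0), (1, 3, 2), (2, 0, 1), (2, 0, 3), (2, 1, 0), (2, 1, 3),
    (2, 3, 0), (2, 3, 1), (3, 0, 1), (3, 0, 2), (3, 1, 0), (3, 1, 2), (3, 2, 0), (3, 2, 1)]

theorem trs_ok : ∀ e ∈ trs, e.1 < 4 ∧ e.2.1 < 4 ∧ e.2.2 < 4 ∧ e.1 ≠ e.2.1 ∧ e.1 ≠ e.2.2 ∧
    e.2.1 ≠ e.2.2 := by decide

/-- the triples in a short list are completed -/
def triZ (W T : ℕ) (qs : List (List ℕ)) (zs : List ℕ) : Bool :=
  zs.all fun b => zs.all fun c => zs.all fun d =>
    cond (and (Nat.blt b c) (Nat.blt c d))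
      (qs.any fun q => trs.any fun e =>
        and (tb (row T W (q.getD e.1 0)) b) (and (tb (row T W (q.getD e.2.1 0)) c)
          (tb (row T W (q.getD e.2.2 0)) d))) true

theorem triZ_sound {W T : ℕ} {qs : List (List ℕ)} {zs : List ℕ} (h : triZ W T qs zs = true)
    {b c d : ℕ} (hb : b ∈ zs) (hc : c ∈ zs) (hd : d ∈ zs) (hbc : b < c) (hcd : c < d) :
    ∃ q ∈ qs, ∃ i j k : Fin 4, i ≠ j ∧ i ≠ k ∧ j ≠ k ∧
      (row T W (q.getD i 0)).testBit b = true ∧ (row T W (q.getD j 0)).testBit c = true ∧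
      (row T W (q.getD k 0)).testBit d = true := by
  unfold triZ at h
  have h1 := List.all_eq_true.1 (List.all_eq_true.1 (List.all_eq_true.1 h b hb) c hc) d hd
  have e1 : Nat.blt b c = true := by rw [Nat.blt_eq]; exact hbc
  have e2 : Nat.blt c d = true := by rw [Nat.blt_eq]; exact hcd
  rw [e1, e2, Bool.and_true, cond_true] at h1
  obtain ⟨q, hq, h2⟩ := List.any_eq_true.1 h1
  obtain ⟨e, he, h3⟩ := List.any_eq_true.1 h2
  rw [Bool.and_eq_true, Bool.and_eq_true, tb_eq, tb_eq, tb_eq] at h3
  obtain ⟨g1, g2, g3, g4, g5, g6⟩ := trs_ok e he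
  refine ⟨q, hq, ⟨e.1, g1⟩, ⟨e.2.1, g2⟩, ⟨e.2.2, g3⟩, ?_, ?_, ?_, h3.1, h3.2.1, h3.2.2⟩
  · exact fun h => g4 (Fin.mk.inj h)
  · exact fun h => g5 (Fin.mk.inj h)
  · exact fun h => g6 (Fin.mk.inj h)

theorem covRep_ofG {W T r : ℕ} {es : List (ℕ × List (List ℕ))} {ts : List (List ℕ)}
    {zs : List ℕ} (h : covG W (r + 1) T es ts zs = true)
    (hz : triZ W T (qsOf es) zs = true) : CovRep W T r (qsOf es) := by
  intro b c d h1 h2 h3 h4
  by_cases hb : b ∈ zs
  · by_cases hc : c ∈ zs
    · by_cases hd : d ∈ zs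
      · exact triZ_sound hz hb hc hd h2 h3
      · obtain ⟨q, hq, i, j, k, g1, g2, g3, g4, g5, g6⟩ := covG_sound h (b := d) (c := b)
          (d := c) (by omega) (by omega) (by omega) h4 (by omega) (by omega) (by omega) hd
        exact ⟨q, hq, j, k, i, g3, g1.symm, g2.symm, g5, g6, g4⟩
    · obtain ⟨q, hq, i, j, k, g1, g2, g3, g4, g5, g6⟩ := covG_sound h (b := c) (c := b)
        (d := d) (by omega) (by omega) (by omega) (by omega) (by omega) h4 (by omega) hc
      exact ⟨q, hq, j, i, k, g1.symm, g3, g2, g5, g4, g6⟩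
  · exact covG_sound h (by omega) (by omega) (by omega) (by omega) (by omega) h4 (by omega) hb

end Pool.Agent.Lib.MP_fe131b_co.F5
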