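import Pool.Agent.Lib.MP_fe131b_co.F5.Hm

/-!
Choosing the matchings one after the other outside a given graph.
-/

set_option autoImplicit false

namespace Pool.Agent.Lib.MP_fe131b_co.F5

open Pool.Agent.Lib.MP_fe131b_co.F4 Finset Function

/-- check of a candidate: a matching outside the graph, and a permutation that maps the graph
with the matching into the next graph -/
def okCandR (n R R' : ℕ) (e : Cand) : Bool :=
  and (and (okPM n e.m) (okPerm n e.g)) (and (free n R e.m)
    (and (pres n R R' e.g) (emb n R' e.g e.m)))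

theorem stepR {n r R : ℕ} {cands : List (Cand × ℕ)}
    (hc : (cands.all fun e => okCandR n R e.2 e.1) = true)
    (hall : ∀ L : Fin n → Fin n, PM L → ∃ e ∈ cands, ∀ M, Rep n e.1.m M → Connected L M)
    (hnext : ∀ e ∈ cands, ∀ L : Fin r → Fin n → Fin n, (∀ i, PM (L i)) → SolR n e.2 L)
    (L : Fin (r + 1) → Fin n → Fin n) (hL : ∀ i, PM (L i)) : SolR n R L := by
  obtain ⟨e, he, hham⟩ := hall (L 0) (hL 0)
  have h1 := List.all_eq_true.1 hc e he
  unfold okCandR at h1
  rw [Bool.and_eq_true, Bool.and_eq_true, Bool.and_eq_true, Bool.and_eq_true] at h1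
  obtain ⟨⟨h2, h3⟩, h4, h5, h6⟩ := h1
  obtain ⟨hpm, hmrep⟩ := okPM_sound h2
  obtain ⟨σ, hσ⟩ := okPerm_sound h3
  obtain ⟨M, g1, g2, g3, g4⟩ := hnext e he (fun (i : Fin r) w => σ (L i.succ (σ.symm w)))
    (fun i => PM_conj σ (hL i.succ))
  have hav : ∀ (i : Fin r) (x : Fin n), fn n e.1.m x ≠ σ.symm (M i (σ x)) := by
    intro i x hx
    have h7 := emb_sound hσ hmrep h6 x
    rw [hx, Equiv.apply_symm_apply, g4 i (σ x)] at h7
    exact absurd h7 (by simp)
  refine ⟨Fin.cons (fn n e.1.m) (fun i w => σ.symm (M i (σ w))), ?_, ?_, ?_, ?_⟩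
  · intro i
    refine Fin.cases ?_ (fun i => ?_) i
    · exact hpm
    · exact PM_conj σ.symm (g1 i)
  · intro i j
    refine Fin.cases ?_ (fun i => ?_) i
    · refine Fin.cases (fun h => absurd rfl h) (fun j _ x => ?_) j
      simp only [Fin.cons_zero, Fin.cons_succ]
      exact hav j x
    · refine Fin.cases (fun _ x => ?_) (fun j hij x => ?_) j
      · simp only [Fin.cons_zero, Fin.cons_succ]
        exact (hav i x).symm
      · simp only [Fin.cons_succ]
        intro hx
        exact g2 i j (fun h => hij (by rw [h])) (σ x) (σ.symm.injective hx)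
  · intro i
    refine Fin.cases ?_ (fun i => ?_) i
    · exact hham _ hmrep
    · simp only [Fin.cons_succ]
      have h6 := connected_conj σ.symm (g3 i)
      have e1 : (fun w => σ.symm ((fun w => σ (L i.succ (σ.symm w))) (σ.symm.symm w))) =
          L i.succ := by
        funext w; simp
      rw [e1] at h6
      exact h6
  · intro i x
    refine Fin.cases ?_ (fun i => ?_) i
    · exact free_sound h4 hmrep x
    · simp only [Fin.cons_succ]
      cases hx : adj R x (σ.symm (M i (σ x))) with
      | false => rfl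
      | true =>
        have h7 := pres_sound h5 hσ _ _ hx
        rw [Equiv.apply_symm_apply, g4 i (σ x)] at h7
        exact absurd h7 (by simp)

/-- the conditions on the pairs of the last step -/
def chkS (n s CW PC R : ℕ) (S : List (ℕ × List ℕ)) : Bool :=
  S.all fun e => and (and (Nat.blt e.1 s) (free n R (row PC CW e.1)))
    (force (row PC CW e.1) fun c => e.2.all fun j => and (Nat.blt j s)
      (force (row PC CW j) fun c' => and (dj n c c') (free n R c')))

/-- the covering condition, for the labels `o`, …, `o + l - 1` -/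
def chkO (w T : ℕ) (S : List (ℕ × List ℕ)) (o l : ℕ) : Bool :=
  rowQ w T S [] fun Q => force (Nat.pred (Nat.pow 2 w)) fun full =>
    allN l fun x => force (Nat.add o x) fun x' => Nat.beq (orR x' Q 0) full

theorem chkO_sound {w T o l : ℕ} {S : List (ℕ × List ℕ)} (h : chkO w T S o l = true)
    {x y : ℕ} (hx : o ≤ x) (hx2 : x < o + l) (hy : y < w) :
    ∃ s ∈ S, ∃ j ∈ s.2, (row T w s.1).testBit x = true ∧ (row T w j).testBit y = true := by
  unfold chkO at h
  obtain ⟨Q, hQ, hq⟩ := rowQ_sound w T (fun b => b = true) S S [] _ (fun s hs => hs)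
    (fun e he => by simp at he) h
  rw [force_eq, allN_iff] at hq
  have h1 := hq (x - o) (by omega)
  rw [force_eq] at h1
  have h2 : Nat.add o (x - o) = x := Nat.add_sub_cancel' hx
  rw [h2] at h1
  have h6 := Nat.eq_of_beq_eq_true h1
  have h7 : (orR x Q 0).testBit y = true := by
    rw [h6]
    have e : Nat.pred (Nat.pow 2 w) = 2 ^ w - 1 := rfl
    rw [e, Nat.testBit_two_pow_sub_one]
    exact decide_eq_true hy
  rcases orR_sound x 0 Q y h7 with h8 | ⟨e, he, h8, h9⟩
  · simp at h8
  exact hQ e he x y h8 h9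

/-- the last two labels -/
theorem pairR {n s w CW PC T R : ℕ} {Lab : ℕ → (Fin n → Fin n) → Prop}
    (hlab : ∀ M : Fin n → Fin n, PM M → ∃ i < w, Lab i M)
    (hpool : ∀ i < s, PM (fn n (row PC CW i)) ∧ Rep n (row PC CW i) (fn n (row PC CW i)) ∧
      ∀ (L : Fin n → Fin n) (j : ℕ), Lab j L → (row T w i).testBit j = true →
        Connected L (fn n (row PC CW i)))
    {S : List (ℕ × List ℕ)} (h : chkS n s CW PC R S = true)
    (hcov : ∀ x < w, ∀ y < w, ∃ s ∈ S, ∃ j ∈ s.2, (row T w s.1).testBit x = true ∧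
      (row T w j).testBit y = true)
    (L : Fin 2 → Fin n → Fin n) (hL : ∀ i, PM (L i)) : SolR n R L := by
  obtain ⟨x, hx, hxL⟩ := hlab (L 0) (hL 0)
  obtain ⟨y, hy, hyL⟩ := hlab (L 1) (hL 1)
  obtain ⟨t, ht, j, hj, h10, h11⟩ := hcov x hx y hy
  unfold chkS at h
  have h12 := List.all_eq_true.1 h t ht
  rw [Bool.and_eq_true, Bool.and_eq_true, force_eq] at h12
  obtain ⟨⟨h13, h14⟩, h15⟩ := h12
  have h16 := List.all_eq_true.1 h15 j hj
  rw [force_eq, Bool.and_eq_true, Bool.and_eq_true] at h16
  obtain ⟨h17, h18, h19⟩ := h16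
  obtain ⟨p1, p2, p3⟩ := hpool t.1 (blt_lt h13)
  obtain ⟨q1, q2, q3⟩ := hpool j (blt_lt h17)
  refine ⟨![fn n (row PC CW t.1), fn n (row PC CW j)], ?_, ?_, ?_, ?_⟩
  · intro i
    fin_cases i
    · exact p1
    · exact q1
  · intro i i' hii x
    fin_cases i <;> fin_cases i'
    · exact absurd rfl hii
    · exact dj_sound h18 p2 q2 x
    · exact fun h => dj_sound h18 p2 q2 x h.symm
    · exact absurd rfl hii
  · intro i
    fin_cases i
    · exact p3 _ _ hxL h10
    · exact q3 _ _ hyL h11
  · intro i x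
    fin_cases i
    · exact free_sound h14 p2 x
    · exact free_sound h19 q2 x

end Pool.Agent.Lib.MP_fe131b_co.F5
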