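import Pool.Agent.Lib.MP_fe131b_co.F5.DX
import Pool.Agent.Lib.MP_fe131b_co.F4.K12

/-!
Twelve points, two forbidden matchings between the halves: classes.
-/

set_option autoImplicit false

namespace Pool.Agent.Lib.MP_fe131b_co.F5

open Pool.Agent.Lib.MP_fe131b_co.F4 Finset Function

theorem tb12_6 : ((pmGen 5 (del 6 (List.range' 1 11)) 6).all fun c => force c fun c =>
    or (not (allN 6 fun x => Nat.ble 6 (pt c x)))
      (tab12.any fun e => emb 12 e.2 e.1 c)) = true := by
  decide +kernel

theorem tb12_7 : ((pmGen 5 (del 7 (List.range' 1 11)) 7).all fun c => force c fun c =>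
    or (not (allN 6 fun x => Nat.ble 6 (pt c x)))
      (tab12.any fun e => emb 12 e.2 e.1 c)) = true := by
  decide +kernel

theorem tb12_8 : ((pmGen 5 (del 8 (List.range' 1 11)) 8).all fun c => force c fun c =>
    or (not (allN 6 fun x => Nat.ble 6 (pt c x)))
      (tab12.any fun e => emb 12 e.2 e.1 c)) = true := by
  decide +kernel

theorem okTab : (tab12.all fun e => and (okPerm 12 e.1) (pres 12 R12_1 e.2 e.1)) = true := by
  decide +kernel

end Pool.Agent.Lib.MP_fe131b_co.F5
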