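import Pool.Agent.Lib.MP_fe131b_co.F5.DX
import Pool.Agent.Lib.MP_fe131b_co.F4.K12

/-!
Twelve points, two forbidden matchings between the halves: classes.
-/

set_option autoImplicit false

namespace Pool.Agent.Lib.MP_fe131b_co.F5

open Pool.Agent.Lib.MP_fe131b_co.F4 Finset Function

theorem tb12_9 : ((pmGen 5 (del 9 (List.range' 1 11)) 9).all fun c => force c fun c =>
    or (not (allN 6 fun x => Nat.ble 6 (pt c x)))
      (tab12.any fun e => emb 12 e.2 e.1 c)) = true := by
  decide +kernel

theorem tb12_10 : ((pmGen 5 (del 10 (List.range' 1 11)) 10).all fun c => force c fun c =>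
    or (not (allN 6 fun x => Nat.ble 6 (pt c x)))
      (tab12.any fun e => emb 12 e.2 e.1 c)) = true := by
  decide +kernel

theorem tb12_11 : ((pmGen 5 (del 11 (List.range' 1 11)) 11).all fun c => force c fun c =>
    or (not (allN 6 fun x => Nat.ble 6 (pt c x)))
      (tab12.any fun e => emb 12 e.2 e.1 c)) = true := by
  decide +kernel

end Pool.Agent.Lib.MP_fe131b_co.F5
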