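import Pool.Agent.Lib.MP_fe131b_co.F5.DB

/-!
At most three different labels: relabelling and certificates.
-/

set_option autoImplicit false

namespace Pool.Agent.Lib.MP_fe131b_co.F5

open Pool.Agent.Lib.MP_fe131b_co.F4 Finset Function

/-- the label with number `k` -/
def lab {n : ℕ} (A B C : Fin n → Fin n) (k : ℕ) : Fin n → Fin n :=
  if k = 0 then A else if k = 1 then B else C

/-- eight labels, equal to `A`, `B`, `C` in the pattern `p` -/
def P3 (n : ℕ) (p : List ℕ) (A B : Fin n → Fin n) : Prop :=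
  ∀ C : Fin n → Fin n, PM C → ∃ M : Fin 8 → Fin n → Fin n, (∀ i, PM (M i)) ∧ Disj M ∧
    ∀ i : Fin 8, Connected (lab A B C (p.getD i 0)) (M i)

theorem lab_conj {n : ℕ} (e : Equiv.Perm (Fin n)) (A B C : Fin n → Fin n) (k : ℕ) :
    lab (fun w => e (A (e.symm w))) (fun w => e (B (e.symm w))) (fun w => e (C (e.symm w))) k =
      fun w => e (lab A B C k (e.symm w)) := by
  unfold lab
  by_cases h0 : k = 0
  · simp only [if_pos h0]
  · by_cases h1 : k = 1
    · simp only [if_neg h0, if_pos h1]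
    · simp only [if_neg h0, if_neg h1]

theorem P3.conj {n : ℕ} {p : List ℕ} (e : Equiv.Perm (Fin n)) {A B : Fin n → Fin n}
    (h : P3 n p (fun w => e (A (e.symm w))) (fun w => e (B (e.symm w)))) : P3 n p A B := by
  intro C hC
  obtain ⟨M, h1, h2, h3⟩ := h (fun w => e (C (e.symm w))) (PM_conj e hC)
  refine ⟨fun i v => e.symm (M i (e v)), fun i => PM_conj e.symm (h1 i), ?_, ?_⟩
  · intro i j hij v hv
    exact h2 i j hij (e v) (e.symm.injective hv)
  · intro i
    have h4 := h3 i
    rw [lab_conj] at h4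
    have h5 := connected_conj e.symm h4
    have e1 : (fun w => e.symm ((fun w => e (lab A B C (p.getD i 0) (e.symm w)))
        (e.symm.symm w))) = lab A B C (p.getD i 0) := by
      funext w; simp
    rw [e1] at h5
    exact h5

/-- check of a certificate -/
def okC3 (n A B : ℕ) (p q : List ℕ) : Bool :=
  and (allN 8 fun i => force (q.getD i 0) fun c => and (okPM n c)
      (cond (Nat.beq (p.getD i 0) 0) (ham n A c) (cond (Nat.beq (p.getD i 0) 1) (ham n B c) true)))
    (allN 8 fun j => force (q.getD j 0) fun c => allN j fun i =>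
      force (q.getD i 0) fun c' => dj n c' c)

/-- check of a list of certificates -/
def chk3 (n A B : ℕ) (p pms : List ℕ) (qs : List (List ℕ)) : Bool :=
  and (qs.all (okC3 n A B p)) (pms.all fun l => qs.any fun q =>
    allN 8 fun i => cond (Nat.ble 2 (p.getD i 0)) (ham n l (q.getD i 0)) true)

theorem chk3_sound {n cA cB : ℕ} {p pms : List ℕ} {qs : List (List ℕ)} (hn0 : 0 < n)
    (hcode : ∀ M : Fin n → Fin n, PM M → ∃ c ∈ pms, Rep n c M)
    (h : chk3 n cA cB p pms qs = true) {A B : Fin n → Fin n} (hA : Rep n cA A)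
    (hB : Rep n cB B) : P3 n p A B := by
  intro C hC
  unfold chk3 at h
  rw [Bool.and_eq_true] at h
  obtain ⟨l, hl, hr⟩ := hcode C hC
  obtain ⟨q, hq, hq2⟩ := List.any_eq_true.1 (List.all_eq_true.1 h.2 l hl)
  have h1 := List.all_eq_true.1 h.1 q hq
  unfold okC3 at h1
  rw [Bool.and_eq_true, allN_iff, allN_iff] at h1
  obtain ⟨h2, h3⟩ := h1
  rw [allN_iff] at hq2
  have h4 : ∀ i < 8, okPM n (q.getD i 0) = true ∧
      cond (Nat.beq (p.getD i 0) 0) (ham n cA (q.getD i 0))
        (cond (Nat.beq (p.getD i 0) 1) (ham n cB (q.getD i 0)) true) = true := by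
    intro i hi
    have := h2 i hi
    rw [force_eq, Bool.and_eq_true] at this
    exact this
  have h5 : ∀ j < 8, ∀ i < j, dj n (q.getD i 0) (q.getD j 0) = true := by
    intro j hj i hi
    have := h3 j hj
    rw [force_eq, allN_iff] at this
    have := this i hi
    rw [force_eq] at this
    exact this
  refine ⟨fun i => fn n (q.getD i 0), fun i => (okPM_sound (h4 i i.2).1).1, ?_, ?_⟩
  · intro i j hij x
    rcases Nat.lt_or_gt_of_ne (fun h => hij (Fin.ext h)) with h | h
    · exact dj_sound (h5 j j.2 i h) (okPM_sound (h4 i i.2).1).2 (okPM_sound (h4 j j.2).1).2 x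
    · exact fun he => dj_sound (h5 i i.2 j h) (okPM_sound (h4 j j.2).1).2
        (okPM_sound (h4 i i.2).1).2 x he.symm
  · intro i
    obtain ⟨h6, h7⟩ := h4 i i.2
    have h8 := (okPM_sound h6).2
    unfold lab
    by_cases h0 : p.getD i 0 = 0
    · rw [if_pos h0]
      rw [h0] at h7
      exact ham_sound hn0 hA h8 h7
    · rw [if_neg h0]
      by_cases h1 : p.getD i 0 = 1
      · rw [if_pos h1]
        rw [h1] at h7
        exact ham_sound hn0 hB h8 h7
      · rw [if_neg h1]
        have h9 := hq2 i i.2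
        have h10 : Nat.ble 2 (p.getD i 0) = true := Nat.ble_eq_true_of_le (by omega)
        rw [h10, cond_true] at h9
        exact ham_sound hn0 hr h8 h9

/-! ### patterns -/

theorem exists_perm_of_card {α β : Type} [Fintype α] [DecidableEq β] (f g : α → β)
    (h : ∀ v, Fintype.card {i // f i = v} = Fintype.card {i // g i = v}) :
    ∃ σ : Equiv.Perm α, ∀ i, f (σ i) = g i := by
  classical
  let e : ∀ v, {i // g i = v} ≃ {i // f i = v} := fun v => Fintype.equivOfCardEq (h v).symm
  refine ⟨(Equiv.sigmaFiberEquiv g).symm.trans ((Equiv.sigmaCongrRight e).trans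
    (Equiv.sigmaFiberEquiv f)), fun i => ?_⟩
  exact (e (g i) ⟨i, rfl⟩).2

/-- the five patterns -/
def pats : List (List ℕ) := [[0, 0, 0, 0, 0, 0, 1, 2], [0, 0, 0, 0, 0, 1, 1, 2],
  [0, 0, 0, 0, 1, 1, 1, 2], [0, 0, 0, 0, 1, 1, 2, 2], [0, 0, 0, 1, 1, 1, 2, 2]]

def patF (p : Fin 5) (i : Fin 8) : Fin 3 :=
  ![![0, 0, 0, 0, 0, 0, 1, 2], ![0, 0, 0, 0, 0, 1, 1, 2],
  ![0, 0, 0, 0, 1, 1, 1, 2], ![0, 0, 0, 0, 1, 1, 2, 2], ![0, 0, 0, 1, 1, 1, 2, 2]] p i

theorem patF_eq : ∀ (p : Fin 5) (i : Fin 8), ((pats.getD p []).getD i 0) = (patF p i : ℕ) := by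
  decide

theorem pats_count : ∀ n0 < 9, ∀ n1 < 9, n0 + n1 ≤ 8 → ∃ p : Fin 5, ∃ a b c : Fin 3,
    Fintype.card {i // ![a, b, c] (patF p i) = 0} = n0 ∧
    Fintype.card {i // ![a, b, c] (patF p i) = 1} = n1 := by
  decide +kernel

theorem lab_eq {n : ℕ} (T : Fin 3 → Fin n → Fin n) (k : Fin 3) :
    lab (T 0) (T 1) (T 2) k = T k := by
  fin_cases k <;> rfl

/-- labels with at most three different values -/
theorem sol_three {n : ℕ}
    (h : ∀ p ∈ pats, ∀ A B : Fin n → Fin n, PM A → PM B → P3 n p A B)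
    (T : Fin 3 → Fin n → Fin n) (hT : ∀ k, PM (T k)) (f : Fin 8 → Fin 3) :
    Sol (fun i => T (f i)) := by
  classical
  have hsum : Fintype.card {i // f i = 0} + Fintype.card {i // f i = 1} +
      Fintype.card {i // f i = 2} = 8 := by
    have h1 := Fintype.card_congr (Equiv.sigmaFiberEquiv f)
    rw [Fintype.card_sigma, Fin.sum_univ_three, Fintype.card_fin] at h1
    exact h1
  obtain ⟨p, a, b, c, h0, h1⟩ := pats_count (Fintype.card {i // f i = 0}) (by omega)
    (Fintype.card {i // f i = 1}) (by omega) (by omega)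
  let g : Fin 8 → Fin 3 := fun i => ![a, b, c] (patF p i)
  have hsumg : Fintype.card {i // g i = 0} + Fintype.card {i // g i = 1} +
      Fintype.card {i // g i = 2} = 8 := by
    have h1 := Fintype.card_congr (Equiv.sigmaFiberEquiv g)
    rw [Fintype.card_sigma, Fin.sum_univ_three, Fintype.card_fin] at h1
    exact h1
  have h0' : Fintype.card {i // g i = 0} = Fintype.card {i // f i = 0} := h0
  have h1' : Fintype.card {i // g i = 1} = Fintype.card {i // f i = 1} := h1
  obtain ⟨σ, hσ⟩ := exists_perm_of_card f g (by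
    intro v
    fin_cases v
    · exact h0'.symm
    · exact h1'.symm
    · show Fintype.card {i // f i = 2} = Fintype.card {i // g i = 2}
      omega)
  have hp : pats.getD p [] ∈ pats := by
    have : ∀ p : Fin 5, pats.getD p [] ∈ pats := by decide
    exact this p
  obtain ⟨M, g1, g2, g3⟩ := h _ hp (T a) (T b) (hT a) (hT b) (T c) (hT c)
  refine ⟨fun i => M (σ.symm i), fun i => g1 _, ?_, ?_⟩
  · intro i j hij
    exact g2 _ _ (fun h => hij (σ.symm.injective h))
  · intro i
    have h4 := g3 (σ.symm i)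
    rw [patF_eq] at h4
    have h5 : lab (T a) (T b) (T c) (patF p (σ.symm i) : ℕ) = T (f i) := by
      have h6 := lab_eq (fun k => T (![a, b, c] k)) (patF p (σ.symm i))
      have h7 := hσ (σ.symm i)
      rw [Equiv.apply_symm_apply] at h7
      rw [h7]
      exact h6
    rw [h5] at h4
    exact h4

end Pool.Agent.Lib.MP_fe131b_co.F5
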