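import Pool.Agent.Lib.MP_fe131b_co.F5.L12
import Pool.Agent.Lib.MP_fe131b_co.F5.CXa
import Pool.Agent.Lib.MP_fe131b_co.F5.CXb
import Pool.Agent.Lib.MP_fe131b_co.F5.TXa
import Pool.Agent.Lib.MP_fe131b_co.F5.TXb

/-!
Twelve points: a label is completed by a matching between the halves that avoids two given
matchings between the halves.
-/

set_option autoImplicit false

namespace Pool.Agent.Lib.MP_fe131b_co.F5

open Pool.Agent.Lib.MP_fe131b_co.F4 Finset Function

theorem one12 {RT : ℕ} {X : List ℕ} (hcov : covH 12 10395 E12 X = true)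
    (hok : (X.all fun m => and (okPM 12 m) (free 12 RT m)) = true) (L : Fin 12 → Fin 12)
    (hL : PM L) : ∃ M : Fin 12 → Fin 12, PM M ∧ (∀ x : Fin 12, adj RT x (M x) = false) ∧
      Connected L M := by
  obtain ⟨i, hi, h1⟩ := lab12 L hL
  obtain ⟨m, hm, h2⟩ := covH_sound (by norm_num) hcov L hi h1
  have h3 := List.all_eq_true.1 hok m hm
  rw [Bool.and_eq_true] at h3
  obtain ⟨h4, h5⟩ := okPM_sound h3.1
  exact ⟨fn 12 m, h4, free_sound h3.2 h5, h2 _ h5⟩

theorem tabT : (tab12.all fun e => [R12_2a, R12_2b, R12_3a, R12_3b, R12_3c, R12_3d].any fun r =>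
    Nat.beq r e.2) = true := by
  decide +kernel

theorem one12_tab (e : ℕ × ℕ) (he : e ∈ tab12) (L : Fin 12 → Fin 12)
    (hL : PM L) : ∃ M : Fin 12 → Fin 12, PM M ∧ (∀ x : Fin 12, adj e.2 x (M x) = false) ∧
      Connected L M := by
  obtain ⟨r, hr, h1⟩ := List.any_eq_true.1 (List.all_eq_true.1 tabT e he)
  rw [← Nat.eq_of_beq_eq_true h1]
  simp only [List.mem_cons, List.not_mem_nil, or_false] at hr
  rcases hr with rfl | rfl | rfl | rfl | rfl | rfl
  · exact one12 covX0 okX0 L hL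
  · exact one12 covX1 okX1 L hL
  · exact one12 covX2 okX2 L hL
  · exact one12 covX3 okX3 L hL
  · exact one12 covX4 okX4 L hL
  · exact one12 covX5 okX5 L hL

theorem tab_cross (G : Fin 12 → Fin 12) (hG : PM G)
    (hx : ∀ x : Fin 12, (x : ℕ) < 6 → ¬ (G x : ℕ) < 6) : ∃ e ∈ tab12, ∃ c, Rep 12 c G ∧
      emb 12 e.2 e.1 c = true := by
  obtain ⟨c, hc, hr⟩ := exists_code (by norm_num) (by norm_num) hG
  have hc' : ∃ b ∈ List.range' 1 11, c ∈ pmGen 5 (del b (List.range' 1 11)) b ∧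
      c ∈ pmGen 6 (List.range 12) 0 := by
    refine (fun ⟨b, hb, hb2⟩ => ⟨b, hb, hb2, hc⟩ : (∃ b ∈ List.range' 1 11,
      c ∈ pmGen 5 (del b (List.range' 1 11)) b) → _) ?_
    have e : List.range 12 = 0 :: List.range' 1 11 := by decide
    have e2 : (12 / 2 : ℕ) = 5 + 1 := rfl
    rw [e2, e] at hc
    simp only [pmGen, List.mem_flatMap] at hc
    obtain ⟨b, hb, hc⟩ := hc
    refine ⟨b, hb, ?_⟩
    rw [del_eq]
    simpa using hc
  obtain ⟨b, hb, hcb, -⟩ := hc'
  have hcr : allN 6 (fun x => Nat.ble 6 (pt c x)) = true := by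
    rw [allN_iff]
    intro x hx'
    have h1 := hx ⟨x, by omega⟩ hx'
    have h2 : pt c x = (G ⟨x, by omega⟩ : ℕ) := hr ⟨x, by omega⟩
    rw [h2]
    exact Nat.ble_eq_true_of_le (by omega)
  have h1 : 1 ≤ b ∧ b < 12 := by
    rw [List.mem_range'] at hb
    obtain ⟨i, hi, rfl⟩ := hb
    omega
  obtain ⟨h1, h2⟩ := h1
  have fin : (((pmGen 5 (del b (List.range' 1 11)) b).all fun c => force c fun c =>
    or (not (allN 6 fun x => Nat.ble 6 (pt c x)))
      (tab12.any fun e => emb 12 e.2 e.1 c)) = true) → ∃ e ∈ tab12, ∃ c, Rep 12 c G ∧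
      emb 12 e.2 e.1 c = true := by
    intro h
    have h3 := List.all_eq_true.1 h c hcb
    rw [force_eq, hcr] at h3
    have h4 : (tab12.any fun e => emb 12 e.2 e.1 c) = true := h3
    obtain ⟨e, he, he2⟩ := List.any_eq_true.1 h4
    exact ⟨e, he, c, hr, he2⟩
  by_cases h6 : b < 6
  · -- the partner of `0` is the first digit
    exfalso
    have hd : ∀ b' < 6, (pmGen 5 (del b' (List.range' 1 11)) b').all
        (fun c => Nat.beq (pt c 0) b') = true := by
      intro b' hb'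
      interval_cases b' <;> decide +kernel
    have h7 := List.all_eq_true.1 (hd b h6) c hcb
    have h8 := Nat.eq_of_beq_eq_true h7
    have h9 : pt c 0 = (G 0 : ℕ) := hr 0
    apply hx 0 (by norm_num)
    rw [← h9, h8]
    exact h6
  · interval_cases b
    · exact fin tb12_6
    · exact fin tb12_7
    · exact fin tb12_8
    · exact fin tb12_9
    · exact fin tb12_10
    · exact fin tb12_11

theorem cross2_12 (G L : Fin 12 → Fin 12) (hG : PM G)
    (hx : ∀ x : Fin 12, (x : ℕ) < 6 → ¬ (G x : ℕ) < 6) (hL : PM L) :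
    ∃ M : Fin 12 → Fin 12, PM M ∧ (∀ x : Fin 12, adj R12_1 x (M x) = false) ∧
      (∀ x, M x ≠ G x) ∧ Connected L M := by
  obtain ⟨e, he, c, hr, h1⟩ := tab_cross G hG hx
  have h2 := List.all_eq_true.1 okTab e he
  rw [Bool.and_eq_true] at h2
  obtain ⟨σ, hσ⟩ := okPerm_sound h2.1
  obtain ⟨M, m1, m2, m3⟩ := one12_tab e he _ (PM_conj σ hL)
  refine ⟨fun v => σ.symm (M (σ v)), PM_conj σ.symm m1, ?_, ?_, ?_⟩
  · intro x
    cases hh : adj R12_1 x (σ.symm (M (σ x))) with
    | false => rfl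
    | true =>
      have h7 := pres_sound h2.2 hσ _ _ hh
      rw [Equiv.apply_symm_apply, m2 (σ x)] at h7
      exact absurd h7 (by simp)
  · intro x hh
    have h7 := emb_sound hσ hr h1 x
    have hh' : σ.symm (M (σ x)) = G x := hh
    rw [← hh', Equiv.apply_symm_apply, m2 (σ x)] at h7
    exact absurd h7 (by simp)
  · have h6 := connected_conj σ.symm m3
    have e1 : (fun w => σ.symm ((fun w => σ (L (σ.symm w))) (σ.symm.symm w))) = L := by
      funext w; simp
    rw [e1] at h6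
    exact h6

end Pool.Agent.Lib.MP_fe131b_co.F5
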